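import Mathlib

open CategoryTheory Filter Topology

namespace Pool.Agent.Helper75.Defs

/-- Compatible families of residues, as a subring of the product of all `ZMod n`, `n ≥ 1`. -/
def ZhatRing : Subring (∀ n : ℕ+, ZMod n) where
  carrier := {a | ∀ (m n : ℕ+) (h : (m : ℕ) ∣ n), ZMod.castHom h (ZMod m) (a n) = a m}
  mul_mem' := by
    intro a b ha hb m n h
    rw [Pi.mul_apply, map_mul, ha m n h, hb m n h, Pi.mul_apply]
  one_mem' := by
    intro m n h
    rw [Pi.one_apply, map_one, Pi.one_apply]
  add_mem' := by
    intro a b ha hb m n h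
    rw [Pi.add_apply, map_add, ha m n h, hb m n h, Pi.add_apply]
  zero_mem' := by
    intro m n h
    rw [Pi.zero_apply, map_zero, Pi.zero_apply]
  neg_mem' := by
    intro a ha m n h
    rw [Pi.neg_apply, map_neg, ha m n h, Pi.neg_apply]

/-- The ring of profinite integers. -/
def Zhat : Type := ↥ZhatRing

instance : CommRing Zhat := inferInstanceAs (CommRing ↥ZhatRing)

/-- Residue of a profinite integer modulo `n ≥ 1`, as a natural number `< n`. -/
def res (l : Zhat) (n : ℕ+) : ℕ := (Subtype.val (p := fun a => a ∈ ZhatRing) l n).val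

/-- The profinite power `g ^ l`: the limit of `g ^ (l mod k!)` as `k` tends to infinity. -/
noncomputable def ppow {G : Type} [Group G] [TopologicalSpace G] (g : G) (l : Zhat) : G :=
  limUnder atTop fun k : ℕ => g ^ res l ⟨k.factorial, k.factorial_pos⟩

/-- The profinite completion of a group `Γ`. -/
def PC (Γ : Type) [Group Γ] : Type :=
  ProfiniteGrp.ProfiniteCompletion.completion (GrpCat.of Γ)

section

variable (Γ : Type) [Group Γ]

instance : Group (PC Γ) :=
  inferInstanceAs (Group (ProfiniteGrp.ProfiniteCompletion.completion (GrpCat.of Γ)))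

instance : TopologicalSpace (PC Γ) :=
  inferInstanceAs (TopologicalSpace (ProfiniteGrp.ProfiniteCompletion.completion (GrpCat.of Γ)))

/-- The canonical homomorphism from `Γ` to its profinite completion. -/
def eta : Γ →* PC Γ :=
  (ProfiniteGrp.ProfiniteCompletion.eta (GrpCat.of Γ)).hom

end

end Pool.Agent.Helper75.Defs
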