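import Mathlib
import Pool.Agent.Helper75.Defs

open CategoryTheory Filter Topology

set_option linter.unusedSectionVars false

namespace Pool.Agent.Helper75.Basic

open Pool.Agent.Helper75.Defs

lemma res_modEq (l : Zhat) {m n : ℕ+} (h : (m : ℕ) ∣ n) : res l n ≡ res l m [MOD m] := by
  have h1 := l.2 m n h
  rw [← ZMod.natCast_eq_natCast_iff]
  unfold res
  rw [ZMod.natCast_zmod_val, ← h1]
  rw [← ZMod.natCast_zmod_val (l.1 n)]
  simp

lemma res_lt (l : Zhat) (n : ℕ+) : res l n < n := ZMod.val_lt _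

lemma pow_res_eq {G : Type*} [Group G] (g : G) (l : Zhat) {m n : ℕ+} (h : (m : ℕ) ∣ n)
    (hg : g ^ (m : ℕ) = 1) : g ^ res l n = g ^ res l m :=
  pow_eq_pow_iff_modEq.2 ((res_modEq l h).of_dvd (orderOf_dvd_of_pow_eq_one hg))

lemma pow_card_mem {G : Type*} [Group G] [TopologicalSpace G] (N : OpenNormalSubgroup G) (g : G) :
    g ^ (Nat.card (G ⧸ N.toSubgroup)) ∈ N.toSubgroup := by
  rw [← QuotientGroup.eq_one_iff, QuotientGroup.mk_pow]
  exact pow_card_eq_one'

section profinite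

variable {G : Type} [Group G] [TopologicalSpace G] [IsTopologicalGroup G] [CompactSpace G]
  [TotallyDisconnectedSpace G]

lemma eq_of_forall_mk_eq {a b : G} (h : ∀ N : OpenNormalSubgroup G,
    (QuotientGroup.mk a : G ⧸ N.toSubgroup) = QuotientGroup.mk b) : a = b := by
  by_contra hab
  have : a⁻¹ * b ≠ 1 := by
    intro h1
    exact hab (inv_mul_eq_one.1 h1)
  obtain ⟨N, hN⟩ := ProfiniteGrp.exist_openNormalSubgroup_sub_open_nhds_of_one
    (isOpen_compl_singleton (x := a⁻¹ * b)) (by simpa using this.symm)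
  have h2 := QuotientGroup.eq.1 (h N)
  exact hN h2 rfl

omit [TotallyDisconnectedSpace G] in
lemma card_pos (N : OpenNormalSubgroup G) : 0 < Nat.card (G ⧸ N.toSubgroup) := by
  have : Finite (G ⧸ N.toSubgroup) := inferInstance
  exact Nat.card_pos

/-- the order of the finite quotient as a positive number -/
noncomputable def pcard (N : OpenNormalSubgroup G) : ℕ+ := ⟨Nat.card (G ⧸ N.toSubgroup), card_pos N⟩

lemma tendsto_of_eventually {f : ℕ → G} {c : G}
    (h : ∀ N : OpenNormalSubgroup G, ∀ᶠ k in atTop,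
      (QuotientGroup.mk (f k) : G ⧸ N.toSubgroup) = QuotientGroup.mk c) :
    Tendsto f atTop (𝓝 c) := by
  intro U hU
  have h1 : (fun g => c * g) ⁻¹' U ∈ 𝓝 (1 : G) := by
    apply (continuous_const_mul c).continuousAt.preimage_mem_nhds
    simpa using hU
  obtain ⟨V, hVU, hVo, hV1⟩ := mem_nhds_iff.1 h1
  obtain ⟨N, hN⟩ := ProfiniteGrp.exist_openNormalSubgroup_sub_open_nhds_of_one hVo hV1
  rw [mem_map]
  filter_upwards [h N] with k hk
  have h2 : c⁻¹ * f k ∈ N.toSubgroup := QuotientGroup.eq.1 hk.symm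
  have h3 := hVU (hN h2)
  simpa using h3

lemma exists_lim_of_eventually {f : ℕ → G}
    (h : ∀ N : OpenNormalSubgroup G, ∃ c : G, ∀ᶠ k in atTop,
      (QuotientGroup.mk (f k) : G ⧸ N.toSubgroup) = QuotientGroup.mk c) :
    ∃ c, Tendsto f atTop (𝓝 c) := by
  obtain ⟨c, hc⟩ := exists_clusterPt_of_compactSpace (map f atTop)
  refine ⟨c, tendsto_of_eventually fun N => ?_⟩
  obtain ⟨b, hb⟩ := h N
  have hopen : IsOpen ((fun g => c⁻¹ * g) ⁻¹' (N : Set G)) :=
    N.isOpen'.preimage (continuous_const_mul _)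
  have hmem : (fun g => c⁻¹ * g) ⁻¹' (N : Set G) ∈ 𝓝 c := by
    apply hopen.mem_nhds
    show c⁻¹ * c ∈ N
    rw [inv_mul_cancel]
    exact one_mem N
  have hfreq := (mapClusterPt_iff_frequently.1 hc) _ hmem
  obtain ⟨k, hk1, hk2⟩ := (hfreq.and_eventually hb).exists
  have h4 : (QuotientGroup.mk c : G ⧸ N.toSubgroup) = QuotientGroup.mk (f k) :=
    QuotientGroup.eq.2 hk1
  rw [h4, hk2]
  exact hb

lemma eventually_mk_pow (N : OpenNormalSubgroup G) (g : G) (l : Zhat) : ∀ᶠ k : ℕ in atTop,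
    (QuotientGroup.mk (g ^ res l ⟨k.factorial, k.factorial_pos⟩) : G ⧸ N.toSubgroup) =
      QuotientGroup.mk (g ^ res l (pcard N)) := by
  filter_upwards [eventually_ge_atTop (pcard N : ℕ)] with k hk
  rw [QuotientGroup.mk_pow, QuotientGroup.mk_pow]
  apply pow_res_eq
  · exact Nat.dvd_factorial (pcard N).pos hk
  · exact pow_card_eq_one'

lemma tendsto_ppow (g : G) (l : Zhat) :
    Tendsto (fun k : ℕ => g ^ res l ⟨k.factorial, k.factorial_pos⟩) atTop (𝓝 (ppow g l)) := by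
  obtain ⟨c, hc⟩ := exists_lim_of_eventually (f := fun k : ℕ =>
    g ^ res l ⟨k.factorial, k.factorial_pos⟩)
    (fun N => ⟨g ^ res l (pcard N), eventually_mk_pow N g l⟩)
  exact tendsto_nhds_limUnder ⟨c, hc⟩

lemma mk_ppow (N : OpenNormalSubgroup G) (g : G) (l : Zhat) :
    (QuotientGroup.mk (ppow g l) : G ⧸ N.toSubgroup) = (QuotientGroup.mk g) ^ res l (pcard N) := by
  have hopen : IsOpen ((fun a => (ppow g l)⁻¹ * a) ⁻¹' (N : Set G)) :=
    N.isOpen'.preimage (continuous_const_mul _)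
  have hmem : (fun a => (ppow g l)⁻¹ * a) ⁻¹' (N : Set G) ∈ 𝓝 (ppow g l) := by
    apply hopen.mem_nhds
    show (ppow g l)⁻¹ * (ppow g l) ∈ N
    rw [inv_mul_cancel]
    exact one_mem N
  obtain ⟨k, hk1, hk2⟩ := (((tendsto_ppow g l).eventually hmem).and
    (eventually_mk_pow N g l)).exists
  rw [← QuotientGroup.mk_pow, ← hk2]
  exact QuotientGroup.eq.2 hk1

lemma eq_ppow_iff {a g : G} {l : Zhat} : a = ppow g l ↔ ∀ N : OpenNormalSubgroup G,
    (QuotientGroup.mk a : G ⧸ N.toSubgroup) = (QuotientGroup.mk g) ^ res l (pcard N) := by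
  constructor
  · rintro rfl N
    exact mk_ppow N g l
  · intro h
    apply eq_of_forall_mk_eq
    intro N
    rw [h N, mk_ppow]

lemma map_ppow {H : Type} [Group H] [TopologicalSpace H] [IsTopologicalGroup H] [CompactSpace H]
    [TotallyDisconnectedSpace H] (φ : G →ₜ* H) (g : G) (l : Zhat) :
    φ (ppow g l) = ppow (φ g) l := by
  have h1 := (φ.continuous_toFun.tendsto (ppow g l)).comp (tendsto_ppow g l)
  have h2 := tendsto_ppow (φ g) l
  refine tendsto_nhds_unique h1 (h2.congr fun k => ?_)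
  show _ = φ (g ^ _)
  rw [map_pow]

end profinite

lemma res_one (n : ℕ+) : res 1 n ≡ 1 [MOD n] := by
  rw [← ZMod.natCast_eq_natCast_iff]
  unfold res
  rw [ZMod.natCast_zmod_val, Nat.cast_one]
  rfl

lemma res_mul (a b : Zhat) (n : ℕ+) : res (a * b) n ≡ res a n * res b n [MOD n] := by
  rw [← ZMod.natCast_eq_natCast_iff, Nat.cast_mul]
  unfold res
  rw [ZMod.natCast_zmod_val, ZMod.natCast_zmod_val, ZMod.natCast_zmod_val]
  rfl

lemma res_add (a b : Zhat) (n : ℕ+) : res (a + b) n ≡ res a n + res b n [MOD n] := by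
  rw [← ZMod.natCast_eq_natCast_iff, Nat.cast_add]
  unfold res
  rw [ZMod.natCast_zmod_val, ZMod.natCast_zmod_val, ZMod.natCast_zmod_val]
  rfl

/-- power lemma in a finite quotient -/
lemma pow_eq_of_modEq {G : Type*} [Group G] {g : G} {n a b : ℕ} (hg : g ^ n = 1)
    (h : a ≡ b [MOD n]) : g ^ a = g ^ b :=
  pow_eq_pow_iff_modEq.2 (h.of_dvd (orderOf_dvd_of_pow_eq_one hg))

section profinite2

variable {G : Type} [Group G] [TopologicalSpace G] [IsTopologicalGroup G] [CompactSpace G]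
  [TotallyDisconnectedSpace G]

lemma ppow_one (g : G) : ppow g 1 = g := by
  symm
  rw [eq_ppow_iff]
  intro N
  rw [pow_eq_of_modEq pow_card_eq_one' (res_one (pcard N)), pow_one]

lemma ppow_mul (g : G) (a b : Zhat) : ppow g (a * b) = ppow (ppow g a) b := by
  rw [eq_ppow_iff]
  intro N
  rw [mk_ppow, mk_ppow, ← pow_mul]
  exact pow_eq_of_modEq pow_card_eq_one' (res_mul a b (pcard N))

lemma ppow_add (g : G) (a b : Zhat) : ppow g (a + b) = ppow g a * ppow g b := by
  apply eq_of_forall_mk_eq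
  intro N
  rw [QuotientGroup.mk_mul, mk_ppow, mk_ppow, mk_ppow, ← pow_add]
  exact pow_eq_of_modEq pow_card_eq_one' (res_add a b (pcard N))

lemma ppow_conj (g h : G) (a : Zhat) : ppow (h * g * h⁻¹) a = h * ppow g a * h⁻¹ := by
  symm
  rw [eq_ppow_iff]
  intro N
  rw [QuotientGroup.mk_mul, QuotientGroup.mk_mul, QuotientGroup.mk_mul, QuotientGroup.mk_mul,
    mk_ppow, QuotientGroup.mk_inv, conj_pow]

lemma ppow_inv (g : G) (a : Zhat) : ppow g⁻¹ a = (ppow g a)⁻¹ := by
  symm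
  rw [eq_ppow_iff]
  intro N
  rw [QuotientGroup.mk_inv, QuotientGroup.mk_inv, mk_ppow, inv_pow]

/-- In a finite (discrete) group the profinite power is an ordinary power. -/
lemma ppow_eq_pow {H : Type} [Group H] [TopologicalSpace H] [DiscreteTopology H]
    (g : H) (a : Zhat) (n : ℕ+) (hn : g ^ (n : ℕ) = 1) : ppow g a = g ^ res a n := by
  have h1 : Tendsto (fun k : ℕ => g ^ res a ⟨k.factorial, k.factorial_pos⟩) atTop
      (𝓝 (g ^ res a n)) := by
    apply tendsto_const_nhds.congr'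
    filter_upwards [eventually_ge_atTop (n : ℕ)] with k hk
    symm
    exact pow_res_eq g a (Nat.dvd_factorial n.pos hk) hn
  exact h1.limUnder_eq

end profinite2


section

variable (Γ : Type) [Group Γ]

instance : IsTopologicalGroup (PC Γ) :=
  inferInstanceAs (IsTopologicalGroup
    (ProfiniteGrp.ProfiniteCompletion.completion (GrpCat.of Γ)))

instance : CompactSpace (PC Γ) :=
  inferInstanceAs (CompactSpace (ProfiniteGrp.ProfiniteCompletion.completion (GrpCat.of Γ)))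

instance : TotallyDisconnectedSpace (PC Γ) :=
  inferInstanceAs (TotallyDisconnectedSpace
    (ProfiniteGrp.ProfiniteCompletion.completion (GrpCat.of Γ)))

lemma denseRange_eta : DenseRange (eta Γ) :=
  ProfiniteGrp.ProfiniteCompletion.denseRange (GrpCat.of Γ)

end

lemma exists_lift {Γ : Type} [Group Γ] {Q : Type} [Group Q] [TopologicalSpace Q]
    [IsTopologicalGroup Q] [CompactSpace Q] [TotallyDisconnectedSpace Q] (f : Γ →* Q) :
    ∃ φ : PC Γ →ₜ* Q, ∀ g, φ (eta Γ g) = f g := by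
  refine ⟨(ProfiniteGrp.ProfiniteCompletion.lift (P := ProfiniteGrp.of Q)
    (GrpCat.ofHom f)).hom, fun g => ?_⟩
  have h := ProfiniteGrp.ProfiniteCompletion.lift_eta (P := ProfiniteGrp.of Q) (GrpCat.ofHom f)
  exact ConcreteCategory.congr_hom h g

lemma hom_ext {Γ : Type} [Group Γ] {Q : Type} [Group Q] [TopologicalSpace Q] [T2Space Q]
    {φ ψ : PC Γ →ₜ* Q} (h : ∀ g, φ (eta Γ g) = ψ (eta Γ g)) : φ = ψ := by
  ext a
  have := (denseRange_eta Γ).equalizer φ.continuous_toFun ψ.continuous_toFun (funext h)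
  exact congrFun this a


/-! ### continuous homomorphisms to finite groups, recorded by openness of the kernel -/

section finite

variable {G : Type} [Group G] [TopologicalSpace G] [IsTopologicalGroup G]
variable {H : Type} [Group H]

lemma continuous_of_isOpen_ker [TopologicalSpace H] (ρ : G →* H)
    (h : IsOpen (ρ.ker : Set G)) : Continuous ρ := by
  apply continuous_def.2
  intro s _
  rw [isOpen_iff_mem_nhds]
  intro a ha
  have h1 : (fun b => a⁻¹ * b) ⁻¹' (ρ.ker : Set G) ∈ 𝓝 a := by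
    apply (h.preimage (continuous_const_mul _)).mem_nhds
    show a⁻¹ * a ∈ ρ.ker
    rw [inv_mul_cancel]
    exact one_mem _
  filter_upwards [h1] with b hb
  have h2 : ρ (a⁻¹ * b) = 1 := hb
  rw [map_mul, map_inv, inv_mul_eq_one] at h2
  show ρ b ∈ s
  rw [← h2]
  exact ha

lemma isOpen_ker_of_continuous [TopologicalSpace H] [DiscreteTopology H] (ρ : G →* H)
    (h : Continuous ρ) : IsOpen (ρ.ker : Set G) := by
  have : (ρ.ker : Set G) = ρ ⁻¹' {1} := by
    ext a
    simp [MonoidHom.mem_ker]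
  rw [this]
  exact (isOpen_discrete _).preimage h

lemma isOpen_ker_prod {H' : Type} [Group H'] (ρ : G →* H) (ρ' : G →* H')
    (h : IsOpen (ρ.ker : Set G)) (h' : IsOpen (ρ'.ker : Set G)) :
    IsOpen ((ρ.prod ρ').ker : Set G) := by
  have : ((ρ.prod ρ').ker : Set G) = (ρ.ker : Set G) ∩ ρ'.ker := by
    ext a
    simp [MonoidHom.mem_ker, Prod.ext_iff]
  rw [this]
  exact h.inter h'

lemma fin_ppow [CompactSpace G] [TotallyDisconnectedSpace G] [Finite H] (ρ : G →* H)
    (h : IsOpen (ρ.ker : Set G)) (g : G) (l : Zhat) (n : ℕ+) (hn : ρ g ^ (n : ℕ) = 1) :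
    ρ (ppow g l) = ρ g ^ res l n := by
  let _ : TopologicalSpace H := ⊥
  have : DiscreteTopology H := ⟨rfl⟩
  let φ : G →ₜ* H := ⟨ρ, continuous_of_isOpen_ker ρ h⟩
  have h1 := map_ppow φ g l
  rw [ppow_eq_pow (φ g) l n hn] at h1
  exact h1

end finite

section PCfinite

variable {Γ : Type} [Group Γ]

lemma exists_lift_finite {H : Type} [Group H] [Finite H] (f : Γ →* H) :
    ∃ ρ : PC Γ →* H, (∀ g, ρ (eta Γ g) = f g) ∧ IsOpen (ρ.ker : Set (PC Γ)) := by
  let _ : TopologicalSpace H := ⊥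
  have : DiscreteTopology H := ⟨rfl⟩
  obtain ⟨φ, hφ⟩ := exists_lift f
  exact ⟨φ.toMonoidHom, hφ, isOpen_ker_of_continuous _ φ.continuous_toFun⟩

lemma exists_approx {H : Type} [Group H] (ρ : PC Γ →* H) (h : IsOpen (ρ.ker : Set (PC Γ)))
    (a : PC Γ) : ∃ g : Γ, ρ (eta Γ g) = ρ a := by
  have h1 : (fun b => a⁻¹ * b) ⁻¹' (ρ.ker : Set (PC Γ)) ∈ 𝓝 a := by
    apply (h.preimage (continuous_const_mul _)).mem_nhds
    show a⁻¹ * a ∈ ρ.ker
    rw [inv_mul_cancel]
    exact one_mem _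
  obtain ⟨b, ⟨g, rfl⟩, hb⟩ := (denseRange_eta Γ).inter_nhds_nonempty h1
  refine ⟨g, ?_⟩
  have h2 : ρ (a⁻¹ * eta Γ g) = 1 := hb
  rw [map_mul, map_inv, inv_mul_eq_one] at h2
  exact h2.symm

lemma hom_ext_finite {H : Type} [Group H] {ρ ρ' : PC Γ →* H} (h : IsOpen (ρ.ker : Set (PC Γ)))
    (h' : IsOpen (ρ'.ker : Set (PC Γ))) (he : ∀ g, ρ (eta Γ g) = ρ' (eta Γ g)) : ρ = ρ' := by
  ext a
  obtain ⟨g, hg⟩ := exists_approx (ρ.prod ρ') (isOpen_ker_prod ρ ρ' h h') a
  rw [MonoidHom.prod_apply, MonoidHom.prod_apply, Prod.mk.injEq] at hg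
  rw [← hg.1, ← hg.2, he]

end PCfinite

end Pool.Agent.Helper75.Basic
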