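import Mathlib
import Pool.Agent.Helper75.Defs

open CategoryTheory

namespace Pool.Agent.Helper75.F2Defs

open Pool.Agent.Helper75.Defs

/-- The free profinite group on two generators: the profinite completion of the free group
on two letters. -/
abbrev F2 : Type := PC (FreeGroup (Fin 2))

/-- The first generator `x`. -/
def X : F2 := eta (FreeGroup (Fin 2)) (FreeGroup.of 0)

/-- The second generator `y`. -/
def Y : F2 := eta (FreeGroup (Fin 2)) (FreeGroup.of 1)

/-- The element `z` with `x y z = 1`. -/
def Z : F2 := (X * Y)⁻¹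

/-- The closed derived subgroup: the set of elements in the closure of the subgroup generated by
commutators. -/
def derived : Set F2 := closure (commutator F2 : Set F2)

/-- The continuous endomorphism of the free profinite group with `x ↦ a`, `y ↦ b`, given by the
universal property; for `f` in the group, `ev a b f` is `f(a, b)`. -/
noncomputable def ev (a b : F2) : F2 →ₜ* F2 :=
  (ProfiniteGrp.ProfiniteCompletion.lift
    (P := ProfiniteGrp.ProfiniteCompletion.completion (GrpCat.of (FreeGroup (Fin 2))))
    (GrpCat.ofHom (FreeGroup.lift ![a, b]))).hom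

/-- Relation (I): `f(x,y) f(y,x) = 1`. -/
def RelI (f : F2) : Prop := f * ev Y X f = 1

/-- Relation (II): `f(z,x) z^m f(y,z) y^m f(x,y) x^m = 1`, where `x y z = 1`. -/
def RelII (m : Zhat) (f : F2) : Prop :=
  ev Z X f * ppow Z m * ev Y Z f * ppow Y m * f * ppow X m = 1

/-- `φ` is the endomorphism `x ↦ x ^ l`, `y ↦ f⁻¹ y ^ l f`. -/
def IsPhi (l : Zhat) (f : F2) (φ : F2 →ₜ* F2) : Prop :=
  φ X = ppow X l ∧ φ Y = f⁻¹ * ppow Y l * f

end Pool.Agent.Helper75.F2Defs
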