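import Mathlib
import Pool.Agent.Helper75.Defs
import Pool.Agent.Helper75.F2Defs
import Pool.Agent.Helper75.Basic

open CategoryTheory Filter Topology

namespace Pool.Agent.Helper75.F2Lemmas

open Pool.Agent.Helper75.Defs Pool.Agent.Helper75.F2Defs Pool.Agent.Helper75.Basic

lemma eta_zero : eta (FreeGroup (Fin 2)) (FreeGroup.of 0) = X := rfl
lemma eta_one : eta (FreeGroup (Fin 2)) (FreeGroup.of 1) = Y := rfl

lemma eta_lift (a b : F2) (g : FreeGroup (Fin 2)) :
    ev a b (eta _ g) = FreeGroup.lift ![a, b] g := by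
  have h := ProfiniteGrp.ProfiniteCompletion.lift_eta
    (P := ProfiniteGrp.ProfiniteCompletion.completion (GrpCat.of (FreeGroup (Fin 2))))
    (GrpCat.ofHom (FreeGroup.lift ![a, b]))
  exact ConcreteCategory.congr_hom h g

lemma ev_X (a b : F2) : ev a b X = a := by
  rw [← eta_zero, eta_lift, FreeGroup.lift_apply_of]
  rfl

lemma ev_Y (a b : F2) : ev a b Y = b := by
  rw [← eta_one, eta_lift, FreeGroup.lift_apply_of]
  rfl

lemma hom_ext_XY {Q : Type} [Group Q] [TopologicalSpace Q] [T2Space Q]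
    {φ ψ : F2 →ₜ* Q} (hX : φ X = ψ X) (hY : φ Y = ψ Y) : φ = ψ := by
  apply hom_ext
  intro g
  have : (φ.toMonoidHom.comp (eta _)) = (ψ.toMonoidHom.comp (eta _)) := by
    apply FreeGroup.ext_hom
    intro i
    fin_cases i
    · exact hX
    · exact hY
  exact DFunLike.congr_fun this g

lemma hom_ext_XY_finite {H : Type} [Group H] {ρ ρ' : F2 →* H} (h : IsOpen (ρ.ker : Set F2))
    (h' : IsOpen (ρ'.ker : Set F2)) (hX : ρ X = ρ' X) (hY : ρ Y = ρ' Y) : ρ = ρ' := by
  apply hom_ext_finite h h'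
  intro g
  have : (ρ.comp (eta _)) = (ρ'.comp (eta _)) := by
    apply FreeGroup.ext_hom
    intro i
    fin_cases i
    · exact hX
    · exact hY
  exact DFunLike.congr_fun this g

lemma exists_finite_XY {H : Type} [Group H] [Finite H] (a b : H) :
    ∃ ρ : F2 →* H, ρ X = a ∧ ρ Y = b ∧ IsOpen (ρ.ker : Set F2) := by
  obtain ⟨ρ, hρ, ho⟩ := exists_lift_finite (FreeGroup.lift ![a, b])
  refine ⟨ρ, ?_, ?_, ho⟩
  · rw [← eta_zero, hρ, FreeGroup.lift_apply_of]
    rfl
  · rw [← eta_one, hρ, FreeGroup.lift_apply_of]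
    rfl

/-- Any property of elements stable under products and inverses, satisfied by the images of the
generators, holds on the image of a homomorphism with open kernel. -/
lemma mem_of_gen {H : Type} [Group H] (ρ : F2 →* H) (h : IsOpen (ρ.ker : Set F2))
    (S : Subgroup H) (hX : ρ X ∈ S) (hY : ρ Y ∈ S) (g : F2) : ρ g ∈ S := by
  obtain ⟨w, hw⟩ := exists_approx ρ h g
  rw [← hw]
  have h1 : w ∈ S.comap (ρ.comp (eta _)) := by
    have h2 : Subgroup.closure (Set.range (FreeGroup.of : Fin 2 → _)) ≤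
        S.comap (ρ.comp (eta _)) := by
      rw [Subgroup.closure_le]
      rintro _ ⟨i, rfl⟩
      fin_cases i
      · exact hX
      · exact hY
    apply h2
    rw [FreeGroup.closure_range_of]
    trivial
  exact h1

lemma res_unit_coprime (l : Zhatˣ) (n : ℕ+) : Nat.Coprime (res (l : Zhat) n) n := by
  have h := res_mul (l : Zhat) ((l⁻¹ : Zhatˣ) : Zhat) n
  rw [Units.mul_inv] at h
  have h2 := h.symm.trans (res_one n)
  have h3 : Nat.gcd (res (l : Zhat) n * res ((l⁻¹ : Zhatˣ) : Zhat) n) n = 1 := by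
    rw [h2.gcd_eq]
    simp
  exact Nat.Coprime.coprime_mul_right h3

end Pool.Agent.Helper75.F2Lemmas
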