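import Mathlib
import Pool.Agent.Helper75.Defs
import Pool.Agent.Helper75.F2Defs
import Pool.Agent.Helper75.Basic
import Pool.Agent.Helper75.F2Lemmas

open CategoryTheory Filter Topology

namespace Pool.Agent.Helper75.Rigid

open Pool.Agent.Helper75.Defs Pool.Agent.Helper75.F2Defs Pool.Agent.Helper75.Basic
  Pool.Agent.Helper75.F2Lemmas

/-- The wreath product of `ZMod 2` with the symmetric group of `Ω`. -/
@[ext] structure Wr (Ω : Type) where
  c : Ω → ZMod 2
  p : Equiv.Perm Ω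

namespace Wr

variable {Ω : Type}

lemma perm_inv_apply (p : Equiv.Perm Ω) (w : Ω) : p⁻¹ (p w) = w := by
  rw [← Equiv.Perm.mul_apply, inv_mul_cancel, Equiv.Perm.one_apply]

instance : Mul (Wr Ω) := ⟨fun a b => ⟨fun w => a.c (b.p w) + b.c w, a.p * b.p⟩⟩
instance : One (Wr Ω) := ⟨⟨fun _ => 0, 1⟩⟩
instance : Inv (Wr Ω) := ⟨fun a => ⟨fun w => -(a.c (a.p⁻¹ w)), a.p⁻¹⟩⟩

lemma mul_c (a b : Wr Ω) (w : Ω) : (a * b).c w = a.c (b.p w) + b.c w := rfl
lemma mul_p (a b : Wr Ω) : (a * b).p = a.p * b.p := rfl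
lemma one_c (w : Ω) : (1 : Wr Ω).c w = 0 := rfl
lemma one_p : (1 : Wr Ω).p = 1 := rfl
lemma inv_c (a : Wr Ω) (w : Ω) : (a⁻¹).c w = -(a.c (a.p⁻¹ w)) := rfl
lemma inv_p (a : Wr Ω) : (a⁻¹).p = a.p⁻¹ := rfl

instance : Group (Wr Ω) :=
  Group.ofLeftAxioms
    (by
      intro a b c
      ext w
      · simp only [mul_c, mul_p, Equiv.Perm.mul_apply, add_assoc]
      · rfl)
    (by
      intro a
      ext w
      · simp only [mul_c, one_c, zero_add]
      · rfl)
    (by
      intro a
      ext w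
      · simp only [mul_c, inv_c, one_c]
        rw [perm_inv_apply, neg_add_cancel]
      · simp only [mul_p, inv_p, one_p, inv_mul_cancel])

instance [Finite Ω] : Finite (Wr Ω) := by
  have h : Function.Injective (fun a : Wr Ω => (a.c, a.p)) := by
    intro a b hab
    rw [Prod.mk.injEq] at hab
    exact Wr.ext hab.1 hab.2
  exact Finite.of_injective _ h

/-- projection to the permutation -/
def pHom : Wr Ω →* Equiv.Perm Ω where
  toFun a := a.p
  map_one' := rfl
  map_mul' _ _ := rfl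

lemma conj_c (u a : Wr Ω) (w : Ω) (h : a.p w = w) : (u * a * u⁻¹).c (u.p w) = a.c w := by
  simp only [mul_c, inv_p, inv_c]
  rw [perm_inv_apply, h]
  ring

lemma pow_p (a : Wr Ω) (w : Ω) (h : a.p w = w) (k : ℕ) : (a ^ k).p w = w := by
  induction k with
  | zero => rfl
  | succ n ih =>
    rw [pow_succ, mul_p, Equiv.Perm.mul_apply, h, ih]

lemma pow_c (a : Wr Ω) (w : Ω) (h : a.p w = w) (k : ℕ) : (a ^ k).c w = k * a.c w := by
  induction k with
  | zero => simp [one_c]
  | succ n ih =>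
    rw [pow_succ, mul_c, h, ih]
    push_cast
    ring

end Wr

lemma isOpen_ker_toPermHom {G : Type} [Group G] [TopologicalSpace G] [IsTopologicalGroup G]
    [CompactSpace G] [TotallyDisconnectedSpace G] (M : Subgroup G) (hM : IsOpen (M : Set G)) :
    IsOpen ((MulAction.toPermHom G (G ⧸ M)).ker : Set G) := by
  obtain ⟨N, hN⟩ := ProfiniteGrp.exist_openNormalSubgroup_sub_open_nhds_of_one hM (one_mem M)
  apply Subgroup.isOpen_mono (H₁ := N.toSubgroup) _ N.isOpen'
  intro n hn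
  rw [MonoidHom.mem_ker]
  ext a
  induction a using QuotientGroup.induction_on with
  | H g =>
    show (QuotientGroup.mk (n * g) : G ⧸ M) = QuotientGroup.mk g
    apply QuotientGroup.eq.2
    apply hN
    show (n * g)⁻¹ * g ∈ N.toSubgroup
    have h1 := N.isNormal'.conj_mem n⁻¹ (inv_mem hn) g⁻¹
    have h2 : (n * g)⁻¹ * g = g⁻¹ * n⁻¹ * g⁻¹⁻¹ := by group
    rw [h2]
    exact h1

lemma ppow_mem {G : Type} [Group G] [TopologicalSpace G] [IsTopologicalGroup G]
    [CompactSpace G] [TotallyDisconnectedSpace G] (M : Subgroup G) (hM : IsClosed (M : Set G))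
    {g : G} (hg : g ∈ M) (l : Zhat) : ppow g l ∈ M :=
  hM.mem_of_tendsto (tendsto_ppow g l) (Filter.Eventually.of_forall fun _ => pow_mem hg _)

lemma mem_of_ppow_mem {G : Type} [Group G] [TopologicalSpace G] [IsTopologicalGroup G]
    [CompactSpace G] [TotallyDisconnectedSpace G] (M : Subgroup G) (hM : IsClosed (M : Set G))
    {g : G} (l : Zhatˣ) (hg : ppow g (l : Zhat) ∈ M) : g ∈ M := by
  have h := ppow_mem M hM hg ((l⁻¹ : Zhatˣ) : Zhat)
  rwa [← Basic.ppow_mul, Units.mul_inv, Basic.ppow_one] at h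

/-- An endomorphism of the free profinite group on `x, y` which raises the conjugacy classes of
`x`, `y` and `x y` to the power `l` (a unit) is surjective. -/
theorem surjective_of_conj (φ : F2 →ₜ* F2) (l : Zhatˣ) (u v w : F2)
    (hX : φ X = u * ppow X l * u⁻¹) (hY : φ Y = v * ppow Y l * v⁻¹)
    (hXY : φ (X * Y) = w * ppow (X * Y) l * w⁻¹) : Function.Surjective φ := by
  classical
  by_contra hns
  -- a proper open subgroup containing the image
  obtain ⟨M, hMo, hMr, hMt⟩ : ∃ M : Subgroup F2, IsOpen (M : Set F2) ∧ (∀ g, φ g ∈ M) ∧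
      M ≠ ⊤ := by
    have hcl : IsClosed (φ.toMonoidHom.range : Set F2) := by
      have : (φ.toMonoidHom.range : Set F2) = Set.range φ := rfl
      rw [this]
      exact (isCompact_range φ.continuous_toFun).isClosed
    let R : ClosedSubgroup F2 := ⟨φ.toMonoidHom.range, hcl⟩
    have h1 := ProfiniteGrp.closedSubgroup_eq_sInf_open R
    by_contra hcon
    push Not at hcon
    apply hns
    intro g
    have h2 : g ∈ (R : Subgroup F2) := by
      rw [h1, Subgroup.mem_sInf]
      rintro N ⟨hNo, hNr⟩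
      have h3 := hcon N hNo (fun a => hNr ⟨a, rfl⟩)
      rw [h3]
      trivial
    exact h2
  have hMc : IsClosed (M : Set F2) := Subgroup.isClosed_of_isOpen M hMo
  let Ω := F2 ⧸ M
  have hfin : Finite Ω := by
    have : DiscreteTopology (F2 ⧸ M) := QuotientGroup.discreteTopology hMo
    exact finite_of_compact_of_discrete
  let P : F2 →* Equiv.Perm Ω := MulAction.toPermHom F2 (F2 ⧸ M)
  have hPo : IsOpen (P.ker : Set F2) := isOpen_ker_toPermHom M hMo
  have hP : ∀ g h : F2, P g (QuotientGroup.mk h : F2 ⧸ M) = (QuotientGroup.mk (g * h) : F2 ⧸ M) :=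
    fun _ _ => rfl
  let o : Ω := (QuotientGroup.mk (1 : F2) : F2 ⧸ M)
  have hfix : ∀ g a : F2, g * a * g⁻¹ ∈ M → P a (QuotientGroup.mk g⁻¹ : F2 ⧸ M) =
      (QuotientGroup.mk g⁻¹ : F2 ⧸ M) := by
    intro g a h
    rw [hP]
    symm
    apply QuotientGroup.eq.2
    rw [inv_inv, ← mul_assoc]
    exact h
  have hXu : u * X * u⁻¹ ∈ M := by
    apply mem_of_ppow_mem M hMc l
    rw [ppow_conj, ← hX]
    exact hMr _
  have hYv : v * Y * v⁻¹ ∈ M := by
    apply mem_of_ppow_mem M hMc l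
    rw [ppow_conj, ← hY]
    exact hMr _
  have hXYw : w * (X * Y) * w⁻¹ ∈ M := by
    apply mem_of_ppow_mem M hMc l
    rw [ppow_conj, ← hXY]
    exact hMr _
  let ox : Ω := (QuotientGroup.mk u⁻¹ : F2 ⧸ M)
  let oy : Ω := (QuotientGroup.mk v⁻¹ : F2 ⧸ M)
  let oz : Ω := (QuotientGroup.mk w⁻¹ : F2 ⧸ M)
  have hox : P X ox = ox := hfix _ _ hXu
  have hoy : P Y oy = oy := hfix _ _ hYv
  have hoz : P (X * Y) oz = oz := hfix _ _ hXYw
  obtain ⟨ρ, hρX, hρY, hρo⟩ := exists_finite_XY (H := Wr Ω) ⟨fun a => if a = ox then 1 else 0, P X⟩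
    ⟨fun _ => 0, P Y⟩
  have hρP : Wr.pHom.comp ρ = P := by
    apply hom_ext_XY_finite _ hPo
    · show (ρ X).p = _
      rw [hρX]
    · show (ρ Y).p = _
      rw [hρY]
    · apply Subgroup.isOpen_mono (H₁ := ρ.ker) _ hρo
      intro g hg
      rw [MonoidHom.mem_ker] at hg ⊢
      show Wr.pHom (ρ g) = 1
      rw [hg, map_one]
  have hρp : ∀ g : F2, (ρ g).p = P g := fun g => DFunLike.congr_fun hρP g
  -- common exponent
  let n : ℕ+ := ⟨2 * Nat.card (Wr Ω), by
    have : 0 < Nat.card (Wr Ω) := Nat.card_pos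
    omega⟩
  have hn : ∀ a : Wr Ω, a ^ (n : ℕ) = 1 := by
    intro a
    show a ^ (2 * Nat.card (Wr Ω)) = 1
    rw [mul_comm, pow_mul, pow_card_eq_one', one_pow]
  set k := res (l : Zhat) n with hk
  have hkodd : ((k : ℕ) : ZMod 2) = 1 := by
    have h1 := res_unit_coprime l n
    have h2 : Nat.Coprime k 2 := Nat.Coprime.coprime_dvd_right ⟨_, rfl⟩ h1
    have h3 : Odd k := Nat.coprime_two_right.1 h2
    exact ZMod.natCast_eq_one_iff_odd.2 h3
  have hA : ρ (φ X) = ρ u * ρ X ^ k * (ρ u)⁻¹ := by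
    rw [hX, map_mul, map_mul, map_inv, fin_ppow ρ hρo X l n (hn _)]
  have hB : ρ (φ Y) = ρ v * ρ Y ^ k * (ρ v)⁻¹ := by
    rw [hY, map_mul, map_mul, map_inv, fin_ppow ρ hρo Y l n (hn _)]
  have hC : ρ (φ (X * Y)) = ρ w * ρ (X * Y) ^ k * (ρ w)⁻¹ := by
    rw [hXY, map_mul, map_mul, map_inv, fin_ppow ρ hρo (X * Y) l n (hn _)]
  have hou : (ρ u).p ox = o := by
    rw [hρp, hP, mul_inv_cancel]
  have hov : (ρ v).p oy = o := by
    rw [hρp, hP, mul_inv_cancel]
  have how : (ρ w).p oz = o := by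
    rw [hρp, hP, mul_inv_cancel]
  have hcA : (ρ (φ X)).c o = 1 := by
    rw [hA, ← hou, Wr.conj_c _ _ _ (Wr.pow_p _ _ (by rw [hρp]; exact hox) _),
      Wr.pow_c _ _ (by rw [hρp]; exact hox), hkodd, hρX]
    simp
  have hcB : (ρ (φ Y)).c o = 0 := by
    rw [hB, ← hov, Wr.conj_c _ _ _ (Wr.pow_p _ _ (by rw [hρp]; exact hoy) _),
      Wr.pow_c _ _ (by rw [hρp]; exact hoy), hkodd, hρY]
    simp
  have hcC : (ρ (φ (X * Y))).c o = if P Y oz = ox then 1 else 0 := by
    rw [hC, ← how, Wr.conj_c _ _ _ (Wr.pow_p _ _ (by rw [hρp]; exact hoz) _),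
      Wr.pow_c _ _ (by rw [hρp]; exact hoz), hkodd, map_mul, Wr.mul_c, hρX, hρY]
    simp
  have hBo : (ρ (φ Y)).p o = o := by
    rw [hρp, hP, mul_one]
    symm
    apply QuotientGroup.eq.2
    rw [inv_one, one_mul]
    exact hMr _
  have hsum : (ρ (φ (X * Y))).c o = (ρ (φ X)).c o + (ρ (φ Y)).c o := by
    rw [map_mul, map_mul, Wr.mul_c, hBo]
  rw [hcA, hcB, hcC] at hsum
  have hz : P Y oz = ox := by
    by_contra hne
    rw [if_neg hne] at hsum
    revert hsum
    decide
  have hzx : oz = ox := by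
    rw [map_mul, Equiv.Perm.mul_apply, hz, hox] at hoz
    exact hoz.symm
  have hYox : P Y ox = ox := by
    rw [hzx] at hz
    exact hz
  -- everything fixes ox
  have hall : ∀ g : F2, P g ∈ MulAction.stabilizer (Equiv.Perm Ω) ox := by
    intro g
    apply mem_of_gen P hPo
    · exact hox
    · exact hYox
  apply hMt
  rw [eq_top_iff]
  intro g _
  have h1 : P (u⁻¹ * g * u) ox = ox := hall _
  rw [hP] at h1
  have h2 := QuotientGroup.eq.1 h1.symm
  have h3 : u⁻¹⁻¹ * (u⁻¹ * g * u * u⁻¹) = g := by group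
  rw [h3] at h2
  exact h2

/-- Surjective continuous endomorphisms of the free profinite group on two generators are
injective. -/
theorem injective_of_surjective (φ : F2 →ₜ* F2) (hs : Function.Surjective φ) :
    Function.Injective φ := by
  rw [injective_iff_map_eq_one]
  intro g hg
  apply eq_of_forall_mk_eq
  intro N
  let Q := F2 ⧸ N.toSubgroup
  have hQ : Finite Q := inferInstance
  have hex : ∀ p : Q × Q, ∃ ρ : F2 →* Q, ρ X = p.1 ∧ ρ Y = p.2 ∧ IsOpen (ρ.ker : Set F2) :=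
    fun p => exists_finite_XY p.1 p.2
  choose R hRX hRY hRo using hex
  have hopen : ∀ p, IsOpen (((R p).comp φ.toMonoidHom).ker : Set F2) := by
    intro p
    have : (((R p).comp φ.toMonoidHom).ker : Set F2) = φ ⁻¹' ((R p).ker : Set F2) := rfl
    rw [this]
    exact (hRo p).preimage φ.continuous_toFun
  let T : Q × Q → Q × Q := fun p => (R p (φ X), R p (φ Y))
  have hT : Function.Injective T := by
    intro p q hpq
    have h1 : R p (φ X) = R q (φ X) := congrArg Prod.fst hpq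
    have h2 : R p (φ Y) = R q (φ Y) := congrArg Prod.snd hpq
    have h3 : (R p).comp φ.toMonoidHom = (R q).comp φ.toMonoidHom :=
      hom_ext_XY_finite (hopen p) (hopen q) h1 h2
    have h4 : ∀ a, R p a = R q a := by
      intro a
      obtain ⟨b, rfl⟩ := hs a
      exact DFunLike.congr_fun h3 b
    exact Prod.ext (by rw [← hRX p, ← hRX q, h4]) (by rw [← hRY p, ← hRY q, h4])
  have hTs : Function.Surjective T := Finite.surjective_of_injective hT
  obtain ⟨p, hp⟩ := hTs (QuotientGroup.mk X, QuotientGroup.mk Y)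
  have h5 : (R p).comp φ.toMonoidHom = QuotientGroup.mk' N.toSubgroup := by
    apply hom_ext_XY_finite (hopen p)
    · rw [QuotientGroup.ker_mk']
      exact N.isOpen'
    · exact congrArg Prod.fst hp
    · exact congrArg Prod.snd hp
  have h6 : QuotientGroup.mk' N.toSubgroup g = R p (φ g) := (DFunLike.congr_fun h5 g).symm
  rw [hg, map_one] at h6
  exact h6

end Pool.Agent.Helper75.Rigid
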