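import Mathlib
import Pool.Agent.Helper75.Defs
import Pool.Agent.Helper75.F2Defs
import Pool.Agent.Helper75.Basic
import Pool.Agent.Helper75.F2Lemmas
import Pool.Agent.Helper75.Rigid

/-! Fox calculus with values in a commutative ring, via the Magnus group. -/

namespace Pool.Agent.Helper75.Fox

open Pool.Agent.Helper75.Defs Pool.Agent.Helper75.F2Defs Pool.Agent.Helper75.Basic
  Pool.Agent.Helper75.F2Lemmas Pool.Agent.Helper75.Rigid

/-- The group of affine maps with two-dimensional translation part. -/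
@[ext] structure Mag (R : Type) [CommRing R] where
  a : R
  b : R
  t : Rˣ

namespace Mag

variable {R : Type} [CommRing R]

instance : Mul (Mag R) := ⟨fun p q => ⟨p.a + p.t * q.a, p.b + p.t * q.b, p.t * q.t⟩⟩
instance : One (Mag R) := ⟨⟨0, 0, 1⟩⟩
instance : Inv (Mag R) := ⟨fun p => ⟨-(↑p.t⁻¹ * p.a), -(↑p.t⁻¹ * p.b), p.t⁻¹⟩⟩

lemma mul_a (p q : Mag R) : (p * q).a = p.a + p.t * q.a := rfl
lemma mul_b (p q : Mag R) : (p * q).b = p.b + p.t * q.b := rfl
lemma mul_t (p q : Mag R) : (p * q).t = p.t * q.t := rfl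
lemma one_a : (1 : Mag R).a = 0 := rfl
lemma one_b : (1 : Mag R).b = 0 := rfl
lemma one_t : (1 : Mag R).t = 1 := rfl
lemma inv_a (p : Mag R) : (p⁻¹).a = -(↑p.t⁻¹ * p.a) := rfl
lemma inv_b (p : Mag R) : (p⁻¹).b = -(↑p.t⁻¹ * p.b) := rfl
lemma inv_t (p : Mag R) : (p⁻¹).t = p.t⁻¹ := rfl

instance : Group (Mag R) :=
  Group.ofLeftAxioms
    (by
      intro p q r
      ext
      · simp only [mul_a, mul_t, Units.val_mul]; ring
      · simp only [mul_b, mul_t, Units.val_mul]; ring
      · simp only [mul_t, Units.val_mul]; ring)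
    (by
      intro p
      ext
      · simp only [mul_a, one_a, one_t, Units.val_one]; ring
      · simp only [mul_b, one_b, one_t, Units.val_one]; ring
      · simp only [mul_t, one_t, Units.val_mul, Units.val_one]; ring)
    (by
      intro p
      ext
      · simp only [mul_a, inv_a, inv_t, one_a]; ring
      · simp only [mul_b, inv_b, inv_t, one_b]; ring
      · simp only [mul_t, inv_t, one_t, inv_mul_cancel])

instance [Finite R] : Finite (Mag R) := by
  have h : Function.Injective (fun p : Mag R => (p.a, p.b, p.t)) := by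
    intro p q hpq
    simp only [Prod.mk.injEq] at hpq
    exact Mag.ext hpq.1 hpq.2.1 (by rw [hpq.2.2])
  exact Finite.of_injective _ h

/-- projection to the unit -/
def tHom : Mag R →* Rˣ where
  toFun p := p.t
  map_one' := rfl
  map_mul' _ _ := rfl

/-- functoriality -/
def map {S : Type} [CommRing S] (f : R →+* S) : Mag R →* Mag S where
  toFun p := ⟨f p.a, f p.b, Units.map (f : R →* S) p.t⟩
  map_one' := by
    ext
    · exact map_zero f
    · exact map_zero f
    · simp [one_t]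
  map_mul' p q := by
    ext
    · simp only [mul_a, map_add, map_mul]; rfl
    · simp only [mul_b, map_add, map_mul]; rfl
    · simp only [mul_t, map_mul]

/-- the fundamental formula as a subgroup -/
def fund (t1 t2 : Rˣ) : Subgroup (Mag R) where
  carrier := {p | (1 - (t1 : R)) * p.a + (1 - (t2 : R)) * p.b = 1 - (p.t : R)}
  mul_mem' := by
    intro p q hp hq
    simp only [Set.mem_ofPred_eq] at hp hq ⊢
    simp only [mul_a, mul_b, mul_t, Units.val_mul]
    linear_combination hp + (p.t : R) * hq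
  one_mem' := by
    simp only [Set.mem_ofPred_eq, one_a, one_b, one_t, Units.val_one]
    ring
  inv_mem' := by
    intro p hp
    simp only [Set.mem_ofPred_eq] at hp ⊢
    simp only [inv_a, inv_b, inv_t]
    have h : (↑p.t⁻¹ : R) * p.t = 1 := Units.inv_mul _
    linear_combination (-(↑p.t⁻¹ : R)) * hp + h

/-- the linear change of variables attached to two elements -/
def lin (p q : Mag R) : Mag R →* Mag R where
  toFun r := ⟨r.a * p.a + r.b * q.a, r.a * p.b + r.b * q.b, r.t⟩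
  map_one' := by
    ext
    · simp only [one_a, one_b]; ring
    · simp only [one_a, one_b]; ring
    · rfl
  map_mul' r s := by
    ext
    · simp only [mul_a, mul_b]; ring
    · simp only [mul_a, mul_b]; ring
    · rfl

lemma pow_t (p : Mag R) (k : ℕ) : (p ^ k).t = p.t ^ k := by
  have := map_pow (tHom (R := R)) p k
  exact this

lemma pow_a (p : Mag R) (k : ℕ) : (p ^ k).a = (∑ j ∈ Finset.range k, (p.t : R) ^ j) * p.a := by
  induction k with
  | zero => simp [one_a]
  | succ n ih =>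
    rw [pow_succ, mul_a, ih, pow_t, Finset.sum_range_succ, Units.val_pow_eq_pow_val]
    ring

lemma pow_b (p : Mag R) (k : ℕ) : (p ^ k).b = (∑ j ∈ Finset.range k, (p.t : R) ^ j) * p.b := by
  induction k with
  | zero => simp [one_b]
  | succ n ih =>
    rw [pow_succ, mul_b, ih, pow_t, Finset.sum_range_succ, Units.val_pow_eq_pow_val]
    ring

/-- the determinant of two elements -/
def det (p q : Mag R) : R := p.a * q.b - p.b * q.a

lemma det_lin (p q r s : Mag R) : det (lin p q r) (lin p q s) = det r s * det p q := by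
  simp only [det, lin, MonoidHom.coe_mk, OneHom.coe_mk]
  ring

end Mag

open Mag

/-- the Magnus representation of the free group -/
def mag0 (R : Type) [CommRing R] (t1 t2 : Rˣ) : FreeGroup (Fin 2) →* Mag R :=
  FreeGroup.lift ![⟨1, 0, t1⟩, ⟨0, 1, t2⟩]

section

variable {R : Type} [CommRing R] (t1 t2 : Rˣ)

lemma mag0_X : mag0 R t1 t2 (FreeGroup.of 0) = ⟨1, 0, t1⟩ := by
  rw [mag0, FreeGroup.lift_apply_of]; rfl

lemma mag0_Y : mag0 R t1 t2 (FreeGroup.of 1) = ⟨0, 1, t2⟩ := by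
  rw [mag0, FreeGroup.lift_apply_of]; rfl

lemma mag0_map {S : Type} [CommRing S] (f : R →+* S) (w : FreeGroup (Fin 2)) :
    Mag.map f (mag0 R t1 t2 w) =
      mag0 S (Units.map (f : R →* S) t1) (Units.map (f : R →* S) t2) w := by
  have : (Mag.map f).comp (mag0 R t1 t2) =
      mag0 S (Units.map (f : R →* S) t1) (Units.map (f : R →* S) t2) := by
    apply FreeGroup.ext_hom
    intro i
    fin_cases i
    · show Mag.map f (mag0 R t1 t2 (FreeGroup.of 0)) = mag0 S _ _ (FreeGroup.of 0)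
      rw [mag0_X, mag0_X]
      ext
      · exact map_one f
      · exact map_zero f
      · rfl
    · show Mag.map f (mag0 R t1 t2 (FreeGroup.of 1)) = mag0 S _ _ (FreeGroup.of 1)
      rw [mag0_Y, mag0_Y]
      ext
      · exact map_zero f
      · exact map_one f
      · rfl
  exact DFunLike.congr_fun this w

lemma mag0_mem (S : Subgroup (Mag R)) (h1 : (⟨1, 0, t1⟩ : Mag R) ∈ S)
    (h2 : (⟨0, 1, t2⟩ : Mag R) ∈ S) (w : FreeGroup (Fin 2)) : mag0 R t1 t2 w ∈ S := by
  have h3 : Subgroup.closure (Set.range (FreeGroup.of : Fin 2 → _)) ≤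
      S.comap (mag0 R t1 t2) := by
    rw [Subgroup.closure_le]
    rintro _ ⟨i, rfl⟩
    fin_cases i
    · show mag0 R t1 t2 (FreeGroup.of 0) ∈ S
      rw [mag0_X]; exact h1
    · show mag0 R t1 t2 (FreeGroup.of 1) ∈ S
      rw [mag0_Y]; exact h2
  have h4 : w ∈ S.comap (mag0 R t1 t2) := by
    apply h3
    rw [FreeGroup.closure_range_of]
    trivial
  exact h4

lemma fund_X : (⟨1, 0, t1⟩ : Mag R) ∈ fund t1 t2 := by
  show (1 - (t1 : R)) * 1 + (1 - (t2 : R)) * 0 = 1 - (t1 : R)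
  ring

lemma fund_Y : (⟨0, 1, t2⟩ : Mag R) ∈ fund t1 t2 := by
  show (1 - (t1 : R)) * 0 + (1 - (t2 : R)) * 1 = 1 - (t2 : R)
  ring

lemma mag0_fund (w : FreeGroup (Fin 2)) : (1 - (t1 : R)) * (mag0 R t1 t2 w).a +
    (1 - (t2 : R)) * (mag0 R t1 t2 w).b = 1 - ((mag0 R t1 t2 w).t : R) :=
  mag0_mem t1 t2 (fund t1 t2) (fund_X t1 t2) (fund_Y t1 t2) w

variable [Finite R]

lemma exists_mag : ∃ ρ : F2 →* Mag R,
    (∀ g, ρ (eta _ g) = mag0 R t1 t2 g) ∧ IsOpen (ρ.ker : Set F2) :=
  exists_lift_finite (mag0 R t1 t2)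

/-- the Magnus representation of the free profinite group, for a finite ring -/
noncomputable def mag : F2 →* Mag R := (exists_mag t1 t2).choose

lemma mag_eta (g : FreeGroup (Fin 2)) : mag t1 t2 (eta _ g) = mag0 R t1 t2 g :=
  (exists_mag t1 t2).choose_spec.1 g

lemma mag_open : IsOpen ((mag t1 t2).ker : Set F2) := (exists_mag t1 t2).choose_spec.2

lemma mag_X : mag t1 t2 X = ⟨1, 0, t1⟩ := by
  rw [← eta_zero, mag_eta, mag0_X]

lemma mag_Y : mag t1 t2 Y = ⟨0, 1, t2⟩ := by
  rw [← eta_one, mag_eta, mag0_Y]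

lemma mag_fund (w : F2) : (1 - (t1 : R)) * (mag t1 t2 w).a +
    (1 - (t2 : R)) * (mag t1 t2 w).b = 1 - ((mag t1 t2 w).t : R) :=
  mem_of_gen (mag t1 t2) (mag_open t1 t2) (fund t1 t2) (by rw [mag_X]; exact fund_X t1 t2)
    (by rw [mag_Y]; exact fund_Y t1 t2) w

lemma comp_open {H : Type} [Group H] (ρ : F2 →* H) (h : IsOpen (ρ.ker : Set F2))
    (θ : F2 →ₜ* F2) : IsOpen ((ρ.comp θ.toMonoidHom).ker : Set F2) := by
  have : ((ρ.comp θ.toMonoidHom).ker : Set F2) = θ ⁻¹' (ρ.ker : Set F2) := rfl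
  rw [this]
  exact h.preimage θ.continuous_toFun

lemma chain (σ : F2 →* Mag R) (hσ : IsOpen (σ.ker : Set F2)) (w : F2) :
    σ w = lin (σ X) (σ Y) (mag (σ X).t (σ Y).t w) := by
  have : σ = (lin (σ X) (σ Y)).comp (mag (σ X).t (σ Y).t) := by
    apply hom_ext_XY_finite hσ
    · apply Subgroup.isOpen_mono (H₁ := (mag (σ X).t (σ Y).t).ker) _ (mag_open _ _)
      intro g hg
      rw [MonoidHom.mem_ker] at hg ⊢
      show lin (σ X) (σ Y) (mag (σ X).t (σ Y).t g) = 1
      rw [hg, map_one]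
    · show σ X = lin (σ X) (σ Y) (mag (σ X).t (σ Y).t X)
      rw [mag_X]
      ext
      · show (σ X).a = 1 * (σ X).a + 0 * (σ Y).a
        ring
      · show (σ X).b = 1 * (σ X).b + 0 * (σ Y).b
        ring
      · rfl
    · show σ Y = lin (σ X) (σ Y) (mag (σ X).t (σ Y).t Y)
      rw [mag_Y]
      ext
      · show (σ Y).a = 0 * (σ X).a + 1 * (σ Y).a
        ring
      · show (σ Y).b = 0 * (σ X).b + 1 * (σ Y).b
        ring
      · rfl
  exact DFunLike.congr_fun this w

/-- the Jacobian determinant of an endomorphism -/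
noncomputable def D (θ : F2 →ₜ* F2) : R := det (mag t1 t2 (θ X)) (mag t1 t2 (θ Y))

/-- chain rule for the Jacobian determinant -/
lemma D_comp (θ ψ : F2 →ₜ* F2) : D t1 t2 (θ.comp ψ) =
    D (mag t1 t2 (θ X)).t (mag t1 t2 (θ Y)).t ψ * D t1 t2 θ := by
  have h := fun w => chain ((mag t1 t2).comp θ.toMonoidHom) (comp_open _ (mag_open t1 t2) θ) w
  have hX := h (ψ X)
  have hY := h (ψ Y)
  change mag t1 t2 (θ (ψ X)) = lin (mag t1 t2 (θ X)) (mag t1 t2 (θ Y))
    (mag (mag t1 t2 (θ X)).t (mag t1 t2 (θ Y)).t (ψ X)) at hX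
  change mag t1 t2 (θ (ψ Y)) = lin (mag t1 t2 (θ X)) (mag t1 t2 (θ Y))
    (mag (mag t1 t2 (θ X)).t (mag t1 t2 (θ Y)).t (ψ Y)) at hY
  show det (mag t1 t2 (θ (ψ X))) (mag t1 t2 (θ (ψ Y))) = _
  rw [hX, hY, det_lin]
  rfl

/-- the Jacobian determinant of conjugation -/
lemma D_conj (g : F2) (θ : F2 →ₜ* F2) (hθ : ∀ w, θ w = g * w * g⁻¹) :
    D t1 t2 θ = ((mag t1 t2 g).t : R) := by
  have hf := mag_fund t1 t2 g
  show det (mag t1 t2 (θ X)) (mag t1 t2 (θ Y)) = _
  rw [hθ, hθ]
  simp only [map_mul, map_inv, mag_X, mag_Y]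
  simp only [det, mul_a, mul_b, inv_a, inv_b, mul_t, Units.val_mul]
  have h : ((mag t1 t2 g).t : R) * (↑(mag t1 t2 g).t⁻¹ : R) = 1 := Units.mul_inv _
  set x := mag t1 t2 g with hx
  have e1 : x.a + (x.t : R) * 1 + (x.t : R) * (t1 : R) * (-(↑x.t⁻¹ * x.a)) =
      x.a + x.t - t1 * x.a := by linear_combination (-(t1 : R) * x.a) * h
  have e2 : x.b + (x.t : R) * 1 + (x.t : R) * (t2 : R) * (-(↑x.t⁻¹ * x.b)) =
      x.b + x.t - t2 * x.b := by linear_combination (-(t2 : R) * x.b) * h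
  have e3 : x.b + (x.t : R) * 0 + (x.t : R) * (t1 : R) * (-(↑x.t⁻¹ * x.b)) =
      x.b - t1 * x.b := by linear_combination (-(t1 : R) * x.b) * h
  have e4 : x.a + (x.t : R) * 0 + (x.t : R) * (t2 : R) * (-(↑x.t⁻¹ * x.a)) =
      x.a - t2 * x.a := by linear_combination (-(t2 : R) * x.a) * h
  rw [e1, e2, e3, e4]
  linear_combination (x.t : R) * hf

end

end Pool.Agent.Helper75.Fox
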