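import Mathlib

/-! Facts about integral Laurent polynomials: units, residual finiteness, evaluation at `1 + ε`. -/

namespace Pool.Agent.Helper75.Laur

open LaurentPolynomial

/-- evaluation of an integral Laurent polynomial at a unit -/
noncomputable def ev1 {R : Type} [CommRing R] (s : Rˣ) : LaurentPolynomial ℤ →+* R :=
  eval₂ (Int.castRingHom R) s

lemma ev1_T {R : Type} [CommRing R] (s : Rˣ) (n : ℤ) : ev1 s (T n) = ((s ^ n : Rˣ) : R) :=
  eval₂_T _ _ _

lemma ev1_C {R : Type} [CommRing R] (s : Rˣ) (c : ℤ) : ev1 s (C c) = (c : R) :=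
  eval₂_C _ _ _

/-- the unit `T` -/
noncomputable def Tu (R : Type) [CommRing R] : (LaurentPolynomial R)ˣ where
  val := T 1
  inv := T (-1)
  val_inv := by rw [← T_add]; simp
  inv_val := by rw [← T_add]; simp

lemma Tu_zpow {R : Type} [CommRing R] (n : ℤ) :
    (((Tu R) ^ n : (LaurentPolynomial R)ˣ) : LaurentPolynomial R) = T n := by
  have h : ∀ k : ℕ, (((Tu R) ^ k : (LaurentPolynomial R)ˣ) : LaurentPolynomial R) = T k := by
    intro k
    rw [Units.val_pow_eq_pow_val]
    show (T 1) ^ k = T k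
    rw [T_pow]
    simp
  rcases Int.eq_nat_or_neg n with ⟨k, rfl | rfl⟩
  · rw [zpow_natCast]
    exact h k
  · rw [zpow_neg, zpow_natCast]
    have h1 : (((Tu R) ^ k)⁻¹ : (LaurentPolynomial R)ˣ).val * ((Tu R) ^ k).val = 1 :=
      Units.inv_mul _
    rw [h] at h1
    have h2 : (T (k : ℤ) : LaurentPolynomial R) * T (-k) = 1 := by rw [← T_add]; simp
    calc (((Tu R) ^ k)⁻¹ : (LaurentPolynomial R)ˣ).val
        = (((Tu R) ^ k)⁻¹ : (LaurentPolynomial R)ˣ).val * (T (k : ℤ) * T (-k)) := by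
          rw [h2, mul_one]
      _ = ((((Tu R) ^ k)⁻¹ : (LaurentPolynomial R)ˣ).val * T (k : ℤ)) * T (-k) := by
          rw [mul_assoc]
      _ = T (-k) := by rw [h1, one_mul]

/-- An integral Laurent polynomial vanishing at all units of all prime fields is zero. -/
lemma eq_zero_of_eval (F : LaurentPolynomial ℤ)
    (h : ∀ p : ℕ, Nat.Prime p → ∀ s : (ZMod p)ˣ, ev1 s F = 0) : F = 0 := by
  obtain ⟨n, f, hf⟩ := exists_T_pow F
  have hf0 : f = 0 := by
    by_contra hne
    -- an integer `b ≥ 1` which is not a root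
    obtain ⟨b, hb⟩ : ∃ b : ℕ, f.eval ((b : ℤ) + 1) ≠ 0 := by
      by_contra hall
      push Not at hall
      apply hne
      apply Polynomial.eq_zero_of_infinite_isRoot
      apply Set.infinite_of_injective_forall_mem (f := fun b : ℕ => (b : ℤ) + 1)
      · intro a c hac
        simpa using hac
      · intro b
        exact hall b
    obtain ⟨p, hpge, hp⟩ := Nat.exists_infinite_primes ((f.eval ((b : ℤ) + 1)).natAbs + b + 2)
    have hbp : ((b + 1 : ℕ) : ZMod p) ≠ 0 := by
      rw [Ne, ZMod.natCast_eq_zero_iff]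
      intro hd
      have := Nat.le_of_dvd (by omega) hd
      omega
    have : Fact p.Prime := ⟨hp⟩
    let s : (ZMod p)ˣ := Units.mk0 _ hbp
    have h1 := h p hp s
    have h2 : ev1 s (Polynomial.toLaurent f) = 0 := by
      rw [hf, map_mul, h1, zero_mul]
    rw [ev1, eval₂_toLaurent] at h2
    have h3 : (s : ZMod p) = Int.castRingHom (ZMod p) ((b : ℤ) + 1) := by
      show ((b + 1 : ℕ) : ZMod p) = _
      push_cast
      simp
    rw [h3, Polynomial.eval₂_at_apply, eq_intCast, ZMod.intCast_zmod_eq_zero_iff_dvd] at h2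
    have h4 : (p : ℕ) ∣ (f.eval ((b : ℤ) + 1)).natAbs := Int.natCast_dvd.1 h2
    have h5 := Nat.le_of_dvd (Int.natAbs_pos.2 hb) h4
    omega
  rw [hf0, map_zero] at hf
  have h6 : F * T (n : ℤ) * T (-n) = F := by
    rw [mul_T_assoc]; simp
  rw [← h6, ← hf, zero_mul]

/-- Units of the ring of integral Laurent polynomials. -/
lemma unit_form (P Q : LaurentPolynomial ℤ) (h : P * Q = 1) :
    ∃ (i : ℤ) (w : ℤ), (w = 1 ∨ w = -1) ∧ P = C w * T i := by
  obtain ⟨n, p, hp⟩ := exists_T_pow P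
  obtain ⟨m, q, hq⟩ := exists_T_pow Q
  have h1 : p * q = Polynomial.X ^ (n + m) := by
    apply Polynomial.toLaurent_injective
    rw [map_mul, hp, hq, map_pow, Polynomial.toLaurent_X, T_pow]
    calc P * T (n : ℤ) * (Q * T (m : ℤ)) = (P * Q) * (T (n : ℤ) * T (m : ℤ)) := by ring
      _ = _ := by rw [h, one_mul, ← T_add]; push_cast; ring_nf
  have h2 : p ∣ Polynomial.X ^ (n + m) := ⟨q, h1.symm⟩
  obtain ⟨i, _, hi⟩ := (dvd_prime_pow Polynomial.prime_X _).1 h2
  obtain ⟨u, hu⟩ := hi.symm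
  obtain ⟨r, hr, hru⟩ := Polynomial.isUnit_iff.1 u.isUnit
  have hr' : r = 1 ∨ r = -1 := Int.isUnit_iff.1 hr
  refine ⟨(i : ℤ) - n, r, hr', ?_⟩
  have h3 : P * T (n : ℤ) = C r * T (i : ℤ) := by
    rw [← hp, ← hu, ← hru, map_mul, map_pow, Polynomial.toLaurent_X, T_pow,
      Polynomial.toLaurent_C, mul_comm]
    simp
  calc P = P * T (n : ℤ) * T (-n) := by rw [mul_T_assoc]; simp
    _ = _ := by rw [h3, mul_T_assoc, sub_eq_add_neg]

/-- reduction modulo 2 -/
noncomputable def red2 : LaurentPolynomial ℤ →+* LaurentPolynomial (ZMod 2) :=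
  eval₂ ((C : ZMod 2 →+* LaurentPolynomial (ZMod 2)).comp (Int.castRingHom (ZMod 2))) (Tu (ZMod 2))

lemma red2_T (n : ℤ) : red2 (T n) = T n := by
  rw [red2, eval₂_T, Tu_zpow]

lemma red2_C (c : ℤ) : red2 (C c) = C (c : ZMod 2) := by
  rw [red2, eval₂_C]; rfl

lemma exponent_eq_of_red2 {w w' i i' : ℤ} (hw : w = 1 ∨ w = -1) (hw' : w' = 1 ∨ w' = -1)
    (h : red2 (C w * T i) = red2 (C w' * T i')) : i = i' := by
  have h1 : (w : ZMod 2) = 1 := by
    rcases hw with rfl | rfl <;> decide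
  have h2 : (w' : ZMod 2) = 1 := by
    rcases hw' with rfl | rfl <;> decide
  rw [map_mul, map_mul, red2_T, red2_T, red2_C, red2_C, h1, h2, map_one, one_mul, one_mul] at h
  have h3 := congrArg (fun F : LaurentPolynomial (ZMod 2) => F.coeff i) h
  simp only [T_apply] at h3
  by_contra hne
  rw [if_pos trivial, if_neg (fun e => hne e.symm)] at h3
  exact one_ne_zero h3

/-- the unit `1 + ε` of the dual numbers -/
def se (R : Type) [CommRing R] : (DualNumber R)ˣ where
  val := 1 + DualNumber.eps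
  inv := 1 - DualNumber.eps
  val_inv := by
    have h := DualNumber.eps_mul_eps (R := R)
    linear_combination (-1 : DualNumber R) * h
  inv_val := by
    have h := DualNumber.eps_mul_eps (R := R)
    linear_combination (-1 : DualNumber R) * h

lemma se_zpow {R : Type} [CommRing R] (n : ℤ) :
    (((se R) ^ n : (DualNumber R)ˣ) : DualNumber R) = 1 + (n : DualNumber R) * DualNumber.eps := by
  have he := DualNumber.eps_mul_eps (R := R)
  induction n using Int.induction_on with
  | zero => simp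
  | succ k ih =>
    rw [zpow_add_one, Units.val_mul, ih]
    show (1 + ((k : ℤ) : DualNumber R) * DualNumber.eps) * (1 + DualNumber.eps) = _
    push_cast
    linear_combination (k : DualNumber R) * he
  | pred k ih =>
    rw [zpow_sub_one, Units.val_mul, ih]
    show (1 + ((-(k : ℤ) : ℤ) : DualNumber R) * DualNumber.eps) * (1 - DualNumber.eps) = _
    push_cast
    linear_combination (k : DualNumber R) * he

/-- Evaluation data of a Laurent polynomial at `1 + ε`, `(1 + ε)⁻¹`, `-1` and `1`. -/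
lemma eval_data (F : LaurentPolynomial ℤ) : ∃ f0 f1 f2 : ℤ,
    ev1 (se (ZMod 8)) F = (f0 : DualNumber (ZMod 8)) + (f1 : DualNumber (ZMod 8)) * DualNumber.eps ∧
    ev1 (se (ZMod 8))⁻¹ F =
      (f0 : DualNumber (ZMod 8)) - (f1 : DualNumber (ZMod 8)) * DualNumber.eps ∧
    ev1 (-1 : (ZMod 8)ˣ) F = (f2 : ZMod 8) ∧ ev1 (1 : ℤˣ) F = f0 ∧
    (4 : ℤ) ∣ f2 - (f0 - 2 * f1) := by
  induction F using LaurentPolynomial.induction_on' with
  | add p q hp hq =>
    obtain ⟨a0, a1, a2, h1, h2, h3, h4, h5⟩ := hp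
    obtain ⟨b0, b1, b2, k1, k2, k3, k4, k5⟩ := hq
    refine ⟨a0 + b0, a1 + b1, a2 + b2, ?_, ?_, ?_, ?_, ?_⟩
    · rw [map_add, h1, k1]; push_cast; ring
    · rw [map_add, h2, k2]; push_cast; ring
    · rw [map_add, h3, k3]; push_cast; ring
    · rw [map_add, h4, k4]
    · obtain ⟨c, hc⟩ := h5
      obtain ⟨d, hd⟩ := k5
      exact ⟨c + d, by linear_combination hc + hd⟩
  | C_mul_T n a =>
    refine ⟨a, a * n, a * ((-1 : ℤˣ) ^ n : ℤˣ), ?_, ?_, ?_, ?_, ?_⟩
    · rw [map_mul, ev1_C, ev1_T, se_zpow]; push_cast; ring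
    · rw [map_mul, ev1_C, ev1_T, inv_zpow, ← zpow_neg, se_zpow]; push_cast; ring
    · rw [map_mul, ev1_C, ev1_T]
      push_cast
      congr 1
      rcases Int.even_or_odd n with hn | hn
      · rw [hn.neg_one_zpow, hn.neg_one_zpow]; simp
      · rw [hn.neg_one_zpow, hn.neg_one_zpow]; simp
    · rw [map_mul, ev1_C, ev1_T]; simp
    · rcases Int.even_or_odd n with hn | hn
      · rw [hn.neg_one_zpow]
        obtain ⟨k, rfl⟩ := hn
        exact ⟨a * k, by push_cast; ring⟩
      · rw [hn.neg_one_zpow]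
        obtain ⟨k, rfl⟩ := hn
        exact ⟨a * k, by push_cast; ring⟩

end Pool.Agent.Helper75.Laur
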