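import Mathlib
import Pool.Agent.Helper75.Defs
import Pool.Agent.Helper75.F2Defs
import Pool.Agent.Helper75.Basic
import Pool.Agent.Helper75.F2Lemmas
import Pool.Agent.Helper75.Rigid
import Pool.Agent.Helper75.Fox
import Pool.Agent.Helper75.Laur

/-! The key computation: an automorphism `α` with exponent `3` modulo `8` is not equal to its
conjugate by the complex conjugation, even up to the closure of the discrete automorphisms. -/

namespace Pool.Agent.Helper75.Core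

open Pool.Agent.Helper75.Defs Pool.Agent.Helper75.F2Defs Pool.Agent.Helper75.Basic
  Pool.Agent.Helper75.F2Lemmas Pool.Agent.Helper75.Rigid Pool.Agent.Helper75.Fox
  Pool.Agent.Helper75.Laur
open Mag

/-! ### exponents -/

/-- exponent sum of `x` -/
def ax (w : FreeGroup (Fin 2)) : ℤ :=
  (FreeGroup.lift (![Multiplicative.ofAdd 1, 1] : Fin 2 → Multiplicative ℤ) w).toAdd

/-- exponent sum of `y` -/
def ay (w : FreeGroup (Fin 2)) : ℤ :=
  (FreeGroup.lift (![1, Multiplicative.ofAdd 1] : Fin 2 → Multiplicative ℤ) w).toAdd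

lemma mag0_t (R : Type) [CommRing R] (t1 t2 : Rˣ) (w : FreeGroup (Fin 2)) :
    (mag0 R t1 t2 w).t = t1 ^ ax w * t2 ^ ay w := by
  let f : FreeGroup (Fin 2) →* Rˣ :=
    { toFun := fun w => t1 ^ ax w * t2 ^ ay w
      map_one' := by simp [ax, ay]
      map_mul' := by
        intro a b
        simp only [ax, ay, map_mul, toAdd_mul, zpow_add]
        exact mul_mul_mul_comm _ _ _ _ }
  have : (tHom (R := R)).comp (mag0 R t1 t2) = f := by
    apply FreeGroup.ext_hom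
    intro i
    fin_cases i
    · show (mag0 R t1 t2 (FreeGroup.of 0)).t = t1 ^ ax (FreeGroup.of 0) * t2 ^ ay (FreeGroup.of 0)
      rw [mag0_X]
      simp [ax, ay]
    · show (mag0 R t1 t2 (FreeGroup.of 1)).t = t1 ^ ax (FreeGroup.of 1) * t2 ^ ay (FreeGroup.of 1)
      rw [mag0_Y]
      simp [ax, ay]
  exact DFunLike.congr_fun this w

/-! ### discrete automorphisms -/

/-- `θ` comes from an automorphism of the discrete free group acting trivially on the
abelianisation. -/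
structure DiscAut (θ : F2 →ₜ* F2) : Prop where
  ex : ∃ (w1 w2 v1 v2 : FreeGroup (Fin 2)) (θ' : F2 →ₜ* F2),
    θ X = eta _ w1 ∧ θ Y = eta _ w2 ∧ θ' X = eta _ v1 ∧ θ' Y = eta _ v2 ∧
    (∀ a, θ (θ' a) = a) ∧ ax w1 = 1 ∧ ay w1 = 0 ∧ ax w2 = 0 ∧ ay w2 = 1 ∧
    ax v1 = 1 ∧ ay v1 = 0 ∧ ax v2 = 0 ∧ ay v2 = 1

lemma D_eta {R : Type} [CommRing R] [Finite R] (t1 t2 : Rˣ) (θ : F2 →ₜ* F2)
    (w1 w2 : FreeGroup (Fin 2)) (h1 : θ X = eta _ w1) (h2 : θ Y = eta _ w2) :
    D t1 t2 θ = det (mag0 R t1 t2 w1) (mag0 R t1 t2 w2) := by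
  rw [D, h1, h2, mag_eta, mag_eta]

lemma det_map {R S : Type} [CommRing R] [CommRing S] (f : R →+* S) (p q : Mag R) :
    det (Mag.map f p) (Mag.map f q) = f (det p q) := by
  simp only [det, Mag.map, MonoidHom.coe_mk, OneHom.coe_mk, map_sub, map_mul]

lemma D_id {R : Type} [CommRing R] [Finite R] (t1 t2 : Rˣ) (θ : F2 →ₜ* F2)
    (h : ∀ a, θ a = a) : D t1 t2 θ = 1 := by
  rw [D, h, h, mag_X, mag_Y]
  simp [det]

lemma units_map_ev1_Tu {R : Type} [CommRing R] (s : Rˣ) :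
    Units.map ((ev1 s : LaurentPolynomial ℤ →+* R) : LaurentPolynomial ℤ →* R) (Tu ℤ) = s := by
  ext
  show ev1 s (LaurentPolynomial.T 1) = s
  rw [ev1_T, zpow_one]

/-- value of the Jacobian determinant of a discrete automorphism -/
lemma disc_det {θ : F2 →ₜ* F2} (hθ : DiscAut θ) : ∃ (i : ℤ) (wp wm : ℤ),
    (wp = 1 ∨ wp = -1) ∧ (wm = 1 ∨ wm = -1) ∧
    (∀ (R : Type) [CommRing R] [Finite R] (s : Rˣ),
      D s 1 θ = (wp : R) * ((s ^ i : Rˣ) : R) ∧ D s (-1) θ = (wm : R) * ((s ^ i : Rˣ) : R)) := by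
  obtain ⟨w1, w2, v1, v2, θ', hX, hY, hX', hY', hinv, a1, a2, a3, a4, b1, b2, b3, b4⟩ := hθ.ex
  -- the Laurent determinants
  let P : (LaurentPolynomial ℤ)ˣ → LaurentPolynomial ℤ := fun e =>
    det (mag0 (LaurentPolynomial ℤ) (Tu ℤ) e w1) (mag0 (LaurentPolynomial ℤ) (Tu ℤ) e w2)
  let Q : (LaurentPolynomial ℤ)ˣ → LaurentPolynomial ℤ := fun e =>
    det (mag0 (LaurentPolynomial ℤ) (Tu ℤ) e v1) (mag0 (LaurentPolynomial ℤ) (Tu ℤ) e v2)
  have hP : ∀ (R : Type) [CommRing R] [Finite R] (s : Rˣ) (e : (LaurentPolynomial ℤ)ˣ),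
      D s (Units.map ((ev1 s : LaurentPolynomial ℤ →+* R) : LaurentPolynomial ℤ →* R) e) θ =
        ev1 s (P e) := by
    intro R _ _ s e
    rw [D_eta _ _ θ w1 w2 hX hY, ← det_map (ev1 s), mag0_map, mag0_map, units_map_ev1_Tu]
  have hQ : ∀ (R : Type) [CommRing R] [Finite R] (s : Rˣ) (e : (LaurentPolynomial ℤ)ˣ),
      D s (Units.map ((ev1 s : LaurentPolynomial ℤ →+* R) : LaurentPolynomial ℤ →* R) e) θ' =
        ev1 s (Q e) := by
    intro R _ _ s e
    rw [D_eta _ _ θ' v1 v2 hX' hY', ← det_map (ev1 s), mag0_map, mag0_map, units_map_ev1_Tu]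
  have hPQ : ∀ e : (LaurentPolynomial ℤ)ˣ, P e * Q e = 1 := by
    intro e
    rw [← sub_eq_zero]
    apply eq_zero_of_eval
    intro p hp s
    have : Fact p.Prime := ⟨hp⟩
    rw [map_sub, map_mul, map_one, ← hP (ZMod p) s e, ← hQ (ZMod p) s e, sub_eq_zero]
    set e' := Units.map ((ev1 s : LaurentPolynomial ℤ →+* ZMod p) : LaurentPolynomial ℤ →* ZMod p) e
    have h1 := D_comp s e' θ θ'
    have h2 : D s e' (θ.comp θ') = 1 := D_id s e' _ hinv
    rw [h2, hX, hY, mag_eta, mag_eta, mag0_t, mag0_t, a1, a2, a3, a4] at h1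
    simp only [zpow_one, zpow_zero, mul_one, one_mul] at h1
    rw [mul_comm]
    exact h1.symm
  obtain ⟨i, wp, hwp, hPp⟩ := unit_form _ _ (hPQ 1)
  obtain ⟨i', wm, hwm, hPm⟩ := unit_form _ _ (hPQ (-1))
  have hii : i = i' := by
    apply exponent_eq_of_red2 hwp hwm
    rw [← hPp, ← hPm]
    show red2 (det _ _) = red2 (det _ _)
    rw [← det_map red2, ← det_map red2, mag0_map, mag0_map, mag0_map, mag0_map]
    have h2 : Units.map (red2 : LaurentPolynomial ℤ →* LaurentPolynomial (ZMod 2)) (-1) = 1 := by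
      ext1
      show red2 (-1) = 1
      rw [map_neg, map_one]
      have h3 : (2 : LaurentPolynomial (ZMod 2)) = 0 := by
        have : (2 : LaurentPolynomial (ZMod 2)) = LaurentPolynomial.C (2 : ZMod 2) := by
          rw [map_ofNat]
        rw [this]
        have h4 : (2 : ZMod 2) = 0 := by decide
        rw [h4, map_zero]
      linear_combination (-1 : LaurentPolynomial (ZMod 2)) * h3
    rw [h2, map_one]
  subst hii
  refine ⟨i, wp, wm, hwp, hwm, fun R _ _ s => ⟨?_, ?_⟩⟩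
  · have h := hP R s 1
    rw [map_one] at h
    rw [h, hPp, map_mul, ev1_C, ev1_T]
  · have h := hP R s (-1)
    have h2 : Units.map ((ev1 s : LaurentPolynomial ℤ →+* R) : LaurentPolynomial ℤ →* R) (-1) = -1 := by
      ext1
      show ev1 s (-1) = _
      rw [map_neg, map_one]
      rfl
    rw [h2] at h
    rw [h, hPm, map_mul, ev1_C, ev1_T]

/-! ### complex conjugation -/

/-- complex conjugation `x ↦ x⁻¹`, `y ↦ x y⁻¹ x⁻¹`, which sends `x y` to its inverse -/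
noncomputable def tau : F2 →ₜ* F2 := ev X⁻¹ (X * Y⁻¹ * X⁻¹)

lemma tau_X : tau X = X⁻¹ := ev_X _ _
lemma tau_Y : tau Y = X * Y⁻¹ * X⁻¹ := ev_Y _ _

lemma tau_XY : tau (X * Y) = (X * Y)⁻¹ := by
  rw [map_mul, tau_X, tau_Y]; group

lemma tau_tau (a : F2) : tau (tau a) = a := by
  have : tau.comp tau = ContinuousMonoidHom.id F2 := by
    apply hom_ext_XY
    · show tau (tau X) = X
      rw [tau_X, map_inv, tau_X, inv_inv]
    · show tau (tau Y) = Y
      rw [tau_Y, map_mul, map_mul, map_inv, map_inv, tau_X, tau_Y]; group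
  exact DFunLike.congr_fun this a

set_option linter.unusedSectionVars false

section

variable {R : Type} [CommRing R] [Finite R]

lemma mag_tau_t (t1 t2 : Rˣ) : (mag t1 t2 (tau X)).t = t1⁻¹ ∧ (mag t1 t2 (tau Y)).t = t2⁻¹ := by
  constructor
  · rw [tau_X, map_inv, mag_X]
    rfl
  · rw [tau_Y]
    simp only [map_mul, map_inv, mag_X, mag_Y, mul_t, inv_t]
    rw [mul_comm t1, mul_assoc, mul_inv_cancel, mul_one]

lemma D_tau (t1 t2 : Rˣ) : D t1 t2 tau = ((t2⁻¹ : Rˣ) : R) := by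
  rw [D, tau_X, tau_Y]
  simp only [map_mul, map_inv, mag_X, mag_Y]
  simp only [det, mul_a, mul_b, mul_t, inv_a, inv_b, inv_t, Units.val_mul]
  have h : ((t1⁻¹ : Rˣ) : R) * t1 = 1 := Units.inv_mul _
  linear_combination ((t2⁻¹ : Rˣ) : R) * h

/-- Jacobian of the conjugate of `α` by complex conjugation. -/
lemma D_conj_tau (α : F2 →ₜ* F2) (s e : Rˣ) (k : ℕ) (hk : Odd k) (he : e * e = 1)
    (hY : (mag s⁻¹ e (α Y)).t = e ^ k) :
    D s e (tau.comp (α.comp tau)) = D s⁻¹ e α := by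
  have hei : e⁻¹ = e := inv_eq_of_mul_eq_one_right he
  have hek : e ^ k = e := by
    obtain ⟨j, rfl⟩ := hk
    rw [pow_add, pow_mul, sq, he, one_pow, one_mul, pow_one]
  rw [D_comp, (mag_tau_t s e).1, (mag_tau_t s e).2, D_comp, D_tau, D_tau, hei, hY, hek, hei]
  have h : (e : R) * e = 1 := by rw [← Units.val_mul, he, Units.val_one]
  linear_combination (D s⁻¹ e α) * h

/-- geometric sum -/
def geo (t : Rˣ) (k : ℕ) : R := ∑ j ∈ Finset.range k, (t : R) ^ j

lemma geo_mul (t : Rˣ) (k : ℕ) : (1 - (t : R)) * geo t k = 1 - (t : R) ^ k := by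
  have h := mul_neg_geom_sum (t : R) k
  exact h

variable (t1 t2 : Rˣ) (k : ℕ) (u v : F2)

lemma conj_pow_a (g : Mag R) (a b : R) (t : Rˣ) :
    (g * (⟨a, b, t⟩ : Mag R) ^ k * g⁻¹).a = (1 - (t : R) ^ k) * g.a + g.t * (geo t k * a) := by
  simp only [mul_a, mul_t, inv_a, pow_a, pow_t, Units.val_mul, Units.val_pow_eq_pow_val]
  have h : (g.t : R) * (↑g.t⁻¹ : R) = 1 := Units.mul_inv _
  rw [geo]
  linear_combination (-(t : R) ^ k * g.a) * h

lemma conj_pow_b (g : Mag R) (a b : R) (t : Rˣ) :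
    (g * (⟨a, b, t⟩ : Mag R) ^ k * g⁻¹).b = (1 - (t : R) ^ k) * g.b + g.t * (geo t k * b) := by
  simp only [mul_b, mul_t, inv_b, pow_b, pow_t, Units.val_mul, Units.val_pow_eq_pow_val]
  have h : (g.t : R) * (↑g.t⁻¹ : R) = 1 := Units.mul_inv _
  rw [geo]
  linear_combination (-(t : R) ^ k * g.b) * h

lemma conj_pow_t (g : Mag R) (a b : R) (t : Rˣ) :
    (g * (⟨a, b, t⟩ : Mag R) ^ k * g⁻¹).t = t ^ k := by
  simp only [mul_t, inv_t, pow_t]
  rw [mul_comm g.t, mul_assoc, mul_inv_cancel, mul_one]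

/-- Jacobian of `α`. -/
lemma D_alpha (α : F2 →ₜ* F2)
    (hX : mag t1 t2 (α X) = mag t1 t2 u * (⟨1, 0, t1⟩ : Mag R) ^ k * (mag t1 t2 u)⁻¹)
    (hY : mag t1 t2 (α Y) = mag t1 t2 v * (⟨0, 1, t2⟩ : Mag R) ^ k * (mag t1 t2 v)⁻¹) :
    D t1 t2 α = geo t1 k * geo t2 k * (((mag t1 t2 v).t : R) +
      (1 - (t2 : R)) * ((mag t1 t2 v).b - (mag t1 t2 u).b)) := by
  have hfu := mag_fund t1 t2 u
  have hfv := mag_fund t1 t2 v
  have g1 := geo_mul t1 k
  have g2 := geo_mul t2 k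
  rw [D, hX, hY, det, conj_pow_a, conj_pow_a, conj_pow_b, conj_pow_b, ← g1, ← g2]
  generalize (mag t1 t2 u).a = au at *
  generalize (mag t1 t2 u).b = bu at *
  generalize ((mag t1 t2 u).t : R) = tu at *
  generalize (mag t1 t2 v).a = av at *
  generalize (mag t1 t2 v).b = bv at *
  generalize ((mag t1 t2 v).t : R) = tv at *
  generalize geo t1 k = G1 at *
  generalize geo t2 k = G2 at *
  linear_combination (G1 * G2 * ((1 - (t2 : R)) * bv + tv)) * hfu -
    (G1 * G2 * (1 - (t2 : R)) * bu) * hfv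

/-- The condition coming from the product `x y` at the character `(-1, -1)`. -/
lemma xy_condition (α : F2 →ₜ* F2) (hk : Odd k)
    (hX : mag (-1 : Rˣ) (-1) (α X) = mag (-1 : Rˣ) (-1) u * (⟨1, 0, -1⟩ : Mag R) ^ k *
      (mag (-1 : Rˣ) (-1) u)⁻¹)
    (hY : mag (-1 : Rˣ) (-1) (α Y) = mag (-1 : Rˣ) (-1) v * (⟨0, 1, -1⟩ : Mag R) ^ k *
      (mag (-1 : Rˣ) (-1) v)⁻¹)
    (hXY : mag (-1 : Rˣ) (-1) (α (X * Y)) = mag (-1 : Rˣ) (-1) (X * Y) ^ k) :
    ((mag (-1 : Rˣ) (-1) v).t : R) + 2 * ((mag (-1 : Rˣ) (-1) v).b - (mag (-1 : Rˣ) (-1) u).b) =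
      (k : R) := by
  have hfu := mag_fund (-1 : Rˣ) (-1) u
  have hfv := mag_fund (-1 : Rˣ) (-1) v
  have h0 : (mag (-1 : Rˣ) (-1) (X * Y)).a = 1 := by
    rw [map_mul, mag_X, mag_Y, mul_a]
    simp
  have h0t : (mag (-1 : Rˣ) (-1) (X * Y)).t = 1 := by
    rw [map_mul, mag_X, mag_Y, mul_t]
    simp
  have h1 := congrArg Mag.a hXY
  rw [pow_a, h0, h0t, map_mul, map_mul, mul_a, hX, hY, conj_pow_t, conj_pow_a, conj_pow_a] at h1
  have hneg : ((-1 : Rˣ) : R) = -1 := by simp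
  have hpk : ((-1 : Rˣ) : R) ^ k = -1 := by rw [hneg, hk.neg_one_pow]
  have hgeo : geo (-1 : Rˣ) k = 1 := by
    rw [geo, hneg]
    have hall : ∀ j : ℕ, ∑ i ∈ Finset.range (2 * j + 1), (-1 : R) ^ i = 1 := by
      intro j
      induction j with
      | zero => simp
      | succ n ih =>
        have h2 : 2 * (n + 1) + 1 = 2 * n + 1 + 1 + 1 := by ring
        rw [h2, Finset.sum_range_succ, Finset.sum_range_succ, ih]
        ring
    obtain ⟨j, rfl⟩ := hk
    exact hall j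
  have hval : ∀ (n : ℕ) (x : Rˣ), ((x ^ n : Rˣ) : R) = (x : R) ^ n := fun n x => by simp
  simp only [hval, hpk, hgeo] at h1
  have h3 : (∑ j ∈ Finset.range k, ((1 : Rˣ) : R) ^ j) = (k : R) := by
    simp
  rw [h3] at h1
  rw [hneg] at hfu hfv
  linear_combination h1 - hfu + hfv

end

end Pool.Agent.Helper75.Core
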