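import Mathlib
import Pool.Agent.Helper75.Defs
import Pool.Agent.Helper75.F2Defs
import Pool.Agent.Helper75.Basic
import Pool.Agent.Helper75.F2Lemmas
import Pool.Agent.Helper75.Rigid
import Pool.Agent.Helper75.Fox
import Pool.Agent.Helper75.Laur
import Pool.Agent.Helper75.Core

/-! The contradiction: an automorphism `α` with exponent `3` modulo `8` is not equal to its
conjugate by the complex conjugation, even up to the closure of the discrete automorphisms. -/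

namespace Pool.Agent.Helper75.CoreFinal

open Pool.Agent.Helper75.Defs Pool.Agent.Helper75.F2Defs Pool.Agent.Helper75.Basic
  Pool.Agent.Helper75.F2Lemmas Pool.Agent.Helper75.Rigid Pool.Agent.Helper75.Fox
  Pool.Agent.Helper75.Laur Pool.Agent.Helper75.Core
open Mag

/-- the dual numbers over `ℤ/8` -/
abbrev R1 : Type := DualNumber (ZMod 8)

instance : Finite R1 := inferInstanceAs (Finite (ZMod 8 × ZMod 8))

/-- the element `a + b ε` -/
def dn (a b : ZMod 8) : R1 := TrivSqZeroExt.inl a + TrivSqZeroExt.inr b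

lemma dn_fst (a b : ZMod 8) : (dn a b).fst = a := by simp [dn]
lemma dn_snd (a b : ZMod 8) : (dn a b).snd = b := by simp [dn]

lemma dn_ext {p q : R1} (h1 : p.fst = q.fst) (h2 : p.snd = q.snd) : p = q :=
  TrivSqZeroExt.ext h1 h2

lemma dn_inj {a b c d : ZMod 8} (h : dn a b = dn c d) : a = c ∧ b = d := by
  have h1 := congrArg TrivSqZeroExt.fst h
  have h2 := congrArg TrivSqZeroExt.snd h
  rw [dn_fst, dn_fst] at h1
  rw [dn_snd, dn_snd] at h2
  exact ⟨h1, h2⟩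

lemma dn_mul (a b c d : ZMod 8) : dn a b * dn c d = dn (a * c) (a * d + b * c) := by
  apply dn_ext
  · rw [TrivSqZeroExt.fst_mul, dn_fst, dn_fst, dn_fst]
  · rw [TrivSqZeroExt.snd_mul, dn_snd, dn_fst, dn_fst, dn_snd, dn_snd]
    simp

lemma dn_add (a b c d : ZMod 8) : dn a b + dn c d = dn (a + c) (b + d) := by
  apply dn_ext
  · rw [TrivSqZeroExt.fst_add, dn_fst, dn_fst, dn_fst]
  · rw [TrivSqZeroExt.snd_add, dn_snd, dn_snd, dn_snd]

lemma dn_int (a b : ℤ) : (a : R1) + (b : R1) * DualNumber.eps = dn a b := by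
  apply dn_ext
  · rw [dn_fst]
    simp
  · rw [dn_snd]
    simp

lemma dn_int0 (a : ℤ) : (a : R1) = dn a 0 := by
  rw [← Int.cast_zero, ← dn_int]
  simp

lemma dn_nat0 (a : ℕ) : (a : R1) = dn a 0 := by
  have := dn_int0 a
  simpa using this

lemma dn_one : (1 : R1) = dn 1 0 := by
  have := dn_int0 1
  simpa using this

lemma dn_two : (2 : R1) = dn 2 0 := by
  have := dn_int0 2
  simpa using this

lemma dn_se (n : ℤ) : (((se (ZMod 8)) ^ n : R1ˣ) : R1) = dn 1 n := by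
  have := dn_int 1 n
  rw [Int.cast_one, Int.cast_one] at this
  rw [se_zpow, this]

lemma dn_se_inv (n : ℤ) : ((((se (ZMod 8))⁻¹) ^ n : R1ˣ) : R1) = dn 1 (-n) := by
  rw [inv_zpow, ← zpow_neg, dn_se]
  push_cast
  rfl

lemma geo_se (k : ℕ) : ∃ c : ZMod 8, 2 * c = k * (k - 1) ∧
    geo (se (ZMod 8)) k = dn k c ∧ geo (se (ZMod 8))⁻¹ k = dn k (-c) := by
  induction k with
  | zero => exact ⟨0, by simp, by simp [geo, dn], by simp [geo, dn]⟩
  | succ n ih =>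
    obtain ⟨c, h1, h2, h3⟩ := ih
    refine ⟨c + n, ?_, ?_, ?_⟩
    · push_cast
      linear_combination h1
    · have h4 := dn_se (n : ℤ)
      rw [zpow_natCast, Units.val_pow_eq_pow_val] at h4
      have h5 : geo (se (ZMod 8)) (n + 1) = geo (se (ZMod 8)) n +
          ((se (ZMod 8) : R1ˣ) : R1) ^ n := Finset.sum_range_succ _ _
      rw [h5, h2, h4, dn_add]
      push_cast
      rfl
    · have h4 := dn_se_inv (n : ℤ)
      rw [zpow_natCast, Units.val_pow_eq_pow_val] at h4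
      have h5 : geo (se (ZMod 8))⁻¹ (n + 1) = geo (se (ZMod 8))⁻¹ n +
          (((se (ZMod 8))⁻¹ : R1ˣ) : R1) ^ n := Finset.sum_range_succ _ _
      rw [h5, h3, h4, dn_add]
      push_cast
      congr 1
      ring

lemma geo_one {R : Type} [CommRing R] (k : ℕ) : geo (1 : Rˣ) k = (k : R) := by
  simp [geo]

lemma geo_neg_one {R : Type} [CommRing R] {k : ℕ} (hk : Odd k) : geo (-1 : Rˣ) k = (1 : R) := by
  have hneg : ((-1 : Rˣ) : R) = -1 := by simp
  rw [geo, hneg]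
  have hall : ∀ j : ℕ, ∑ i ∈ Finset.range (2 * j + 1), (-1 : R) ^ i = 1 := by
    intro j
    induction j with
    | zero => simp
    | succ n ih =>
      have h2 : 2 * (n + 1) + 1 = 2 * n + 1 + 1 + 1 := by ring
      rw [h2, Finset.sum_range_succ, Finset.sum_range_succ, ih]
      ring
  obtain ⟨j, rfl⟩ := hk
  exact hall j

lemma mag_conj_ppow {R : Type} [CommRing R] [Finite R] (t1 t2 : Rˣ) (g w : F2) (l : Zhat)
    (N : ℕ+) (hN : Nat.card (Mag R) ∣ N) :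
    mag t1 t2 (g * ppow w l * g⁻¹) = mag t1 t2 g * (mag t1 t2 w) ^ (res l N) * (mag t1 t2 g)⁻¹ := by
  rw [map_mul, map_mul, map_inv, fin_ppow (mag t1 t2) (mag_open t1 t2) w l N]
  obtain ⟨c, hc⟩ := hN
  rw [hc, pow_mul, pow_card_eq_one', one_pow]

/-- conjugation as a continuous endomorphism -/
def conj (g : F2) : F2 →ₜ* F2 :=
  ⟨(MulAut.conj g).toMonoidHom, by
    show Continuous fun a => g * a * g⁻¹
    fun_prop⟩

lemma conj_apply (g a : F2) : conj g a = g * a * g⁻¹ := rfl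

/-- the basic relation between Jacobians -/
lemma D_rel {R : Type} [CommRing R] [Finite R] (s e : Rˣ) (α β θ : F2 →ₜ* F2) (g : F2)
    (hθ : DiscAut θ)
    (h : ∀ a, mag s e (α a) = mag s e g * mag s e (θ (β a)) * (mag s e g)⁻¹) :
    D s e α = D s e β * D s e θ * ((mag s e g).t : R) := by
  have h1 : D s e α = D s e ((conj g).comp (θ.comp β)) := by
    unfold D
    rw [h, h]
    show det (mag s e g * mag s e (θ (β X)) * (mag s e g)⁻¹)
      (mag s e g * mag s e (θ (β Y)) * (mag s e g)⁻¹) =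
      det (mag s e (g * θ (β X) * g⁻¹)) (mag s e (g * θ (β Y) * g⁻¹))
    rw [map_mul, map_mul, map_mul, map_mul, map_inv]
  rw [h1, D_comp, D_conj s e g (conj g) (conj_apply g)]
  have h2 : (mag s e (conj g X)).t = s := by
    rw [conj_apply, map_mul, map_mul, map_inv, mag_X]
    simp only [mul_t, inv_t]
    rw [mul_comm (mag s e g).t, mul_assoc, mul_inv_cancel, mul_one]
  have h3 : (mag s e (conj g Y)).t = e := by
    rw [conj_apply, map_mul, map_mul, map_inv, mag_Y]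
    simp only [mul_t, inv_t]
    rw [mul_comm (mag s e g).t, mul_assoc, mul_inv_cancel, mul_one]
  rw [h2, h3, D_comp]
  obtain ⟨w1, w2, v1, v2, θ', hX, hY, hX', hY', hinv, a1, a2, a3, a4, b1, b2, b3, b4⟩ := hθ.ex
  rw [hX, hY, mag_eta, mag_eta, mag0_t, mag0_t, a1, a2, a3, a4]
  simp only [zpow_one, zpow_zero, mul_one, one_mul]

/-- final arithmetic -/
lemma arith (N I A wp wm σv σu σg f0 f1 f2 ν C : ZMod 8)
    (hwp : wp = 1 ∨ wp = -1) (hwm : wm = 1 ∨ wm = -1) (hσv : σv = 1 ∨ σv = -1)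
    (hσu : σu = 1 ∨ σu = -1) (hσg : σg = 1 ∨ σg = -1)
    (hν : ν = 1 ∨ ν = -1) (hC : 2 * C = 3 * (3 - 1)) (hN : 4 * N = 2 - 2 * ν)
    (hf : 2 * f2 = 2 * f0 - 4 * f1) (hfund : 2 * f0 = σu - σv)
    (hxy : ν * σv + 2 * f2 = 3)
    (h1 : dn 3 C * dn 3 0 * dn 1 N = dn 3 (-C) * dn 3 0 * dn 1 (-N) * (dn wp 0 * dn 1 I) * dn 1 A)
    (h2 : dn 3 C * (dn σv 0 * dn 1 N + dn 2 0 * dn f0 f1) =
      dn 3 (-C) * (dn σv 0 * dn 1 (-N) + dn 2 0 * dn f0 (-f1)) * (dn wm 0 * dn 1 I) *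
        (dn 1 A * dn σg 0)) : False := by
  have h8 : (8 : ZMod 8) = 0 := by decide
  simp only [dn_mul, dn_add] at h1 h2
  obtain ⟨p1, q1⟩ := dn_inj h1
  obtain ⟨p2, q2⟩ := dn_inj h2
  have hwp1 : wp = 1 := by
    rcases hwp with h | h
    · exact h
    · exfalso
      rw [h] at p1
      have : (2 : ZMod 8) = 0 := by linear_combination p1 - 2 * h8
      revert this; decide
  subst hwp1
  have hIA : I + A = 2 + 2 * N := by
    linear_combination (-1 : ZMod 8) * q1 + 3 * hC + (2 + 2 * N - I - A) * h8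
  have hw : wm * σg = 1 := by
    rcases hwm with h | h <;> rcases hσg with h' | h'
    · rw [h, h']; norm_num
    · exfalso
      rw [h, h'] at p2
      have h4 : 4 * σv = 0 := by linear_combination 2 * p2 - (σv + 3 * f0) * h8
      rcases hσv with h | h <;> (rw [h] at h4; revert h4; decide)
    · exfalso
      rw [h, h'] at p2
      have h4 : 4 * σv = 0 := by linear_combination 2 * p2 - (σv + 3 * f0) * h8
      rcases hσv with h | h <;> (rw [h] at h4; revert h4; decide)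
    · rw [h, h']; norm_num
  have h4f : 4 * f1 = 4 * f0 * N := by
    linear_combination q2 + (3 * (σv + 2 * f0) * (A + I) -
      (3 * σv * N + 6 * f1 + C * (σv + 2 * f0))) * hw + 3 * (σv + 2 * f0) * hIA -
      (σv + 2 * f0) * hC - (f1 - f0 * N) * h8
  have hfin : ν * σu = 3 := by
    linear_combination hxy - hf + h4f + f0 * hN - ν * hfund
  rcases hν with rfl | rfl <;> rcases hσu with rfl | rfl <;> revert hfin <;> decide

/-- the sign `(-1) ^ b` -/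
def sg (b : ℤ) : ℤ := (((-1 : ℤˣ) ^ b : ℤˣ) : ℤ)

lemma sg_cases (b : ℤ) : sg b = 1 ∨ sg b = -1 := by
  unfold sg
  rcases Int.even_or_odd b with h | h
  · left; rw [h.neg_one_zpow]; rfl
  · right; rw [h.neg_one_zpow]; rfl

lemma sg_cast {R : Type} [CommRing R] (b : ℤ) : (((-1 : Rˣ) ^ b : Rˣ) : R) = (sg b : R) := by
  unfold sg
  rcases Int.even_or_odd b with h | h
  · rw [h.neg_one_zpow, h.neg_one_zpow]; simp
  · rw [h.neg_one_zpow, h.neg_one_zpow]; simp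

lemma sg_cast_cases (b : ℤ) : (sg b : ZMod 8) = 1 ∨ (sg b : ZMod 8) = -1 := by
  rcases sg_cases b with h | h
  · left; rw [h]; simp
  · right; rw [h]; simp

lemma sg_four (n : ℤ) : 4 * (n : ZMod 8) = 2 - 2 * (sg n : ZMod 8) := by
  have h8 : (8 : ZMod 8) = 0 := by decide
  rcases Int.even_or_odd n with h | h
  · have : sg n = 1 := by unfold sg; rw [h.neg_one_zpow]; rfl
    rw [this]
    obtain ⟨k, rfl⟩ := h
    push_cast
    linear_combination (k : ZMod 8) * h8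
  · have : sg n = -1 := by unfold sg; rw [h.neg_one_zpow]; rfl
    rw [this]
    obtain ⟨k, rfl⟩ := h
    push_cast
    linear_combination (k : ZMod 8) * h8

/-- the difference of Fox derivatives -/
noncomputable def FF (u0 v0 : FreeGroup (Fin 2)) : LaurentPolynomial ℤ :=
  (mag0 (LaurentPolynomial ℤ) (Tu ℤ) (-1) v0).b - (mag0 (LaurentPolynomial ℤ) (Tu ℤ) (-1) u0).b

lemma ev1_FF {R : Type} [CommRing R] (t : Rˣ) (u0 v0 : FreeGroup (Fin 2)) :
    ev1 t (FF u0 v0) = (mag0 R t (-1) v0).b - (mag0 R t (-1) u0).b := by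
  have h2 : Units.map ((ev1 t : LaurentPolynomial ℤ →+* R) : LaurentPolynomial ℤ →* R) (-1) = -1 := by
    ext1
    show ev1 t (-1) = _
    rw [map_neg, map_one]
    rfl
  have h : ∀ w, ev1 t (mag0 (LaurentPolynomial ℤ) (Tu ℤ) (-1) w).b = (mag0 R t (-1) w).b := by
    intro w
    have h1 := mag0_map (Tu ℤ) (-1) (ev1 t) w
    rw [units_map_ev1_Tu, h2] at h1
    rw [← h1]
    rfl
  rw [FF, map_sub, h, h]

theorem no_conj (l : Zhat) (hl : res l 8 = 3) (α : F2 →ₜ* F2) (u v : F2)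
    (hX : α X = u * ppow X l * u⁻¹) (hY : α Y = v * ppow Y l * v⁻¹)
    (hXY : α (X * Y) = ppow (X * Y) l)
    (hyp : ∀ (H : Type) [Group H] [Finite H] (ρ : F2 →* H), IsOpen (ρ.ker : Set F2) →
      ∃ (θ : F2 →ₜ* F2) (g : F2), DiscAut θ ∧
        ∀ a, ρ (α a) = ρ g * ρ (θ (tau (α (tau a)))) * (ρ g)⁻¹) : False := by
  set s : R1ˣ := se (ZMod 8) with hs
  have hc1 : 0 < Nat.card (Mag R1) := Nat.card_pos
  have hc2 : 0 < Nat.card (Mag (ZMod 8)) := Nat.card_pos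
  let N : ℕ+ := ⟨8 * (Nat.card (Mag R1) * Nat.card (Mag (ZMod 8))), by positivity⟩
  have hN1 : Nat.card (Mag R1) ∣ N := ⟨8 * Nat.card (Mag (ZMod 8)), by
    show 8 * (Nat.card (Mag R1) * Nat.card (Mag (ZMod 8))) = _
    ring⟩
  have hN2 : Nat.card (Mag (ZMod 8)) ∣ N := ⟨8 * Nat.card (Mag R1), by
    show 8 * (Nat.card (Mag R1) * Nat.card (Mag (ZMod 8))) = _
    ring⟩
  have hN3 : ((8 : ℕ+) : ℕ) ∣ N := ⟨Nat.card (Mag R1) * Nat.card (Mag (ZMod 8)), rfl⟩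
  set k := res l N with hkdef
  have hk8 : k ≡ 3 [MOD 8] := by
    have := res_modEq l hN3
    rw [hl] at this
    exact this
  have hkz : (k : ZMod 8) = 3 := by
    have := (ZMod.natCast_eq_natCast_iff k 3 8).2 hk8
    exact_mod_cast this
  have hkodd : Odd k := by
    rw [Nat.odd_iff]
    have : k % 8 = 3 := hk8
    omega
  obtain ⟨C, hC, hg1, hg2⟩ := geo_se k
  rw [hkz] at hC hg1 hg2
  -- approximation of `u` and `v`
  have hopen : IsOpen ((((((mag s (1 : R1ˣ)).prod (mag s⁻¹ (1 : R1ˣ))).prod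
      ((mag s (-1 : R1ˣ)).prod (mag s⁻¹ (-1 : R1ˣ)))).prod
        (mag (-1 : (ZMod 8)ˣ) (-1 : (ZMod 8)ˣ))).ker : Subgroup F2) : Set F2) :=
    isOpen_ker_prod _ _ (isOpen_ker_prod _ _ (isOpen_ker_prod _ _ (mag_open _ _) (mag_open _ _))
      (isOpen_ker_prod _ _ (mag_open _ _) (mag_open _ _))) (mag_open _ _)
  obtain ⟨u0, hu0⟩ := exists_approx _ hopen u
  obtain ⟨v0, hv0⟩ := exists_approx _ hopen v
  simp only [MonoidHom.prod_apply, Prod.mk.injEq, mag_eta] at hu0 hv0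
  obtain ⟨⟨⟨hu1, hu2⟩, hu3, hu4⟩, hu5⟩ := hu0
  obtain ⟨⟨⟨hv1, hv2⟩, hv3, hv4⟩, hv5⟩ := hv0
  -- the powers
  have hXt : ∀ t1 t2 : R1ˣ, mag t1 t2 (α X) =
      mag t1 t2 u * (⟨1, 0, t1⟩ : Mag R1) ^ k * (mag t1 t2 u)⁻¹ := by
    intro t1 t2
    rw [hX, mag_conj_ppow _ _ _ _ _ N hN1, mag_X]
  have hYt : ∀ t1 t2 : R1ˣ, mag t1 t2 (α Y) =
      mag t1 t2 v * (⟨0, 1, t2⟩ : Mag R1) ^ k * (mag t1 t2 v)⁻¹ := by
    intro t1 t2
    rw [hY, mag_conj_ppow _ _ _ _ _ N hN1, mag_Y]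
  have hXt' : ∀ t1 t2 : (ZMod 8)ˣ, mag t1 t2 (α X) =
      mag t1 t2 u * (⟨1, 0, t1⟩ : Mag (ZMod 8)) ^ k * (mag t1 t2 u)⁻¹ := by
    intro t1 t2
    rw [hX, mag_conj_ppow _ _ _ _ _ N hN2, mag_X]
  have hYt' : ∀ t1 t2 : (ZMod 8)ˣ, mag t1 t2 (α Y) =
      mag t1 t2 v * (⟨0, 1, t2⟩ : Mag (ZMod 8)) ^ k * (mag t1 t2 v)⁻¹ := by
    intro t1 t2
    rw [hY, mag_conj_ppow _ _ _ _ _ N hN2, mag_Y]
  have hXYt : mag (-1 : (ZMod 8)ˣ) (-1) (α (X * Y)) = mag (-1 : (ZMod 8)ˣ) (-1) (X * Y) ^ k := by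
    have h := mag_conj_ppow (-1 : (ZMod 8)ˣ) (-1) 1 (X * Y) l N hN2
    rw [one_mul, inv_one, mul_one, map_one, one_mul, inv_one, mul_one] at h
    rw [hXY, h]
  -- data of the Laurent polynomial
  obtain ⟨f0, f1, f2, e1, e2, e3, e4, e5⟩ := eval_data (FF u0 v0)
  rw [ev1_FF] at e1 e2 e3 e4
  rw [← hs] at e1 e2
  -- values of the Jacobian of `α`
  have A1 : D s (1 : R1ˣ) α = dn 3 C * dn 3 0 * dn 1 (ax v0 : ℤ) := by
    rw [D_alpha s 1 k u v α (hXt s 1) (hYt s 1), hg1, geo_one, dn_nat0, hkz, ← hv1, ← hu1, mag0_t,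
      one_zpow, mul_one, dn_se]
    simp
  have A2 : D s⁻¹ (1 : R1ˣ) α = dn 3 (-C) * dn 3 0 * dn 1 (-(ax v0 : ℤ)) := by
    rw [D_alpha s⁻¹ 1 k u v α (hXt s⁻¹ 1) (hYt s⁻¹ 1), hg2, geo_one, dn_nat0, hkz, ← hv2, ← hu2,
      mag0_t, one_zpow, mul_one, dn_se_inv]
    simp
  have A3 : D s (-1 : R1ˣ) α = dn 3 C * (dn (sg (ay v0)) 0 * dn 1 (ax v0 : ℤ) +
      dn 2 0 * dn f0 f1) := by
    rw [D_alpha s (-1) k u v α (hXt s (-1)) (hYt s (-1)), hg1, geo_neg_one hkodd, ← hv3, ← hu3,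
      mag0_t, e1, Units.val_mul, dn_se, sg_cast, dn_int0, dn_int]
    have : (1 - ((-1 : R1ˣ) : R1)) = dn 2 0 := by
      rw [← dn_two]
      simp
      norm_num
    rw [this, mul_one, mul_comm (dn 1 _)]
  have A4 : D s⁻¹ (-1 : R1ˣ) α = dn 3 (-C) * (dn (sg (ay v0)) 0 * dn 1 (-(ax v0 : ℤ)) +
      dn 2 0 * dn f0 (-f1)) := by
    rw [D_alpha s⁻¹ (-1) k u v α (hXt s⁻¹ (-1)) (hYt s⁻¹ (-1)), hg2, geo_neg_one hkodd, ← hv4,
      ← hu4, mag0_t, e2, Units.val_mul, dn_se_inv, sg_cast, dn_int0]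
    have : (1 - ((-1 : R1ˣ) : R1)) = dn 2 0 := by
      rw [← dn_two]
      simp
      norm_num
    have h2 : (f0 : R1) - (f1 : R1) * DualNumber.eps = dn f0 (-f1) := by
      have h3 := dn_int f0 (-f1)
      push_cast at h3
      rw [← h3]
      ring
    rw [this, mul_one, mul_comm (dn 1 _), h2]
  -- the relation
  obtain ⟨θ, g, hθ, hrel⟩ := hyp (Mag R1 × Mag R1) ((mag s (1 : R1ˣ)).prod (mag s (-1 : R1ˣ)))
    (isOpen_ker_prod _ _ (mag_open _ _) (mag_open _ _))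
  obtain ⟨g0, hg0⟩ := exists_approx ((mag s (1 : R1ˣ)).prod (mag s (-1 : R1ˣ)))
    (isOpen_ker_prod _ _ (mag_open _ _) (mag_open _ _)) g
  simp only [MonoidHom.prod_apply, Prod.mk.injEq, mag_eta] at hg0
  obtain ⟨hg01, hg02⟩ := hg0
  have r1 := D_rel s 1 α (tau.comp (α.comp tau)) θ g hθ (fun a => congrArg Prod.fst (hrel a))
  have r2 := D_rel s (-1) α (tau.comp (α.comp tau)) θ g hθ (fun a => congrArg Prod.snd (hrel a))
  rw [D_conj_tau α s 1 k hkodd (by simp) (by rw [hYt, conj_pow_t])] at r1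
  rw [D_conj_tau α s (-1) k hkodd (by simp) (by rw [hYt, conj_pow_t])] at r2
  obtain ⟨i, wp, wm, hwp, hwm, hD⟩ := disc_det hθ
  rw [(hD R1 s).1, A1, A2, ← hg01, mag0_t, one_zpow, mul_one, dn_se, dn_se, dn_int0] at r1
  rw [(hD R1 s).2, A3, A4, ← hg02, mag0_t, Units.val_mul, dn_se, dn_se, sg_cast, dn_int0,
    dn_int0] at r2
  -- the condition at `(-1, -1)`
  have hxy := xy_condition k u v α hkodd (hXt' (-1) (-1)) (hYt' (-1) (-1)) hXYt
  rw [← hu5, ← hv5, e3, mag0_t, Units.val_mul, sg_cast, sg_cast, hkz] at hxy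
  -- the fundamental formula
  have hfv := mag0_fund (R := ℤ) 1 (-1) v0
  have hfu := mag0_fund (R := ℤ) 1 (-1) u0
  rw [mag0_t, one_zpow, one_mul, sg_cast] at hfv hfu
  have hfund : 2 * f0 = sg (ay u0) - sg (ay v0) := by
    have hh : ((-1 : ℤˣ) : ℤ) = -1 := rfl
    have hh1 : ((1 : ℤˣ) : ℤ) = 1 := rfl
    rw [hh, hh1] at hfu hfv
    simp only [Int.cast_id] at hfu hfv
    linear_combination hfv - hfu - 2 * e4
  have hfund8 : 2 * (f0 : ZMod 8) = (sg (ay u0) : ZMod 8) - (sg (ay v0) : ZMod 8) := by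
    exact_mod_cast congrArg (fun z : ℤ => (z : ZMod 8)) hfund
  have hf8 : 2 * (f2 : ZMod 8) = 2 * (f0 : ZMod 8) - 4 * (f1 : ZMod 8) := by
    obtain ⟨z, hz⟩ := e5
    have h8 : (8 : ZMod 8) = 0 := by decide
    have h9 := congrArg (fun z : ℤ => (z : ZMod 8)) hz
    push_cast at h9
    linear_combination 2 * h9 + (z : ZMod 8) * h8
  refine arith (ax v0 : ℤ) (i : ℤ) (ax g0 : ℤ) wp wm (sg (ay v0)) (sg (ay u0)) (sg (ay g0))
    f0 f1 f2 (sg (ax v0)) C ?_ ?_ (sg_cast_cases _) (sg_cast_cases _) (sg_cast_cases _)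
    (sg_cast_cases _) hC (sg_four _) hf8 hfund8 hxy r1 r2
  · rcases hwp with h | h <;> rw [h] <;> simp
  · rcases hwm with h | h <;> rw [h] <;> simp

end Pool.Agent.Helper75.CoreFinal
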