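import Mathlib

/-! Finite group theory: simultaneous coprime powers of two elements and of their product can be
realised up to conjugacy. -/

namespace Pool.Agent.Helper75.Exist

open MonoidAlgebra

section

variable {G : Type} [Group G] [Fintype G] [DecidableEq G] {p : ℕ} [Fact p.Prime]

/-- the matrix of left multiplication by `g` -/
def P (p : ℕ) (g : G) : Matrix G G (ZMod p) := fun i j => if i = g * j then 1 else 0

def PHom (p : ℕ) : G →* Matrix G G (ZMod p) where
  toFun := P p
  map_one' := by
    ext i j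
    simp only [P, one_mul, Matrix.one_apply]
  map_mul' := by
    intro g h
    ext i j
    rw [Matrix.mul_apply]
    simp only [P]
    rw [Finset.sum_eq_single (h * j)]
    · simp [mul_assoc]
    · intro b _ hb
      simp [hb]
    · intro hh
      exact absurd (Finset.mem_univ _) hh

lemma trace_P (g : G) : (P p g).trace = if g = 1 then (Fintype.card G : ZMod p) else 0 := by
  rw [Matrix.trace]
  simp only [Matrix.diag_apply, P, right_eq_mul]
  split_ifs with h
  · simp
  · simp

/-- the regular representation on the group algebra -/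
noncomputable def T (p : ℕ) [Fact p.Prime] :
    MonoidAlgebra (ZMod p) G →ₐ[ZMod p] Matrix G G (ZMod p) :=
  MonoidAlgebra.lift (ZMod p) _ G (PHom p)

lemma trace_T (w : MonoidAlgebra (ZMod p) G) :
    (T p w).trace = (Fintype.card G : ZMod p) * w.coeff 1 := by
  induction w using MonoidAlgebra.induction_linear with
  | zero => simp
  | add f g hf hg =>
    rw [map_add, Matrix.trace_add, hf, hg, MonoidAlgebra.coeff_add]
    simp [mul_add]
  | single m r =>
    rw [T, MonoidAlgebra.lift_single, Matrix.trace_smul]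
    have : (PHom p) m = P p m := rfl
    rw [this, trace_P, MonoidAlgebra.coeff_single, Finsupp.single_apply]
    split_ifs <;> simp [mul_comm]

lemma coeff_pow_one (hp : Fintype.card G < p) (w : MonoidAlgebra (ZMod p) G) :
    (w ^ p).coeff 1 = w.coeff 1 := by
  have h1 : (T p (w ^ p)).trace = (T p w).trace := by
    rw [map_pow, ZMod.trace_pow_card, ZMod.pow_card]
  rw [trace_T, trace_T] at h1
  have h2 : (Fintype.card G : ZMod p) ≠ 0 := by
    intro h
    rw [ZMod.natCast_eq_zero_iff] at h
    exact absurd (Nat.le_of_dvd Fintype.card_pos h) (not_le.2 hp)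
  exact mul_left_cancel₀ h2 h1

lemma coeff_pow (hp : Fintype.card G < p) (z : MonoidAlgebra (ZMod p) G)
    (hz : ∀ g, Commute z (single g 1)) (g : G) : (z ^ p).coeff (g ^ p) = z.coeff g := by
  have h1 := coeff_pow_one hp (z * single g⁻¹ 1)
  rw [(hz _).mul_pow, MonoidAlgebra.single_pow, one_pow, coeff_mul_single_apply,
    coeff_mul_single_apply] at h1
  simpa using h1

/-- class sum -/
noncomputable def S (p : ℕ) (a : G) : MonoidAlgebra (ZMod p) G :=
  ∑ u : G, single (u * a * u⁻¹) 1

lemma S_commute (a g : G) : Commute (S p a) (single g 1) := by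
  rw [Commute, SemiconjBy, S, Finset.sum_mul, Finset.mul_sum]
  simp only [single_mul_single, mul_one]
  rw [← Equiv.sum_comp (Equiv.mulLeft g)]
  apply Finset.sum_congr rfl
  intro u _
  congr 1
  simp only [Equiv.coe_mulLeft]
  group

lemma S_coeff (a g : G) : (S p a).coeff g =
    ((Finset.univ.filter fun u : G => u * a * u⁻¹ = g).card : ZMod p) := by
  rw [S, MonoidAlgebra.coeff_sum, Finsupp.finsetSum_apply]
  simp only [MonoidAlgebra.coeff_single, Finsupp.single_apply]
  rw [Finset.sum_boole]

lemma S_pow_support (hp : Fintype.card G < p) (a h : G) (hh : (S p a ^ p).coeff h ≠ 0) :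
    ∃ u : G, u * a ^ p * u⁻¹ = h := by
  have hco : (Nat.card G).Coprime p := by
    rw [Nat.coprime_comm, Nat.Prime.coprime_iff_not_dvd (Fact.out)]
    intro hd
    rw [Nat.card_eq_fintype_card] at hd
    exact absurd (Nat.le_of_dvd Fintype.card_pos hd) (not_le.2 hp)
  obtain ⟨g, hg⟩ := (powCoprime hco).surjective h
  have hg' : g ^ p = h := hg
  rw [← hg', coeff_pow hp _ (fun g => S_commute a g), S_coeff] at hh
  have h1 : (Finset.univ.filter fun u : G => u * a * u⁻¹ = g).card ≠ 0 := by
    intro h0
    rw [h0] at hh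
    exact hh (by simp)
  obtain ⟨u, hu⟩ := Finset.card_ne_zero.1 h1
  refine ⟨u, ?_⟩
  rw [← hg', ← (Finset.mem_filter.1 hu).2, conj_pow]

lemma exists_conj_pow_prime (hp : Fintype.card G ^ 2 < p) (a b : G) :
    ∃ u v : G, (u * a ^ p * u⁻¹) * (v * b ^ p * v⁻¹) = (a * b) ^ p := by
  have hp1 : Fintype.card G < p := by
    have : Fintype.card G ≤ Fintype.card G ^ 2 := Nat.le_self_pow (by norm_num) _
    omega
  have hcomm : ∀ g, Commute (S p a * S p b) (single g (1 : ZMod p)) := fun g =>
    (S_commute a g).mul_left (S_commute b g)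
  have hab : Commute (S p a) (S p b) := by
    rw [S.eq_1 p b]
    exact Commute.sum_right _ _ _ fun u _ => S_commute a _
  have h1 := coeff_pow hp1 (S p a * S p b) hcomm (a * b)
  have h2 : (S p a * S p b).coeff (a * b) ≠ 0 := by
    have h3 : (S p a * S p b).coeff (a * b) =
        ((Finset.univ.filter fun q : G × G =>
          (q.1 * a * q.1⁻¹) * (q.2 * b * q.2⁻¹) = a * b).card : ZMod p) := by
      rw [S, S, Finset.sum_mul_sum]
      simp only [single_mul_single, mul_one]
      rw [← Finset.sum_product', MonoidAlgebra.coeff_sum, Finsupp.finsetSum_apply]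
      simp only [MonoidAlgebra.coeff_single, Finsupp.single_apply]
      rw [Finset.sum_boole]
      rfl
    rw [h3]
    intro h0
    rw [ZMod.natCast_eq_zero_iff] at h0
    have h4 : (Finset.univ.filter fun q : G × G =>
          (q.1 * a * q.1⁻¹) * (q.2 * b * q.2⁻¹) = a * b).card ≤ Fintype.card G ^ 2 := by
      refine (Finset.card_filter_le _ _).trans ?_
      rw [Finset.card_univ, Fintype.card_prod, sq]
    have h5 : 0 < (Finset.univ.filter fun q : G × G =>
          (q.1 * a * q.1⁻¹) * (q.2 * b * q.2⁻¹) = a * b).card := by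
      apply Finset.card_pos.2
      exact ⟨(1, 1), by simp⟩
    exact absurd (Nat.le_of_dvd h5 h0) (by omega)
  rw [← h1, hab.mul_pow, coeff_mul_apply_left, Finsupp.sum] at h2
  obtain ⟨h, _, hh⟩ := Finset.exists_ne_zero_of_sum_ne_zero h2
  have hA := left_ne_zero_of_mul hh
  have hB := right_ne_zero_of_mul hh
  obtain ⟨u, hu⟩ := S_pow_support hp1 a h hA
  obtain ⟨v, hv⟩ := S_pow_support hp1 b _ hB
  refine ⟨u, v, ?_⟩
  rw [hu, hv]
  group

end

/-- Simultaneous coprime powers of `a`, `b` and `a b` can be realised up to conjugacy. -/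
theorem exists_conj_pow {G : Type} [Group G] [Finite G] (a b : G) (k : ℕ)
    (hk : Nat.Coprime k (Nat.card G)) :
    ∃ u v : G, (u * a ^ k * u⁻¹) * (v * b ^ k * v⁻¹) = (a * b) ^ k := by
  classical
  have := Fintype.ofFinite G
  have hne : NeZero (Nat.card G) := ⟨Nat.card_pos.ne'⟩
  have hu : IsUnit ((k : ℕ) : ZMod (Nat.card G)) := (ZMod.isUnit_iff_coprime k _).2 hk
  obtain ⟨p, hpn, hpp, heq⟩ :=
    Nat.forall_exists_prime_gt_and_eq_mod hu (Fintype.card G ^ 2)
  have : Fact p.Prime := ⟨hpp⟩
  have hmod : p ≡ k [MOD Nat.card G] := (ZMod.natCast_eq_natCast_iff _ _ _).1 heq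
  have hpow : ∀ g : G, g ^ p = g ^ k := fun g =>
    pow_eq_pow_iff_modEq.2 (hmod.of_dvd (orderOf_dvd_natCard g))
  obtain ⟨u, v, h⟩ := exists_conj_pow_prime hpn a b
  refine ⟨u, v, ?_⟩
  rw [← hpow a, ← hpow b, ← hpow (a * b)]
  exact h

end Pool.Agent.Helper75.Exist
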