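import Mathlib
import Pool.Agent.Helper75.Defs
import Pool.Agent.Helper75.F2Defs
import Pool.Agent.Helper75.Basic
import Pool.Agent.Helper75.F2Lemmas
import Pool.Agent.Helper75.Rigid
import Pool.Agent.Helper75.Exist

namespace Pool.Agent.Helper75.Exist2

open Pool.Agent.Helper75.Defs Pool.Agent.Helper75.F2Defs Pool.Agent.Helper75.Basic
  Pool.Agent.Helper75.F2Lemmas Pool.Agent.Helper75.Rigid Pool.Agent.Helper75.Exist

/-- Simultaneous powers in a profinite group. -/
theorem exists_conj_ppow {G : Type} [Group G] [TopologicalSpace G] [IsTopologicalGroup G]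
    [CompactSpace G] [TotallyDisconnectedSpace G] (a b : G) (l : Zhatˣ) :
    ∃ u v : G, (u * ppow a (l : Zhat) * u⁻¹) * (v * ppow b (l : Zhat) * v⁻¹) =
      ppow (a * b) (l : Zhat) := by
  let f : G × G → G := fun q =>
    (q.1 * ppow a (l : Zhat) * q.1⁻¹) * (q.2 * ppow b (l : Zhat) * q.2⁻¹)
  have hf : Continuous f := by fun_prop
  have hcl : IsClosed (Set.range f) := (isCompact_range hf).isClosed
  by_contra hcon
  have hC : ppow (a * b) (l : Zhat) ∉ Set.range f := by
    rintro ⟨q, hq⟩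
    exact hcon ⟨q.1, q.2, hq⟩
  have hopen : IsOpen ((fun g => ppow (a * b) (l : Zhat) * g) ⁻¹' (Set.range f)ᶜ) :=
    hcl.isOpen_compl.preimage (continuous_const_mul _)
  obtain ⟨N, hN⟩ := ProfiniteGrp.exist_openNormalSubgroup_sub_open_nhds_of_one hopen
    (by
      show ppow (a * b) (l : Zhat) * 1 ∈ (Set.range f)ᶜ
      rw [mul_one]
      exact hC)
  have hfin : Finite (G ⧸ N.toSubgroup) := inferInstance
  obtain ⟨u, v, huv⟩ := exists_conj_pow (QuotientGroup.mk a : G ⧸ N.toSubgroup)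
    (QuotientGroup.mk b) (res (l : Zhat) (pcard N)) (res_unit_coprime l (pcard N))
  obtain ⟨u, rfl⟩ := QuotientGroup.mk_surjective u
  obtain ⟨v, rfl⟩ := QuotientGroup.mk_surjective v
  have h1 : (QuotientGroup.mk (f (u, v)) : G ⧸ N.toSubgroup) =
      QuotientGroup.mk (ppow (a * b) (l : Zhat)) := by
    rw [mk_ppow, QuotientGroup.mk_mul N.toSubgroup a b, ← huv]
    simp only [f, QuotientGroup.mk_mul, QuotientGroup.mk_inv, mk_ppow]
  have h2 : (ppow (a * b) (l : Zhat))⁻¹ * f (u, v) ∈ N.toSubgroup := QuotientGroup.eq.1 h1.symm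
  have h3 := hN h2
  apply h3
  refine ⟨(u, v), ?_⟩
  show f (u, v) = ppow (a * b) (l : Zhat) * ((ppow (a * b) (l : Zhat))⁻¹ * f (u, v))
  group

/-- For every unit `l` there is a continuous automorphism of the free profinite group on
`x, y` which sends `x`, `y` to conjugates of `x ^ l`, `y ^ l` and `x y` to `(x y) ^ l`. -/
theorem exists_auto (l : Zhatˣ) : ∃ (α : F2 →ₜ* F2) (u v : F2),
    α X = u * ppow X l * u⁻¹ ∧ α Y = v * ppow Y l * v⁻¹ ∧ α (X * Y) = ppow (X * Y) l ∧
      Function.Bijective α := by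
  obtain ⟨u, v, h⟩ := exists_conj_ppow X Y l
  refine ⟨ev (u * ppow X l * u⁻¹) (v * ppow Y l * v⁻¹), u, v, ev_X _ _, ev_Y _ _, ?_, ?_⟩
  · rw [map_mul, ev_X, ev_Y, h]
  · have hs : Function.Surjective (ev (u * ppow X l * u⁻¹) (v * ppow Y l * v⁻¹)) := by
      apply surjective_of_conj _ l u v 1 (ev_X _ _) (ev_Y _ _)
      rw [map_mul, ev_X, ev_Y, h]
      group
    exact ⟨injective_of_surjective _ hs, hs⟩

end Pool.Agent.Helper75.Exist2
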