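import Mathlib
import Pool.Agent.Helper75.Defs
import Pool.Agent.Helper75.Basic

namespace Pool.Agent.Helper75.LacDefs

open Pool.Agent.Helper75.Defs Pool.Agent.Helper75.Basic

/-- The relator `[x_1,y_1] ⋯ [x_g,y_g] l_1 ⋯ l_n`. -/
def relator (g n : ℕ) : FreeGroup ((Fin g ⊕ Fin g) ⊕ Fin n) :=
  (List.ofFn fun i : Fin g =>
    FreeGroup.of (Sum.inl (Sum.inl i)) * FreeGroup.of (Sum.inl (Sum.inr i)) *
    (FreeGroup.of (Sum.inl (Sum.inl i)))⁻¹ * (FreeGroup.of (Sum.inl (Sum.inr i)))⁻¹).prod *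
  (List.ofFn fun j : Fin n => FreeGroup.of (Sum.inr j)).prod

/-- The surface group `π_{g,n}`. -/
def SurfGroup (g n : ℕ) : Type := PresentedGroup {relator g n}

instance instGroupSurf (g n : ℕ) : Group (SurfGroup g n) :=
  (inferInstance : Group (PresentedGroup {relator g n}))

/-- The profinite completion of `π_{g,n}`. -/
abbrev PiHat (g n : ℕ) : Type := PC (SurfGroup g n)

/-- The loop `l_i` as an element of the profinite completion of `π_{g,n}`. -/
def loop {g n : ℕ} (i : Fin n) : PiHat g n :=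
  eta (SurfGroup g n) (PresentedGroup.of (rels := {relator g n}) (Sum.inr i))

/-- A profinite integer is a unit: all its residues are invertible. -/
def IsUnitZ (l : Zhat) : Prop := ∀ n : ℕ+, Nat.Coprime (res l n) n

/-- `f` sends every loop `l_i` to a conjugate of `l_{σ(i)} ^ l`, for some permutation `σ`. -/
def LacWith {g n : ℕ} (l : Zhat) (f : PiHat g n → PiHat g n) : Prop :=
  ∃ (σ : Equiv.Perm (Fin n)) (a : Fin n → PiHat g n),
    ∀ i, f (loop i) = a i * ppow (loop (σ i)) l * (a i)⁻¹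

/-- `f` sends every loop `l_i` to a conjugate of `l_{σ(i)}`, for some permutation `σ`. -/
def LacOne {g n : ℕ} (f : PiHat g n → PiHat g n) : Prop :=
  ∃ (σ : Equiv.Perm (Fin n)) (a : Fin n → PiHat g n),
    ∀ i, f (loop i) = a i * loop (σ i) * (a i)⁻¹

/-- `Aut_lac`: the continuous automorphisms sending every `l_i` to a conjugate of
`l_{σ(i)} ^ λ`, for some unit `λ` of the profinite integers and some permutation `σ`. -/
structure AutLac (g n : ℕ) where
  toFun : PiHat g n → PiHat g n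
  invFun : PiHat g n → PiHat g n
  left_inv : ∀ a, invFun (toFun a) = a
  right_inv : ∀ a, toFun (invFun a) = a
  map_mul : ∀ a b, toFun (a * b) = toFun a * toFun b
  continuous_toFun : Continuous toFun
  continuous_invFun : Continuous invFun
  lac : ∃ l : Zhat, IsUnitZ l ∧ LacWith l toFun

variable {g n : ℕ}

/-! ### closure properties -/

lemma AutLac.ext' {φ ψ : AutLac g n} (h : ∀ a, φ.toFun a = ψ.toFun a) : φ = ψ := by
  have h1 : φ.toFun = ψ.toFun := funext h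
  have h2 : φ.invFun = ψ.invFun := by
    funext a
    calc φ.invFun a = φ.invFun (ψ.toFun (ψ.invFun a)) := by rw [ψ.right_inv]
      _ = φ.invFun (φ.toFun (ψ.invFun a)) := by rw [h]
      _ = ψ.invFun a := φ.left_inv _
  cases φ
  cases ψ
  simp only at h1 h2
  subst h1
  subst h2
  rfl

/-- an element of `AutLac` as a continuous homomorphism -/
def AutLac.toC (φ : AutLac g n) : PiHat g n →ₜ* PiHat g n :=
  ⟨MonoidHom.mk' φ.toFun φ.map_mul, φ.continuous_toFun⟩

lemma AutLac.toC_apply (φ : AutLac g n) (a : PiHat g n) : φ.toC a = φ.toFun a := rfl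

/-- the inverse of an element of `AutLac` as a continuous homomorphism -/
def AutLac.toCinv (φ : AutLac g n) : PiHat g n →ₜ* PiHat g n :=
  ⟨MonoidHom.mk' φ.invFun (by
    intro a b
    calc φ.invFun (a * b) = φ.invFun (φ.toFun (φ.invFun a) * φ.toFun (φ.invFun b)) := by
          rw [φ.right_inv, φ.right_inv]
      _ = φ.invFun (φ.toFun (φ.invFun a * φ.invFun b)) := by rw [φ.map_mul]
      _ = φ.invFun a * φ.invFun b := φ.left_inv _), φ.continuous_invFun⟩

lemma exists_unit (l : Zhat) (h : IsUnitZ l) : ∃ u : Zhatˣ, (u : Zhat) = l := by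
  let w : ∀ n : ℕ+, (ZMod n)ˣ := fun n => ZMod.unitOfCoprime (res l n) (h n)
  have hw : ∀ n : ℕ+, (w n : ZMod n) = l.1 n := by
    intro n
    show ((res l n : ℕ) : ZMod n) = l.1 n
    exact ZMod.natCast_zmod_val _
  let v : Zhat := (⟨fun n => ((w n)⁻¹ : (ZMod n)ˣ), by
    intro m n hmn
    have h1 : Units.map (ZMod.castHom hmn (ZMod m) : ZMod n →* ZMod m) (w n) = w m := by
      ext
      rw [Units.coe_map, hw, hw]
      exact l.2 m n hmn
    show (ZMod.castHom hmn (ZMod m)) ((w n)⁻¹ : (ZMod n)ˣ) = ((w m)⁻¹ : (ZMod m)ˣ)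
    rw [← h1, ← map_inv, Units.coe_map]
    rfl⟩ : ZhatRing)
  have hv : l * v = 1 := by
    apply Subtype.ext
    funext n
    show l.1 n * ((w n)⁻¹ : (ZMod n)ˣ) = 1
    rw [← hw, Units.mul_inv]
  exact ⟨⟨l, v, hv, by rw [mul_comm]; exact hv⟩, rfl⟩

lemma isUnitZ_unit (l : Zhatˣ) : IsUnitZ (l : Zhat) := by
  intro n
  have h := res_mul (l : Zhat) ((l⁻¹ : Zhatˣ) : Zhat) n
  rw [Units.mul_inv] at h
  have h2 := h.symm.trans (res_one n)
  have h3 : Nat.gcd (res (l : Zhat) n * res ((l⁻¹ : Zhatˣ) : Zhat) n) n = 1 := by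
    rw [h2.gcd_eq]
    simp
  exact Nat.Coprime.coprime_mul_right h3

lemma LacWith.comp {l l' : Zhat} (φ : PiHat g n →ₜ* PiHat g n) {f : PiHat g n → PiHat g n}
    (hφ : LacWith l φ) (hf : LacWith l' f) : LacWith (l * l') (fun a => φ (f a)) := by
  obtain ⟨σ, a, ha⟩ := hφ
  obtain ⟨τ, b, hb⟩ := hf
  refine ⟨σ * τ, fun i => φ (b i) * a (τ i), fun i => ?_⟩
  simp only
  rw [hb, _root_.map_mul, _root_.map_mul, map_inv, map_ppow, ha, ppow_conj,
    ← Pool.Agent.Helper75.Basic.ppow_mul, Equiv.Perm.mul_apply]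
  group

lemma LacWith.inverse {l : Zhatˣ} (φ : PiHat g n →ₜ* PiHat g n) {f : PiHat g n → PiHat g n}
    (h : ∀ a, φ (f a) = a) (hf : LacWith (l : Zhat) f) :
    LacWith ((l⁻¹ : Zhatˣ) : Zhat) φ := by
  obtain ⟨σ, a, ha⟩ := hf
  refine ⟨σ⁻¹, fun i => (φ (a (σ⁻¹ i)))⁻¹, fun i => ?_⟩
  have h0 := ha (σ⁻¹ i)
  have h1 : σ (σ⁻¹ i) = i := by rw [← Equiv.Perm.mul_apply, mul_inv_cancel, Equiv.Perm.one_apply]
  rw [h1] at h0
  have h2 := congrArg (fun t => φ t) h0
  simp only [h, _root_.map_mul, map_inv, map_ppow] at h2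
  have h4 : ppow (φ (loop i)) (l : Zhat) =
      (φ (a (σ⁻¹ i)))⁻¹ * loop (σ⁻¹ i) * (φ (a (σ⁻¹ i))) := by
    rw [h2]; group
  have h5 : ppow (ppow (φ (loop i)) (l : Zhat)) ((l⁻¹ : Zhatˣ) : Zhat) =
      ppow ((φ (a (σ⁻¹ i)))⁻¹ * loop (σ⁻¹ i) * ((φ (a (σ⁻¹ i)))⁻¹)⁻¹)
        ((l⁻¹ : Zhatˣ) : Zhat) := by
    rw [h4, inv_inv]
  rw [← Pool.Agent.Helper75.Basic.ppow_mul, Units.mul_inv, Pool.Agent.Helper75.Basic.ppow_one,
    ppow_conj] at h5
  exact h5

lemma LacOne.with {f : PiHat g n → PiHat g n} (hf : LacOne f) : LacWith 1 f := by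
  obtain ⟨σ, a, ha⟩ := hf
  exact ⟨σ, a, fun i => by rw [Pool.Agent.Helper75.Basic.ppow_one, ha]⟩

lemma LacWith.one {f : PiHat g n → PiHat g n} (hf : LacWith 1 f) : LacOne f := by
  obtain ⟨σ, a, ha⟩ := hf
  exact ⟨σ, a, fun i => by rw [ha, Pool.Agent.Helper75.Basic.ppow_one]⟩

lemma lacOne_conj (a : PiHat g n) : LacOne (fun b => a * b * a⁻¹) :=
  ⟨1, fun _ => a, fun i => by rw [Equiv.Perm.one_apply]⟩

/-- composition -/
def AutLac.comp (φ ψ : AutLac g n) : AutLac g n where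
  toFun := fun a => φ.toFun (ψ.toFun a)
  invFun := fun a => ψ.invFun (φ.invFun a)
  left_inv := fun a => by rw [φ.left_inv, ψ.left_inv]
  right_inv := fun a => by rw [ψ.right_inv, φ.right_inv]
  map_mul := fun a b => by rw [ψ.map_mul, φ.map_mul]
  continuous_toFun := φ.continuous_toFun.comp ψ.continuous_toFun
  continuous_invFun := ψ.continuous_invFun.comp φ.continuous_invFun
  lac := by
    obtain ⟨l, hl, hl'⟩ := φ.lac
    obtain ⟨m, hm, hm'⟩ := ψ.lac
    obtain ⟨u, rfl⟩ := exists_unit l hl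
    obtain ⟨v, rfl⟩ := exists_unit m hm
    refine ⟨((u * v : Zhatˣ) : Zhat), isUnitZ_unit _, ?_⟩
    rw [Units.val_mul]
    exact LacWith.comp φ.toC hl' hm'

/-- conjugation by `a` -/
def AutLac.conj (a : PiHat g n) : AutLac g n where
  toFun := fun b => a * b * a⁻¹
  invFun := fun b => a⁻¹ * b * a
  left_inv := fun b => by group
  right_inv := fun b => by group
  map_mul := fun b c => by group
  continuous_toFun := by fun_prop
  continuous_invFun := by fun_prop
  lac := ⟨1, isUnitZ_unit 1, (lacOne_conj a).with⟩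

/-- inverse -/
def AutLac.inverse (φ : AutLac g n) : AutLac g n where
  toFun := φ.invFun
  invFun := φ.toFun
  left_inv := φ.right_inv
  right_inv := φ.left_inv
  map_mul := φ.toCinv.map_mul'
  continuous_toFun := φ.continuous_invFun
  continuous_invFun := φ.continuous_toFun
  lac := by
    obtain ⟨l, hl, hl'⟩ := φ.lac
    obtain ⟨u, rfl⟩ := exists_unit l hl
    exact ⟨((u⁻¹ : Zhatˣ) : Zhat), isUnitZ_unit _, LacWith.inverse φ.toCinv φ.left_inv hl'⟩

/-- the identity -/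
def AutLac.id (g n : ℕ) : AutLac g n where
  toFun := fun a => a
  invFun := fun a => a
  left_inv := fun _ => rfl
  right_inv := fun _ => rfl
  map_mul := fun _ _ => rfl
  continuous_toFun := continuous_id
  continuous_invFun := continuous_id
  lac := ⟨1, isUnitZ_unit 1, 1, fun _ => 1, fun i => by
    rw [Pool.Agent.Helper75.Basic.ppow_one, Equiv.Perm.one_apply, one_mul, inv_one, mul_one]⟩

instance instMulAutLac (g n : ℕ) : Mul (AutLac g n) := ⟨AutLac.comp⟩
instance instOneAutLac (g n : ℕ) : One (AutLac g n) := ⟨AutLac.id g n⟩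
instance instInvAutLac (g n : ℕ) : Inv (AutLac g n) := ⟨AutLac.inverse⟩

/-- the group structure on `Aut_lac`, with composition as product -/
instance instGroupAutLac (g n : ℕ) : Group (AutLac g n) :=
  Group.ofLeftAxioms (fun _ _ _ => rfl) (fun _ => rfl) (fun φ => AutLac.ext' φ.left_inv)

/-- The inner automorphisms. -/
def InnLac (g n : ℕ) : Subgroup (AutLac g n) where
  carrier := {φ | ∃ a, ∀ b, φ.toFun b = a * b * a⁻¹}
  mul_mem' := by
    rintro φ ψ ⟨a, ha⟩ ⟨b, hb⟩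
    refine ⟨a * b, fun c => ?_⟩
    show φ.toFun (ψ.toFun c) = _
    rw [hb, ha]
    group
  one_mem' := ⟨1, fun c => by
    show c = _
    group⟩
  inv_mem' := by
    rintro φ ⟨a, ha⟩
    refine ⟨a⁻¹, fun c => ?_⟩
    show φ.invFun c = _
    have h1 : φ.toFun (a⁻¹ * c * a⁻¹⁻¹) = c := by
      rw [ha]; group
    calc φ.invFun c = φ.invFun (φ.toFun (a⁻¹ * c * a⁻¹⁻¹)) := by rw [h1]
      _ = a⁻¹ * c * a⁻¹⁻¹ := φ.left_inv _

instance instNormalInnLac (g n : ℕ) : (InnLac g n).Normal := by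
  constructor
  rintro φ ⟨a, ha⟩ ψ
  refine ⟨ψ.toFun a, fun b => ?_⟩
  show ψ.toFun (φ.toFun (ψ.invFun b)) = _
  rw [ha, ψ.map_mul, ψ.map_mul, ψ.right_inv]
  have h1 : ψ.toFun a⁻¹ = (ψ.toFun a)⁻¹ := map_inv ψ.toC a
  rw [h1]

/-- The outer group `𝕋_{g,n} = Aut_lac / Inn`. -/
def TT (g n : ℕ) : Type := AutLac g n ⧸ InnLac g n

instance instGroupTT (g n : ℕ) : Group (TT g n) :=
  (inferInstance : Group (AutLac g n ⧸ InnLac g n))

/-- The class of an automorphism in `𝕋_{g,n}`. -/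
def cls {g n : ℕ} (φ : AutLac g n) : TT g n := QuotientGroup.mk φ

/-- The discrete automorphisms: those that map `π_{g,n}` onto itself. -/
def IsDisc {g n : ℕ} (φ : AutLac g n) : Prop :=
  φ.toFun '' Set.range (eta (SurfGroup g n)) = Set.range (eta (SurfGroup g n))

/-- The closure of the discrete automorphisms in `Aut_lac` for the profinite topology: `φ` such
that for every open normal subgroup `N` some discrete `ψ` agrees with `φ` modulo `N`. -/
def InClosure {g n : ℕ} (φ : AutLac g n) : Prop :=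
  ∀ N : OpenNormalSubgroup (PiHat g n), ∃ ψ : AutLac g n, IsDisc ψ ∧
    ∀ a, φ.toFun a * (ψ.toFun a)⁻¹ ∈ N.toSubgroup

lemma IsDisc.mul {φ ψ : AutLac g n} (h1 : IsDisc φ) (h2 : IsDisc ψ) : IsDisc (φ * ψ) := by
  show (fun a => φ.toFun (ψ.toFun a)) '' _ = _
  have : (fun a => φ.toFun (ψ.toFun a)) = φ.toFun ∘ ψ.toFun := rfl
  unfold IsDisc at h1 h2
  rw [this, Set.image_comp, h2, h1]

lemma IsDisc.one : IsDisc (1 : AutLac g n) := by
  show (fun a => a) '' _ = _
  simp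

lemma IsDisc.inv {φ : AutLac g n} (h1 : IsDisc φ) : IsDisc φ⁻¹ := by
  show φ.invFun '' _ = _
  unfold IsDisc at h1
  conv_lhs => rw [← h1]
  rw [Set.image_image]
  simp only [φ.left_inv, Set.image_id']

lemma InClosure.mul {φ φ' : AutLac g n} (h1 : InClosure φ) (h2 : InClosure φ') :
    InClosure (φ * φ') := by
  intro N
  obtain ⟨ψ, hψ, hψN⟩ := h1 N
  let N' : OpenNormalSubgroup (PiHat g n) :=
    { toSubgroup := N.toSubgroup.comap φ.toC.toMonoidHom
      isOpen' := N.isOpen'.preimage φ.continuous_toFun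
      isNormal' := Subgroup.Normal.comap N.isNormal' _ }
  obtain ⟨ψ', hψ', hψN'⟩ := h2 N'
  refine ⟨ψ * ψ', hψ.mul hψ', fun a => ?_⟩
  show φ.toC (φ'.toFun a) * (ψ.toFun (ψ'.toFun a))⁻¹ ∈ N.toSubgroup
  have h3 : φ.toC (φ'.toFun a * (ψ'.toFun a)⁻¹) ∈ N.toSubgroup := hψN' a
  have h4 : φ.toC (ψ'.toFun a) * (ψ.toFun (ψ'.toFun a))⁻¹ ∈ N.toSubgroup := hψN _
  have h5 := mul_mem h3 h4
  rw [_root_.map_mul, map_inv] at h5
  have h6 : φ.toC (φ'.toFun a) * (φ.toC (ψ'.toFun a))⁻¹ * (φ.toC (ψ'.toFun a) *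
    (ψ.toFun (ψ'.toFun a))⁻¹) = φ.toC (φ'.toFun a) * (ψ.toFun (ψ'.toFun a))⁻¹ := by group
  rwa [h6] at h5

lemma IsDisc.inClosure {φ : AutLac g n} (h : IsDisc φ) : InClosure φ := by
  intro N
  refine ⟨φ, h, fun a => ?_⟩
  rw [mul_inv_cancel]
  exact one_mem _

lemma InClosure.inv {φ : AutLac g n} (h1 : InClosure φ) : InClosure φ⁻¹ := by
  intro N
  let N' : OpenNormalSubgroup (PiHat g n) :=
    { toSubgroup := N.toSubgroup.comap φ.toCinv.toMonoidHom
      isOpen' := N.isOpen'.preimage φ.continuous_invFun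
      isNormal' := Subgroup.Normal.comap N.isNormal' _ }
  obtain ⟨ψ, hψ, hψN⟩ := h1 N'
  refine ⟨ψ⁻¹, hψ.inv, fun a => ?_⟩
  show φ.invFun a * (ψ.invFun a)⁻¹ ∈ N.toSubgroup
  have h2 : φ.toCinv (φ.toFun (ψ.invFun a) * (ψ.toFun (ψ.invFun a))⁻¹) ∈ N.toSubgroup := hψN _
  rw [_root_.map_mul, map_inv, ψ.right_inv] at h2
  have h7 : φ.toCinv (φ.toFun (ψ.invFun a)) = ψ.invFun a := φ.left_inv _
  rw [h7] at h2
  have h3 := inv_mem h2
  have h4 : (ψ.invFun a * (φ.toCinv a)⁻¹)⁻¹ = φ.toCinv a * (ψ.invFun a)⁻¹ := by group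
  rwa [h4] at h3

/-- The subgroup `𝔗̂⁺_{g,n}` of `𝕋_{g,n}` (for `n ≥ 1`): the classes of the elements of the
closure of the discrete automorphisms whose cyclotomic character is `1`. -/
def TPlus (g n : ℕ) : Subgroup (TT g n) where
  carrier := {t | ∃ φ : AutLac g n, InClosure φ ∧ LacOne φ.toFun ∧ cls φ = t}
  mul_mem' := by
    rintro _ _ ⟨φ, h1, h2, rfl⟩ ⟨ψ, h3, h4, rfl⟩
    refine ⟨φ * ψ, h1.mul h3, ?_, rfl⟩
    have h5 := LacWith.comp φ.toC h2.with h4.with
    rw [mul_one] at h5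
    exact h5.one
  one_mem' := by
    refine ⟨1, IsDisc.one.inClosure, ?_, rfl⟩
    have := lacOne_conj (1 : PiHat g n)
    simp only [one_mul, inv_one, mul_one] at this
    exact this
  inv_mem' := by
    rintro _ ⟨φ, h1, h2, rfl⟩
    refine ⟨φ⁻¹, h1.inv, ?_, rfl⟩
    have h3 := LacWith.inverse (l := 1) φ.toCinv φ.left_inv
      (by rw [Units.val_one]; exact h2.with)
    rw [inv_one, Units.val_one] at h3
    exact h3.one

end Pool.Agent.Helper75.LacDefs
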