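import Mathlib
import Pool.Agent.Helper75.Defs
import Pool.Agent.Helper75.F2Defs
import Pool.Agent.Helper75.Basic
import Pool.Agent.Helper75.F2Lemmas
import Pool.Agent.Helper75.LacDefs
import Pool.Agent.Helper75.Core

/-! The group `π_{0,4}`: gluing automorphisms of two free groups of rank two. -/

namespace Pool.Agent.Helper75.Four

open Pool.Agent.Helper75.Defs Pool.Agent.Helper75.F2Defs Pool.Agent.Helper75.Basic
  Pool.Agent.Helper75.F2Lemmas Pool.Agent.Helper75.LacDefs Pool.Agent.Helper75.Core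

/-- `π_{0,4}`, discrete -/
abbrev S4 : Type := SurfGroup 0 4

/-- profinite completion of `π_{0,4}` -/
abbrev P4 : Type := PiHat 0 4

/-- the discrete loops -/
def dl (i : Fin 4) : S4 := PresentedGroup.of (rels := {relator 0 4}) (Sum.inr i)

/-- the loops -/
def ell (i : Fin 4) : P4 := loop i

lemma ell_eq (i : Fin 4) : ell i = eta S4 (dl i) := rfl

lemma relator04 : relator 0 4 = FreeGroup.of (Sum.inr 0) * FreeGroup.of (Sum.inr 1) *
    FreeGroup.of (Sum.inr 2) * FreeGroup.of (Sum.inr 3) := by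
  simp [relator, List.ofFn_succ, mul_assoc]

lemma dl_prod : dl 0 * dl 1 * dl 2 * dl 3 = 1 := by
  have h : (PresentedGroup.mk {relator 0 4} (relator 0 4)) = 1 :=
    PresentedGroup.one_of_mem (Set.mem_singleton _)
  have h2 : (PresentedGroup.mk {relator 0 4} (FreeGroup.of (Sum.inr 0) * FreeGroup.of (Sum.inr 1) *
    FreeGroup.of (Sum.inr 2) * FreeGroup.of (Sum.inr 3))) = 1 := by
    rw [← relator04]; exact h
  rw [map_mul, map_mul, map_mul] at h2
  exact h2

lemma ell_prod : ell 0 * ell 1 * ell 2 * ell 3 = 1 := by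
  rw [ell_eq, ell_eq, ell_eq, ell_eq, ← map_mul, ← map_mul, ← map_mul, dl_prod, map_one]

lemma exists_disc {Q : Type} [Group Q] (q : Fin 4 → Q) (h : q 0 * q 1 * q 2 * q 3 = 1) :
    ∃ f : S4 →* Q, ∀ i, f (dl i) = q i := by
  let f : ((Fin 0 ⊕ Fin 0) ⊕ Fin 4) → Q := Sum.elim (Sum.elim Fin.elim0 Fin.elim0) q
  have hr : ∀ r ∈ ({relator 0 4} : Set (FreeGroup ((Fin 0 ⊕ Fin 0) ⊕ Fin 4))),
      FreeGroup.lift f r = 1 := by
    intro r hr
    rw [Set.mem_singleton_iff] at hr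
    rw [hr, relator04, map_mul, map_mul, map_mul, FreeGroup.lift_apply_of,
      FreeGroup.lift_apply_of, FreeGroup.lift_apply_of, FreeGroup.lift_apply_of]
    exact h
  exact ⟨PresentedGroup.toGroup hr, fun i => PresentedGroup.toGroup.of hr⟩

lemma disc_ext {Q : Type} [Group Q] {f g : S4 →* Q} (h : ∀ i, f (dl i) = g (dl i)) : f = g := by
  apply PresentedGroup.ext
  rintro ((x | x) | i)
  · exact x.elim0
  · exact x.elim0
  · exact h i

lemma P4_lift {Q : Type} [Group Q] [TopologicalSpace Q]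
    [IsTopologicalGroup Q] [CompactSpace Q] [TotallyDisconnectedSpace Q] (q : Fin 4 → Q)
    (h : q 0 * q 1 * q 2 * q 3 = 1) : ∃ f : P4 →ₜ* Q, ∀ i, f (ell i) = q i := by
  obtain ⟨f, hf⟩ := exists_disc q h
  obtain ⟨φ, hφ⟩ := exists_lift f
  exact ⟨φ, fun i => by rw [ell_eq, hφ, hf]⟩

lemma P4_lift_finite {H : Type} [Group H] [Finite H] (q : Fin 4 → H)
    (h : q 0 * q 1 * q 2 * q 3 = 1) :
    ∃ f : P4 →* H, (∀ i, f (ell i) = q i) ∧ IsOpen (f.ker : Set P4) := by
  obtain ⟨f, hf⟩ := exists_disc q h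
  obtain ⟨φ, hφ, ho⟩ := exists_lift_finite f
  exact ⟨φ, fun i => by rw [ell_eq, hφ, hf], ho⟩

lemma P4_ext {Q : Type} [Group Q] [TopologicalSpace Q] [T2Space Q] {f g : P4 →ₜ* Q}
    (h : ∀ i, f (ell i) = g (ell i)) : f = g := by
  apply hom_ext
  intro a
  have : (f.toMonoidHom.comp (eta S4)) = (g.toMonoidHom.comp (eta S4)) := by
    apply disc_ext
    intro i
    exact h i
  exact DFunLike.congr_fun this a

lemma P4_ext_finite {H : Type} [Group H] {f g : P4 →* H} (hf : IsOpen (f.ker : Set P4))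
    (hg : IsOpen (g.ker : Set P4)) (h : ∀ i, f (ell i) = g (ell i)) : f = g := by
  apply hom_ext_finite hf hg
  intro a
  have : (f.comp (eta S4)) = (g.comp (eta S4)) := by
    apply disc_ext
    intro i
    exact h i
  exact DFunLike.congr_fun this a

lemma exists_F2 {Q : Type} [Group Q] [TopologicalSpace Q]
    [IsTopologicalGroup Q] [CompactSpace Q] [TotallyDisconnectedSpace Q] (a b : Q) :
    ∃ φ : F2 →ₜ* Q, φ X = a ∧ φ Y = b := by
  obtain ⟨φ, hφ⟩ := exists_lift (FreeGroup.lift ![a, b])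
  refine ⟨φ, ?_, ?_⟩
  · rw [← eta_zero, hφ, FreeGroup.lift_apply_of]; rfl
  · rw [← eta_one, hφ, FreeGroup.lift_apply_of]; rfl

/-- the first free factor -/
noncomputable def iA : F2 →ₜ* P4 := (exists_F2 (ell 0) (ell 1)).choose
lemma iA_X : iA X = ell 0 := (exists_F2 (ell 0) (ell 1)).choose_spec.1
lemma iA_Y : iA Y = ell 1 := (exists_F2 (ell 0) (ell 1)).choose_spec.2

/-- the second free factor -/
noncomputable def iB : F2 →ₜ* P4 := (exists_F2 (ell 2) (ell 3)).choose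
lemma iB_X : iB X = ell 2 := (exists_F2 (ell 2) (ell 3)).choose_spec.1
lemma iB_Y : iB Y = ell 3 := (exists_F2 (ell 2) (ell 3)).choose_spec.2

lemma iAB : iA (X * Y) = (iB (X * Y))⁻¹ := by
  rw [map_mul, map_mul, iA_X, iA_Y, iB_X, iB_Y]
  have h := ell_prod
  rw [mul_assoc (ell 0 * ell 1)] at h
  exact eq_inv_of_mul_eq_one_left h

lemma exists_glue (a b : F2 →ₜ* F2) (l : Zhat) (ha : a (X * Y) = ppow (X * Y) l)
    (hb : b (X * Y) = ppow (X * Y) l) : ∃ φ : P4 →ₜ* P4,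
      (∀ w, φ (iA w) = iA (a w)) ∧ (∀ w, φ (iB w) = iB (b w)) := by
  obtain ⟨φ, hφ⟩ := P4_lift (Q := P4) ![iA (a X), iA (a Y), iB (b X), iB (b Y)] (by
    show iA (a X) * iA (a Y) * iB (b X) * iB (b Y) = 1
    rw [← map_mul, ← map_mul, mul_assoc, ← map_mul, ← map_mul, ha, hb, map_ppow, map_ppow, iAB,
      ppow_inv, inv_mul_cancel])
  refine ⟨φ, fun w => ?_, fun w => ?_⟩
  · have : φ.comp iA = iA.comp a := by
      apply hom_ext_XY
      · show φ (iA X) = iA (a X)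
        rw [iA_X, hφ]; rfl
      · show φ (iA Y) = iA (a Y)
        rw [iA_Y, hφ]; rfl
    exact DFunLike.congr_fun this w
  · have : φ.comp iB = iB.comp b := by
      apply hom_ext_XY
      · show φ (iB X) = iB (b X)
        rw [iB_X, hφ]; rfl
      · show φ (iB Y) = iB (b Y)
        rw [iB_Y, hφ]; rfl
    exact DFunLike.congr_fun this w

lemma P4_ext_AB {Q : Type} [Group Q] [TopologicalSpace Q] [T2Space Q] {f g : P4 →ₜ* Q}
    (hA : ∀ w, f (iA w) = g (iA w)) (hB : ∀ w, f (iB w) = g (iB w)) : f = g := by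
  apply P4_ext
  intro i
  fin_cases i
  · show f (ell 0) = g (ell 0)
    rw [← iA_X]; exact hA _
  · show f (ell 1) = g (ell 1)
    rw [← iA_Y]; exact hA _
  · show f (ell 2) = g (ell 2)
    rw [← iB_X]; exact hB _
  · show f (ell 3) = g (ell 3)
    rw [← iB_Y]; exact hB _

/-- inverse of a bijective endomorphism -/
lemma exists_inverse (α : F2 →ₜ* F2) (h : Function.Bijective α) :
    ∃ α' : F2 →ₜ* F2, (∀ a, α (α' a) = a) ∧ (∀ a, α' (α a) = a) := by
  let e : F2 ≃* F2 := MulEquiv.ofBijective α.toMonoidHom h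
  have hc : Continuous e.toEquiv := α.continuous_toFun
  have hc' : Continuous e.toEquiv.symm := Continuous.continuous_symm_of_equiv_compact_to_t2 hc
  refine ⟨⟨e.symm.toMonoidHom, hc'⟩, fun a => ?_, fun a => ?_⟩
  · exact e.apply_symm_apply a
  · exact e.symm_apply_apply a

lemma inverse_XY (α α' : F2 →ₜ* F2) (l : Zhatˣ) (h : α (X * Y) = ppow (X * Y) l)
    (h2 : ∀ a, α' (α a) = a) : α' (X * Y) = ppow (X * Y) ((l⁻¹ : Zhatˣ) : Zhat) := by
  have h3 : α (ppow (X * Y) ((l⁻¹ : Zhatˣ) : Zhat)) = X * Y := by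
    rw [map_ppow, h, ← Pool.Agent.Helper75.Basic.ppow_mul, Units.mul_inv,
      Pool.Agent.Helper75.Basic.ppow_one]
  rw [← h2 (ppow (X * Y) ((l⁻¹ : Zhatˣ) : Zhat)), h3]

/-- a pair of mutually inverse continuous endomorphisms as an element of `MulAut` -/
def mkAut (φ ψ : P4 →ₜ* P4) (h1 : ∀ a, φ (ψ a) = a) (h2 : ∀ a, ψ (φ a) = a) : MulAut P4 where
  toFun := φ
  invFun := ψ
  left_inv := h2
  right_inv := h1
  map_mul' := map_mul φ

lemma exists_glue_aut (α β : F2 →ₜ* F2) (l : Zhatˣ) (hα : α (X * Y) = ppow (X * Y) l)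
    (hβ : β (X * Y) = ppow (X * Y) l) (bα : Function.Bijective α) (bβ : Function.Bijective β) :
    ∃ Φ : MulAut P4, Continuous Φ ∧ Continuous Φ.symm ∧
      (∀ w, Φ (iA w) = iA (α w)) ∧ (∀ w, Φ (iB w) = iB (β w)) := by
  obtain ⟨α', a1, a2⟩ := exists_inverse α bα
  obtain ⟨β', b1, b2⟩ := exists_inverse β bβ
  obtain ⟨φ, f1, f2⟩ := exists_glue α β l hα hβ
  obtain ⟨ψ, g1, g2⟩ := exists_glue α' β' ((l⁻¹ : Zhatˣ) : Zhat) (inverse_XY α α' l hα a2)
    (inverse_XY β β' l hβ b2)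
  have h1 : φ.comp ψ = ContinuousMonoidHom.id P4 := by
    apply P4_ext_AB
    · intro w
      show φ (ψ (iA w)) = iA w
      rw [g1, f1, a1]
    · intro w
      show φ (ψ (iB w)) = iB w
      rw [g2, f2, b1]
  have h2 : ψ.comp φ = ContinuousMonoidHom.id P4 := by
    apply P4_ext_AB
    · intro w
      show ψ (φ (iA w)) = iA w
      rw [f1, g1, a2]
    · intro w
      show ψ (φ (iB w)) = iB w
      rw [f2, g2, b2]
  exact ⟨mkAut φ ψ (fun a => DFunLike.congr_fun h1 a) (fun a => DFunLike.congr_fun h2 a),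
    φ.continuous_toFun, ψ.continuous_toFun, f1, f2⟩

/-- exchanging the two factors -/
lemma exists_swap_disc : ∃ f : S4 →* S4, f (dl 0) = dl 2 ∧ f (dl 1) = dl 3 ∧ f (dl 2) = dl 0 ∧
    f (dl 3) = dl 1 := by
  obtain ⟨f, hf⟩ := exists_disc ![dl 2, dl 3, dl 0, dl 1] (by
    show dl 2 * dl 3 * dl 0 * dl 1 = 1
    have h := dl_prod
    rw [mul_assoc (dl 0 * dl 1)] at h
    have h2 := mul_eq_one_iff_eq_inv.1 h
    rw [mul_assoc (dl 2 * dl 3), h2, mul_inv_cancel])
  exact ⟨f, hf 0, hf 1, hf 2, hf 3⟩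

lemma exists_swap : ∃ s : MulAut P4, Continuous s ∧ Continuous s.symm ∧
    (∀ w, s (iA w) = iB w) ∧ (∀ w, s (iB w) = iA w) ∧
    (fun a => s a) '' Set.range (eta S4) = Set.range (eta S4) ∧ (∀ a, s (s a) = a) := by
  obtain ⟨f, f0, f1, f2, f3⟩ := exists_swap_disc
  have hff : ∀ a, f (f a) = a := by
    have : f.comp f = MonoidHom.id S4 := by
      apply disc_ext
      intro i
      fin_cases i
      · show f (f (dl 0)) = dl 0
        rw [f0, f2]
      · show f (f (dl 1)) = dl 1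
        rw [f1, f3]
      · show f (f (dl 2)) = dl 2
        rw [f2, f0]
      · show f (f (dl 3)) = dl 3
        rw [f3, f1]
    exact fun a => DFunLike.congr_fun this a
  obtain ⟨φ, hφ⟩ := exists_lift (Q := P4) ((eta S4).comp f)
  have hφφ : ∀ a, φ (φ a) = a := by
    have : φ.comp φ = ContinuousMonoidHom.id P4 := by
      apply hom_ext
      intro g
      show φ (φ (eta S4 g)) = eta S4 g
      rw [hφ]
      show φ (eta S4 (f g)) = eta S4 g
      rw [hφ]
      show eta S4 (f (f g)) = eta S4 g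
      rw [hff]
    exact fun a => DFunLike.congr_fun this a
  refine ⟨mkAut φ φ hφφ hφφ, φ.continuous_toFun, φ.continuous_toFun, ?_, ?_, ?_, hφφ⟩
  · intro w
    have : φ.comp iA = iB := by
      apply hom_ext_XY
      · show φ (iA X) = iB X
        rw [iA_X, iB_X, ell_eq, hφ]
        show eta S4 (f (dl 0)) = _
        rw [f0]; rfl
      · show φ (iA Y) = iB Y
        rw [iA_Y, iB_Y, ell_eq, hφ]
        show eta S4 (f (dl 1)) = _
        rw [f1]; rfl
    exact DFunLike.congr_fun this w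
  · intro w
    have : φ.comp iB = iA := by
      apply hom_ext_XY
      · show φ (iB X) = iA X
        rw [iA_X, iB_X, ell_eq, hφ]
        show eta S4 (f (dl 2)) = _
        rw [f2]; rfl
      · show φ (iB Y) = iA Y
        rw [iA_Y, iB_Y, ell_eq, hφ]
        show eta S4 (f (dl 3)) = _
        rw [f3]; rfl
    exact DFunLike.congr_fun this w
  · ext b
    constructor
    · rintro ⟨_, ⟨g, rfl⟩, rfl⟩
      exact ⟨f g, (hφ g).symm⟩
    · rintro ⟨g, rfl⟩
      refine ⟨eta S4 (f g), ⟨f g, rfl⟩, ?_⟩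
      show φ (eta S4 (f g)) = _
      rw [hφ]
      show eta S4 (f (f g)) = _
      rw [hff]

/-- filling in the last puncture, discrete version -/
lemma exists_kap_disc : ∃ f : S4 →* FreeGroup (Fin 2), f (dl 0) = FreeGroup.of 0 ∧
    f (dl 1) = FreeGroup.of 1 ∧ f (dl 3) = 1 := by
  obtain ⟨f, hf⟩ := exists_disc ![FreeGroup.of (0 : Fin 2), FreeGroup.of 1,
    (FreeGroup.of 0 * FreeGroup.of 1)⁻¹, 1] (by
      show FreeGroup.of (0 : Fin 2) * FreeGroup.of 1 * (FreeGroup.of 0 * FreeGroup.of 1)⁻¹ * 1 = 1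
      rw [mul_inv_cancel, one_mul])
  exact ⟨f, hf 0, hf 1, hf 3⟩

/-- filling in the last puncture -/
lemma exists_kap : ∃ κ : P4 →ₜ* F2, κ (ell 0) = X ∧ κ (ell 1) = Y ∧ κ (ell 3) = 1 ∧
    ∀ g : S4, ∃ w : FreeGroup (Fin 2), κ (eta S4 g) = eta _ w := by
  obtain ⟨f, f0, f1, f3⟩ := exists_kap_disc
  obtain ⟨κ, hκ⟩ := exists_lift (Q := F2) ((eta _).comp f)
  refine ⟨κ, ?_, ?_, ?_, fun g => ⟨f g, hκ g⟩⟩
  · rw [ell_eq, hκ]
    show eta _ (f (dl 0)) = _
    rw [f0]; rfl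
  · rw [ell_eq, hκ]
    show eta _ (f (dl 1)) = _
    rw [f1]; rfl
  · rw [ell_eq, hκ]
    show eta _ (f (dl 3)) = _
    rw [f3, map_one]

end Pool.Agent.Helper75.Four
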