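import Mathlib
import Pool.Agent.Helper75.Defs
import Pool.Agent.Helper75.Basic

/-! A unit of the profinite integers congruent to `3` modulo `8` (and to `1` at odd primes). -/

namespace Pool.Agent.Helper75.Unit3

open Pool.Agent.Helper75.Defs Pool.Agent.Helper75.Basic

lemma dvd_idem (m : ℕ) (hm : m ≠ 0) : (m : ℤ) ∣ 2 ^ m.factorial * (2 ^ m.factorial - 1) := by
  obtain ⟨a, o, ho, hmo⟩ := Nat.exists_eq_two_pow_mul_odd hm
  have hole : o ≤ m := by
    rw [hmo]
    exact Nat.le_mul_of_pos_left _ (by positivity)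
  have hopos : 0 < o := by
    rcases Nat.eq_zero_or_pos o with h | h
    · rw [h] at ho; exact absurd ho (by decide)
    · exact h
  have h1 : ((2 : ℤ) ^ a) ∣ 2 ^ m.factorial := by
    apply pow_dvd_pow
    have h2 : a < 2 ^ a := Nat.lt_two_pow_self
    have h3 : 2 ^ a ≤ m := by
      rw [hmo]
      exact Nat.le_mul_of_pos_right _ hopos
    have h4 : m ≤ m.factorial := Nat.self_le_factorial m
    omega
  have h2 : (o : ℤ) ∣ 2 ^ m.factorial - 1 := by
    have hco : Nat.Coprime 2 o := (Nat.coprime_two_left.2 ho)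
    have hφ : Nat.totient o ∣ m.factorial :=
      Nat.dvd_factorial (Nat.totient_pos.2 hopos) ((Nat.totient_le o).trans hole)
    obtain ⟨c, hc⟩ := hφ
    have h5 : (2 : ℕ) ^ m.factorial ≡ 1 [MOD o] := by
      rw [hc, pow_mul]
      have := (Nat.ModEq.pow_totient hco).pow c
      rwa [one_pow] at this
    have h6 := (Nat.modEq_iff_dvd.1 h5.symm)
    push_cast at h6
    exact h6
  rw [hmo]
  push_cast
  rw [← hmo]
  exact mul_dvd_mul h1 h2

lemma idem (m : ℕ) (hm : m ≠ 0) : (2 : ZMod m) ^ m.factorial * 2 ^ m.factorial =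
    2 ^ m.factorial := by
  have h := dvd_idem m hm
  rw [← ZMod.intCast_zmod_eq_zero_iff_dvd] at h
  · push_cast at h
    rw [mul_sub, mul_one, sub_eq_zero] at h
    exact h

lemma pow_factorial_eq {m n : ℕ} (hm : m ≠ 0) (hmn : m ≤ n) :
    (2 : ZMod m) ^ n.factorial = 2 ^ m.factorial := by
  obtain ⟨c, hc⟩ := Nat.factorial_dvd_factorial hmn
  have hcpos : c ≠ 0 := by
    rintro rfl
    rw [mul_zero] at hc
    exact (Nat.factorial_ne_zero n) hc
  obtain ⟨d, rfl⟩ := Nat.exists_eq_succ_of_ne_zero hcpos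
  rw [hc, pow_mul]
  clear hc hcpos
  induction d with
  | zero => simp
  | succ k ih =>
    rw [Nat.succ_eq_add_one, pow_succ]
    rw [Nat.succ_eq_add_one] at ih
    rw [ih, idem m hm]

/-- the family `3 - 2 * 2 ^ (n!)` -/
def lam : Zhat := (⟨fun n => 3 - 2 * 2 ^ (n : ℕ).factorial, by
  intro m n h
  rw [map_sub, map_mul, map_pow]
  have h2 : (ZMod.castHom h (ZMod m)) 2 = 2 := by
    have := map_natCast (ZMod.castHom h (ZMod m)) 2
    simpa using this
  have h3 : (ZMod.castHom h (ZMod m)) 3 = 3 := by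
    have := map_natCast (ZMod.castHom h (ZMod m)) 3
    simpa using this
  rw [h2, h3, pow_factorial_eq m.ne_zero (Nat.le_of_dvd n.pos h)]⟩ : ZhatRing)

lemma lam_isUnit (n : ℕ+) : IsUnit (3 - 2 * 2 ^ (n : ℕ).factorial : ZMod n) := by
  have h1 : IsCoprime (3 - 2 * 2 ^ (n : ℕ).factorial : ℤ) (n : ℤ) := by
    rw [Int.isCoprime_iff_gcd_eq_one]
    by_contra hne
    obtain ⟨q, hq, hqd⟩ := Nat.exists_prime_and_dvd hne
    have hq1 : (q : ℤ) ∣ 3 - 2 * 2 ^ (n : ℕ).factorial :=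
      (Int.natCast_dvd_natCast.2 hqd).trans (Int.gcd_dvd_left ..)
    have hq2 : (q : ℤ) ∣ (n : ℕ) :=
      (Int.natCast_dvd_natCast.2 hqd).trans (Int.gcd_dvd_right ..)
    have hq3 : q ∣ (n : ℕ) := Int.natCast_dvd_natCast.1 hq2
    rcases hq.eq_two_or_odd' with h2 | h2
    · subst h2
      have : (2 : ℤ) ∣ 3 := by
        have h4 := dvd_add hq1 (Dvd.intro _ rfl : (2 : ℤ) ∣ 2 * 2 ^ (n : ℕ).factorial)
        rwa [sub_add_cancel] at h4
      revert this
      decide
    · have hle : q ≤ n := Nat.le_of_dvd n.pos hq3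
      have hco : Nat.Coprime 2 q := (Nat.coprime_two_left.2 h2)
      have hφ : Nat.totient q ∣ (n : ℕ).factorial :=
        Nat.dvd_factorial (Nat.totient_pos.2 hq.pos) ((Nat.totient_le q).trans hle)
      obtain ⟨c, hc⟩ := hφ
      have h5 : (2 : ℕ) ^ (n : ℕ).factorial ≡ 1 [MOD q] := by
        rw [hc, pow_mul]
        have := (Nat.ModEq.pow_totient hco).pow c
        rwa [one_pow] at this
      have h6 := (Nat.modEq_iff_dvd.1 h5.symm)
      push_cast at h6
      have h7 : (q : ℤ) ∣ 1 := by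
        have h8 := dvd_add hq1 (Dvd.dvd.mul_left h6 2)
        have h9 : (3 - 2 * 2 ^ (n : ℕ).factorial : ℤ) + 2 * (2 ^ (n : ℕ).factorial - 1) = 1 := by
          ring
        rwa [h9] at h8
      have h10 : q ∣ 1 := by exact_mod_cast h7
      exact hq.one_lt.ne' (Nat.dvd_one.1 h10)
  have h2 := (ZMod.unitOfIsCoprime _ h1).isUnit
  rw [ZMod.coe_unitOfIsCoprime] at h2
  push_cast at h2
  exact h2

/-- the units of the family -/
noncomputable def lamU (n : ℕ+) : (ZMod n)ˣ := (lam_isUnit n).unit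

lemma lamU_val (n : ℕ+) : (lamU n : ZMod n) = 3 - 2 * 2 ^ (n : ℕ).factorial :=
  (lam_isUnit n).unit_spec

/-- the inverse family -/
noncomputable def lamInv : Zhat := (⟨fun n => ((lamU n)⁻¹ : (ZMod n)ˣ), by
  intro m n h
  have h1 : Units.map (ZMod.castHom h (ZMod m) : ZMod n →* ZMod m) (lamU n) = lamU m := by
    ext
    rw [Units.coe_map, lamU_val, lamU_val]
    exact lam.2 m n h
  show (ZMod.castHom h (ZMod m)) ((lamU n)⁻¹ : (ZMod n)ˣ) = ((lamU m)⁻¹ : (ZMod m)ˣ)
  rw [← h1, ← map_inv, Units.coe_map]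
  rfl⟩ : ZhatRing)

lemma lam_mul_inv : lam * lamInv = 1 := by
  apply Subtype.ext
  funext n
  show (3 - 2 * 2 ^ (n : ℕ).factorial : ZMod n) * ((lamU n)⁻¹ : (ZMod n)ˣ) = 1
  rw [← lamU_val, Units.mul_inv]

/-- A unit of the profinite integers congruent to `3` modulo `8`. -/
noncomputable def lamUnit : Zhatˣ :=
  ⟨lam, lamInv, lam_mul_inv, by rw [mul_comm]; exact lam_mul_inv⟩

lemma res_lamUnit : res (lamUnit : Zhat) 8 = 3 := by
  show (3 - 2 * 2 ^ (8 : ℕ).factorial : ZMod 8).val = 3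
  have h1 : (2 : ZMod 8) ^ (8 : ℕ).factorial = 0 := by
    have h2 : (8 : ℕ).factorial = 3 * 13440 := by decide
    rw [h2, pow_mul]
    have h3 : (2 : ZMod 8) ^ 3 = 0 := by decide
    rw [h3, zero_pow (by norm_num)]
  rw [h1]
  decide

end Pool.Agent.Helper75.Unit3
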