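import Mathlib
import Pool.Agent.Helper75.Defs
import Pool.Agent.Helper75.F2Defs
import Pool.Agent.Helper75.Basic
import Pool.Agent.Helper75.F2Lemmas
import Pool.Agent.Helper75.LacDefs
import Pool.Agent.Helper75.Core
import Pool.Agent.Helper75.CoreFinal
import Pool.Agent.Helper75.Four
import Pool.Agent.Helper75.Exist2
import Pool.Agent.Helper75.Unit3

/-! `𝔗̂⁺_{0,4}` is not normal in `𝕋_{0,4}`. -/

namespace Pool.Agent.Helper75.FourMain

open Pool.Agent.Helper75.Defs Pool.Agent.Helper75.F2Defs Pool.Agent.Helper75.Basic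
  Pool.Agent.Helper75.F2Lemmas Pool.Agent.Helper75.LacDefs Pool.Agent.Helper75.Core
  Pool.Agent.Helper75.CoreFinal Pool.Agent.Helper75.Four Pool.Agent.Helper75.Exist2
  Pool.Agent.Helper75.Unit3

/-! ### exponent tests on `F2` -/

lemma exists_exp (n : ℕ) [NeZero n] : ∃ ex ey : F2 →* Multiplicative (ZMod n),
    IsOpen (ex.ker : Set F2) ∧ IsOpen (ey.ker : Set F2) ∧
    (∀ w, ex (eta _ w) = Multiplicative.ofAdd ((ax w : ℤ) : ZMod n)) ∧
    (∀ w, ey (eta _ w) = Multiplicative.ofAdd ((ay w : ℤ) : ZMod n)) := by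
  obtain ⟨ex, h1, h2⟩ := exists_lift_finite (FreeGroup.lift
    (![Multiplicative.ofAdd 1, 1] : Fin 2 → Multiplicative (ZMod n)))
  obtain ⟨ey, h3, h4⟩ := exists_lift_finite (FreeGroup.lift
    (![1, Multiplicative.ofAdd 1] : Fin 2 → Multiplicative (ZMod n)))
  refine ⟨ex, ey, h2, h4, ?_, ?_⟩
  · intro w
    rw [h1]
    have : FreeGroup.lift (![Multiplicative.ofAdd 1, 1] : Fin 2 → Multiplicative (ZMod n)) =
        (AddMonoidHom.toMultiplicative (Int.castAddHom (ZMod n))).comp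
          (FreeGroup.lift (![Multiplicative.ofAdd 1, 1] : Fin 2 → Multiplicative ℤ)) := by
      apply FreeGroup.ext_hom
      intro i
      fin_cases i <;> simp
    exact DFunLike.congr_fun this w
  · intro w
    rw [h3]
    have : FreeGroup.lift (![1, Multiplicative.ofAdd 1] : Fin 2 → Multiplicative (ZMod n)) =
        (AddMonoidHom.toMultiplicative (Int.castAddHom (ZMod n))).comp
          (FreeGroup.lift (![1, Multiplicative.ofAdd 1] : Fin 2 → Multiplicative ℤ)) := by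
      apply FreeGroup.ext_hom
      intro i
      fin_cases i <;> simp
    exact DFunLike.congr_fun this w

lemma int_eq_zero_of_forall {a : ℤ} (h : ∀ (n : ℕ) [NeZero n], ((a : ℤ) : ZMod n) = 0) :
    a = 0 := by
  have h1 := h (a.natAbs + 1)
  rw [ZMod.intCast_zmod_eq_zero_iff_dvd] at h1
  have h2 : (a.natAbs + 1 : ℕ) ∣ a.natAbs := Int.natCast_dvd.1 h1
  by_contra hne
  have h3 := Nat.le_of_dvd (Int.natAbs_pos.2 hne) h2
  omega

lemma int_eq_of_forall {a b : ℤ} (h : ∀ (n : ℕ) [NeZero n], ((a : ℤ) : ZMod n) = (b : ℤ)) :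
    a = b := by
  have : a - b = 0 := by
    apply int_eq_zero_of_forall
    intro n _
    rw [Int.cast_sub, h n, sub_self]
  linarith

/-! ### the abelian test on `P4` -/

/-- the test group -/
abbrev A3 : Type := Multiplicative (ZMod 3 × ZMod 3 × ZMod 3)

/-- the test values -/
def qv : Fin 4 → A3 := ![Multiplicative.ofAdd (1, 0, 0), Multiplicative.ofAdd (0, 1, 0),
  Multiplicative.ofAdd (0, 0, 1), Multiplicative.ofAdd (-1, -1, -1)]

lemma qv_prod : qv 0 * qv 1 * qv 2 * qv 3 = 1 := by decide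

lemma A3_pow (x : A3) : x ^ ((3 : ℕ+) : ℕ) = 1 := by
  revert x
  decide

lemma qv_decide : ∀ (i j : Fin 4) (m : Fin 3), qv j ^ (m : ℕ) = qv i → j = i ∧ m = 1 := by
  decide

lemma exists_E : ∃ E : P4 →* A3, (∀ i, E (ell i) = qv i) ∧ IsOpen (E.ker : Set P4) :=
  P4_lift_finite qv qv_prod

lemma E_conj (E : P4 →* A3) (a b : P4) : E (a * b * a⁻¹) = E b := by
  rw [map_mul, map_mul, map_inv, mul_comm (E a), mul_assoc, mul_inv_cancel, mul_one]

lemma P4_ext3 {Q : Type} [Group Q] [TopologicalSpace Q] [T2Space Q] {f g : P4 →ₜ* Q}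
    (h0 : f (ell 0) = g (ell 0)) (h1 : f (ell 1) = g (ell 1)) (h3 : f (ell 3) = g (ell 3)) :
    f = g := by
  have h : ell 2 = (ell 0 * ell 1)⁻¹ * (ell 3)⁻¹ := by
    have h := ell_prod
    rw [mul_assoc] at h
    have h2 := eq_inv_of_mul_eq_one_right h
    rw [← h2]
    group
  apply P4_ext
  intro i
  fin_cases i
  · exact h0
  · exact h1
  · show f (ell 2) = g (ell 2)
    rw [h, map_mul, map_mul, map_inv, map_inv, map_inv, map_inv, map_mul, map_mul, h0, h1, h3]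
  · exact h3

lemma ppow_one_left {G : Type} [Group G] [TopologicalSpace G] [IsTopologicalGroup G]
    [CompactSpace G] [TotallyDisconnectedSpace G] (l : Zhat) : ppow (1 : G) l = 1 := by
  symm
  rw [eq_ppow_iff]
  intro N
  rw [QuotientGroup.mk_one, one_pow]

/-- consequences of acting trivially on the abelian test -/
lemma good (κ : P4 →ₜ* F2) (k0 : κ (ell 0) = X) (k1 : κ (ell 1) = Y) (k3 : κ (ell 3) = 1)
    (kd : ∀ g : S4, ∃ w : FreeGroup (Fin 2), κ (eta S4 g) = eta _ w)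
    (E : P4 →* A3) (hE : ∀ i, E (ell i) = qv i) (hEo : IsOpen (E.ker : Set P4))
    (V : AutLac 0 4) (hV : IsDisc V) (hVE : ∀ a, E (V.toFun a) = E a) :
    (∃ w1 w2 : FreeGroup (Fin 2), κ (V.toFun (ell 0)) = eta _ w1 ∧ κ (V.toFun (ell 1)) = eta _ w2 ∧
      ay w1 = 0 ∧ ax w2 = 0 ∧ ax w1 = ay w2 ∧ ((ax w1 : ℤ) : ZMod 3) = 1) ∧
    (∀ a, κ (V.toFun (iA (κ a))) = κ (V.toFun a)) := by
  obtain ⟨μ, hμ, σ, c, hc⟩ := V.lac
  have hσ : ∀ i, σ i = i ∧ res (μ : Zhat) 3 = 1 := by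
    intro i
    have h1 := hVE (ell i)
    have h2 : V.toFun (ell i) = c i * ppow (ell (σ i)) μ * (c i)⁻¹ := hc i
    rw [h2, E_conj, fin_ppow E hEo (ell (σ i)) μ 3 (A3_pow _), hE, hE] at h1
    have h3 : res (μ : Zhat) 3 < 3 := res_lt _ _
    have h4 := qv_decide i (σ i) ⟨res (μ : Zhat) 3, h3⟩ h1
    exact ⟨h4.1, congrArg Fin.val h4.2⟩
  have hVl : ∀ i, V.toFun (ell i) = c i * ppow (ell i) μ * (c i)⁻¹ := by
    intro i
    have h2 : V.toFun (ell i) = c i * ppow (ell (σ i)) μ * (c i)⁻¹ := hc i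
    rw [(hσ i).1] at h2
    exact h2
  have hκV : ∀ i, κ (V.toFun (ell i)) = κ (c i) * ppow (κ (ell i)) μ * (κ (c i))⁻¹ := by
    intro i
    rw [hVl, map_mul, map_mul, map_inv, map_ppow]
  refine ⟨?_, ?_⟩
  · have hd : ∀ i, ∃ w : FreeGroup (Fin 2), κ (V.toFun (ell i)) = eta _ w := by
      intro i
      have h1 : (fun a => V.toFun a) '' Set.range (eta S4) = Set.range (eta S4) := hV
      have h2 : V.toFun (ell i) ∈ Set.range (eta S4) := by
        rw [← h1]
        exact ⟨ell i, ⟨dl i, rfl⟩, rfl⟩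
      obtain ⟨g, hg⟩ := h2
      rw [← hg]
      exact kd g
    obtain ⟨w1, hw1⟩ := hd 0
    obtain ⟨w2, hw2⟩ := hd 1
    have key : ∀ (n : ℕ) [NeZero n] (m : ℕ) (hm : ∀ n' : ℕ+, (n' : ℕ) = n → res (μ : Zhat) n' = m),
        ((ax w1 : ℤ) : ZMod n) = m ∧ ((ay w1 : ℤ) : ZMod n) = 0 ∧
        ((ax w2 : ℤ) : ZMod n) = 0 ∧ ((ay w2 : ℤ) : ZMod n) = m := by
      intro n hn m hm
      obtain ⟨ex, ey, hex, hey, hex', hey'⟩ := exists_exp n
      have hnpos : 0 < n := Nat.pos_of_ne_zero hn.ne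
      let n' : ℕ+ := ⟨n, hnpos⟩
      have hpow : ∀ x : Multiplicative (ZMod n), x ^ (n' : ℕ) = 1 := by
        intro x
        show Multiplicative.ofAdd ((n : ℕ) • x.toAdd) = 1
        rw [nsmul_eq_mul, ZMod.natCast_self, zero_mul]
        rfl
      have hX1 : ex X = Multiplicative.ofAdd (1 : ZMod n) := by
        rw [← eta_zero, hex']
        simp [ax]
      have hY1 : ex Y = 1 := by
        rw [← eta_one, hex']
        simp [ax]
      have hX2 : ey X = 1 := by
        rw [← eta_zero, hey']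
        simp [ay]
      have hY2 : ey Y = Multiplicative.ofAdd (1 : ZMod n) := by
        rw [← eta_one, hey']
        simp [ay]
      have hcomm : ∀ (e : F2 →* Multiplicative (ZMod n)) (a b : F2), e (a * b * a⁻¹) = e b := by
        intro e a b
        rw [map_mul, map_mul, map_inv, mul_comm (e a), mul_assoc, mul_inv_cancel, mul_one]
      have r1 : ∀ i, ex (κ (V.toFun (ell i))) = ex (κ (ell i)) ^ m := by
        intro i
        rw [hκV, hcomm, fin_ppow ex hex _ _ n' (hpow _), hm n' rfl]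
      have r2 : ∀ i, ey (κ (V.toFun (ell i))) = ey (κ (ell i)) ^ m := by
        intro i
        rw [hκV, hcomm, fin_ppow ey hey _ _ n' (hpow _), hm n' rfl]
      have s1 := r1 0
      have s2 := r2 0
      have s3 := r1 1
      have s4 := r2 1
      rw [k0, hw1, hex', hX1] at s1
      rw [k0, hw1, hey', hX2, one_pow] at s2
      rw [k1, hw2, hex', hY1, one_pow] at s3
      rw [k1, hw2, hey', hY2] at s4
      refine ⟨?_, s2, s3, ?_⟩
      · have := congrArg Multiplicative.toAdd s1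
        simpa using this
      · have := congrArg Multiplicative.toAdd s4
        simpa using this
    have key' : ∀ (n : ℕ) [NeZero n], ∃ m : ℕ,
        ((ax w1 : ℤ) : ZMod n) = m ∧ ((ay w1 : ℤ) : ZMod n) = 0 ∧
        ((ax w2 : ℤ) : ZMod n) = 0 ∧ ((ay w2 : ℤ) : ZMod n) = m := by
      intro n hn
      refine ⟨res (μ : Zhat) ⟨n, Nat.pos_of_ne_zero hn.ne⟩, key n _ ?_⟩
      intro n' hn'
      subst hn'
      rfl
    refine ⟨w1, w2, hw1, hw2, ?_, ?_, ?_, ?_⟩
    · apply int_eq_zero_of_forall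
      intro n _
      obtain ⟨m, h1, h2, h3, h4⟩ := key' n
      exact h2
    · apply int_eq_zero_of_forall
      intro n _
      obtain ⟨m, h1, h2, h3, h4⟩ := key' n
      exact h3
    · apply int_eq_of_forall
      intro n _
      obtain ⟨m, h1, h2, h3, h4⟩ := key' n
      rw [h1, h4]
    · have h5 := key 3 1 (by
        intro n' hn'
        have : n' = 3 := PNat.coe_injective hn'
        rw [this]
        exact (hσ 0).2)
      rw [h5.1]
      simp
  · have : κ.comp ((V.toC).comp (iA.comp κ)) = κ.comp (V.toC) := by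
      apply P4_ext3
      · show κ (V.toFun (iA (κ (ell 0)))) = κ (V.toFun (ell 0))
        rw [k0, iA_X]
      · show κ (V.toFun (iA (κ (ell 1)))) = κ (V.toFun (ell 1))
        rw [k1, iA_Y]
      · show κ (V.toFun (iA (κ (ell 3)))) = κ (V.toFun (ell 3))
        have h1 : V.toFun 1 = 1 := map_one V.toC
        rw [hκV, k3, map_one, h1, map_one, ppow_one_left, mul_one, mul_inv_cancel]
    exact fun a => DFunLike.congr_fun this a

/-- the discrete automorphism of `F2` obtained from an element of `Disc` -/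
lemma good_disc (κ : P4 →ₜ* F2) (k0 : κ (ell 0) = X) (k1 : κ (ell 1) = Y) (k3 : κ (ell 3) = 1)
    (kd : ∀ g : S4, ∃ w : FreeGroup (Fin 2), κ (eta S4 g) = eta _ w)
    (E : P4 →* A3) (hE : ∀ i, E (ell i) = qv i) (hEo : IsOpen (E.ker : Set P4))
    (V : AutLac 0 4) (hV : IsDisc V) (hVE : ∀ a, E (V.toFun a) = E a) :
    DiscAut (κ.comp ((V.toC).comp iA)) := by
  have hVE' : ∀ a, E ((V⁻¹).toFun a) = E a := by
    intro a
    have h := hVE ((V⁻¹).toFun a)
    have h2 : V.toFun ((V⁻¹).toFun a) = a := V.right_inv a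
    rw [h2] at h
    exact h.symm
  obtain ⟨⟨w1, w2, hw1, hw2, a1, a2, a3, a4⟩, hκV⟩ :=
    good κ k0 k1 k3 kd E hE hEo V hV hVE
  obtain ⟨⟨v1, v2, hv1, hv2, b1, b2, b3, b4⟩, hκV'⟩ :=
    good κ k0 k1 k3 kd E hE hEo V⁻¹ hV.inv hVE'
  have hκA : ∀ a, κ (iA a) = a := by
    have : κ.comp iA = ContinuousMonoidHom.id F2 := by
      apply hom_ext_XY
      · show κ (iA X) = X
        rw [iA_X, k0]
      · show κ (iA Y) = Y
        rw [iA_Y, k1]
    exact fun a => DFunLike.congr_fun this a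
  have hinv : ∀ a, (κ.comp ((V.toC).comp iA)) ((κ.comp ((V⁻¹.toC).comp iA)) a) = a := by
    intro a
    show κ (V.toFun (iA (κ ((V⁻¹).toFun (iA a))))) = a
    rw [hκV]
    have h2 : V.toFun ((V⁻¹).toFun (iA a)) = iA a := V.right_inv _
    rw [h2, hκA]
  -- the product of the exponents is one
  have hmm : ax w1 * ax v1 = 1 := by
    apply int_eq_of_forall
    intro n _
    obtain ⟨ex, ey, hex, hey, hex', hey'⟩ := exists_exp n
    have hX1 : ex X = Multiplicative.ofAdd (1 : ZMod n) := by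
      rw [← eta_zero, hex']
      simp [ax]
    have hY1 : ex Y = 1 := by
      rw [← eta_one, hex']
      simp [ax]
    have h1 : ex.comp (κ.comp ((V.toC).comp iA)).toMonoidHom =
        (zpowGroupHom (ax w1)).comp ex := by
      apply hom_ext_XY_finite
      · have : ((ex.comp (κ.comp ((V.toC).comp iA)).toMonoidHom).ker : Set F2) =
          (κ.comp ((V.toC).comp iA)) ⁻¹' (ex.ker : Set F2) := rfl
        rw [this]
        exact hex.preimage (κ.comp ((V.toC).comp iA)).continuous_toFun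
      · apply Subgroup.isOpen_mono (H₁ := ex.ker) _ hex
        intro g hg
        rw [MonoidHom.mem_ker] at hg ⊢
        show (ex g) ^ (ax w1) = 1
        rw [hg, one_zpow]
      · show ex (κ (V.toFun (iA X))) = ex X ^ (ax w1)
        rw [iA_X, hw1, hex', hX1, ← ofAdd_zsmul]
        simp
      · show ex (κ (V.toFun (iA Y))) = ex Y ^ (ax w1)
        rw [iA_Y, hw2, hex', hY1, a2]
        simp
    have h2 : ex (κ (V.toFun (iA (κ ((V⁻¹).toFun (iA X)))))) = ex (κ ((V⁻¹).toFun (iA X))) ^ (ax w1) :=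
      DFunLike.congr_fun h1 _
    have h3 : κ (V.toFun (iA (κ ((V⁻¹).toFun (iA X))))) = X := hinv X
    rw [h3, iA_X, hv1, hex', hX1, ← ofAdd_zsmul] at h2
    have h4 := congrArg Multiplicative.toAdd h2
    simp at h4
    push_cast
    rw [← h4]
  have hw : ax w1 = 1 := by
    rcases Int.isUnit_iff.1 (IsUnit.of_mul_eq_one _ hmm) with h | h
    · exact h
    · exfalso
      rw [h] at a4
      revert a4
      decide
  have hv : ax v1 = 1 := by
    rw [hw, one_mul] at hmm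
    exact hmm
  refine ⟨⟨w1, w2, v1, v2, κ.comp ((V⁻¹.toC).comp iA), ?_, ?_, ?_, ?_, hinv, hw, a1, a2,
    by rw [← a3, hw], hv, b1, b2, by rw [← b3, hv]⟩⟩
  · show κ (V.toFun (iA X)) = _
    rw [iA_X, hw1]
  · show κ (V.toFun (iA Y)) = _
    rw [iA_Y, hw2]
  · show κ ((V⁻¹).toFun (iA X)) = _
    rw [iA_X, hv1]
  · show κ ((V⁻¹).toFun (iA Y)) = _
    rw [iA_Y, hv2]

/-- the conjugate of `α` by complex conjugation -/
lemma beta_props (α : F2 →ₜ* F2) (u v : F2) (l : Zhat)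
    (hX : α X = u * ppow X l * u⁻¹) (hY : α Y = v * ppow Y l * v⁻¹)
    (hXY : α (X * Y) = ppow (X * Y) l) :
    (tau.comp (α.comp tau)) (X * Y) = ppow (X * Y) l ∧
    (∃ c, (tau.comp (α.comp tau)) X = c * ppow X l * c⁻¹) ∧
    (∃ c, (tau.comp (α.comp tau)) Y = c * ppow Y l * c⁻¹) := by
  refine ⟨?_, ⟨tau u, ?_⟩, ⟨tau (α X) * tau v * X, ?_⟩⟩
  · show tau (α (tau (X * Y))) = _
    rw [tau_XY, map_inv, hXY, map_inv, map_ppow, tau_XY, ppow_inv, inv_inv]
  · show tau (α (tau X)) = _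
    rw [tau_X, map_inv, hX, map_inv, map_mul, map_mul, map_inv, map_ppow, tau_X, ppow_inv]
    group
  · show tau (α (tau Y)) = _
    have h1 : ppow (tau Y) l = X * (ppow Y l)⁻¹ * X⁻¹ := by
      rw [tau_Y, ppow_conj, ppow_inv]
    have h2 : tau (α (tau Y)) = tau (α X) * (tau (α Y))⁻¹ * (tau (α X))⁻¹ := by
      rw [tau_Y, map_mul, map_mul, map_mul, map_mul, map_inv, map_inv, map_inv, map_inv]
    rw [h2, hY, map_mul, map_mul, map_inv, map_ppow, h1]
    group

lemma tau_bijective : Function.Bijective tau := by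
  constructor
  · intro a b h
    rw [← tau_tau a, h, tau_tau]
  · intro a
    exact ⟨tau a, tau_tau a⟩

/-- a bicontinuous automorphism with the right shape, as an element of `AutLac` -/
def mkA (Φ : MulAut P4) (c1 : Continuous Φ) (c2 : Continuous Φ.symm)
    (h : ∃ l : Zhat, IsUnitZ l ∧ LacWith l Φ) : AutLac 0 4 where
  toFun := Φ
  invFun := Φ.symm
  left_inv := Φ.symm_apply_apply
  right_inv := Φ.apply_symm_apply
  map_mul := map_mul Φ
  continuous_toFun := c1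
  continuous_invFun := c2
  lac := h

theorem not_normal : ¬ (TPlus 0 4).Normal := by
  intro hnormal
  obtain ⟨α, u, v, hX, hY, hXY, hbij⟩ := exists_auto lamUnit
  obtain ⟨hβ, ⟨cX, hcX⟩, ⟨cY, hcY⟩⟩ := beta_props α u v lamUnit hX hY hXY
  have bβ : Function.Bijective (tau.comp (α.comp tau)) :=
    tau_bijective.comp (hbij.comp tau_bijective)
  set β : F2 →ₜ* F2 := tau.comp (α.comp tau) with hβdef
  obtain ⟨Φ, c1, c2, ΦA, ΦB⟩ := exists_glue_aut α β lamUnit hXY hβ hbij bβ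
  obtain ⟨s, s1, s2, sA, sB, sD, ss⟩ := Four.exists_swap
  have hΦ : ∀ i, ∃ c, Φ (ell i) = c * ppow (ell i) (lamUnit : Zhat) * c⁻¹ := by
    intro i
    fin_cases i
    · refine ⟨iA u, ?_⟩
      show Φ (ell 0) = iA u * ppow (ell 0) (lamUnit : Zhat) * (iA u)⁻¹
      rw [← iA_X, ΦA, hX, map_mul, map_mul, map_inv, map_ppow]
    · refine ⟨iA v, ?_⟩
      show Φ (ell 1) = iA v * ppow (ell 1) (lamUnit : Zhat) * (iA v)⁻¹
      rw [← iA_Y, ΦA, hY, map_mul, map_mul, map_inv, map_ppow]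
    · refine ⟨iB cX, ?_⟩
      show Φ (ell 2) = iB cX * ppow (ell 2) (lamUnit : Zhat) * (iB cX)⁻¹
      rw [← iB_X, ΦB, hcX, map_mul, map_mul, map_inv, map_ppow]
    · refine ⟨iB cY, ?_⟩
      show Φ (ell 3) = iB cY * ppow (ell 3) (lamUnit : Zhat) * (iB cY)⁻¹
      rw [← iB_Y, ΦB, hcY, map_mul, map_mul, map_inv, map_ppow]
  have hΦlac : LacWith (lamUnit : Zhat) Φ := by
    choose c hc using hΦ
    exact ⟨1, c, hc⟩
  have hslac : LacWith 1 s := by
    refine ⟨⟨![2, 3, 0, 1], ![2, 3, 0, 1], by decide, by decide⟩, fun _ => 1, fun i => ?_⟩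
    rw [one_mul, inv_one, mul_one, Pool.Agent.Helper75.Basic.ppow_one]
    fin_cases i
    · show s (ell 0) = ell 2
      rw [← iA_X, sA, iB_X]
    · show s (ell 1) = ell 3
      rw [← iA_Y, sA, iB_Y]
    · show s (ell 2) = ell 0
      rw [← iB_X, sB, iA_X]
    · show s (ell 3) = ell 1
      rw [← iB_Y, sB, iA_Y]
  let ΦL : AutLac 0 4 := mkA Φ c1 c2 ⟨lamUnit, isUnitZ_unit _, hΦlac⟩
  let sL : AutLac 0 4 := mkA s s1 s2 ⟨1, isUnitZ_unit 1, hslac⟩
  have hsdisc : IsDisc sL := sD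
  have hsT : cls sL ∈ TPlus 0 4 := ⟨sL, hsdisc.inClosure, hslac.one, rfl⟩
  have hUT : cls (ΦL * sL * ΦL⁻¹ * sL⁻¹) ∈ TPlus 0 4 := by
    show cls ΦL * cls sL * (cls ΦL)⁻¹ * (cls sL)⁻¹ ∈ TPlus 0 4
    exact mul_mem (hnormal.conj_mem _ hsT _) (inv_mem hsT)
  obtain ⟨W, hWbar, hWlac, hWeq⟩ := hUT
  have hWeq2 : W⁻¹ * (ΦL * sL * ΦL⁻¹ * sL⁻¹) ∈ InnLac 0 4 := QuotientGroup.eq.1 hWeq
  obtain ⟨g', hg'⟩ := hWeq2
  set U : AutLac 0 4 := ΦL * sL * ΦL⁻¹ * sL⁻¹ with hU
  have hUW : ∀ a, U.toFun a = W.toFun (g' * a * g'⁻¹) := by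
    intro a
    have h2 : W.invFun (U.toFun a) = g' * a * g'⁻¹ := hg' a
    rw [← h2]
    exact (W.right_inv (U.toFun a)).symm
  have hUapp : ∀ a, U.toFun a = Φ (s (Φ⁻¹ (s⁻¹ a))) := fun a => rfl
  have hsi : ∀ a, s⁻¹ a = s a := by
    intro a
    have h1 : s⁻¹ (s (s a)) = s a := MulAut.inv_apply_self _ _ _
    rw [ss] at h1
    exact h1
  have hUA : ∀ a, U.toFun (iA (β a)) = iA (α a) := by
    intro a
    rw [hUapp, hsi, sA, ← ΦB, MulAut.inv_apply_self, sB, ΦA]
  -- abelian test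
  obtain ⟨E, hE, hEo⟩ := exists_E
  set k := res (lamUnit : Zhat) 3 with hk
  have hEΦ : ∀ (E' : P4 →* A3), IsOpen (E'.ker : Set P4) → ∀ a, E' (Φ a) = E' a ^ k := by
    intro E' hE'
    have h1 : E'.comp Φ.toMonoidHom = (powMonoidHom k).comp E' := by
      apply P4_ext_finite
      · have : ((E'.comp Φ.toMonoidHom).ker : Set P4) = Φ ⁻¹' (E'.ker : Set P4) := rfl
        rw [this]
        exact hE'.preimage c1
      · apply Subgroup.isOpen_mono (H₁ := E'.ker) _ hE'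
        intro g hg
        rw [MonoidHom.mem_ker] at hg ⊢
        show (E' g) ^ k = 1
        rw [hg, one_pow]
      · intro i
        obtain ⟨c, hc⟩ := hΦ i
        show E' (Φ (ell i)) = E' (ell i) ^ k
        rw [hc, E_conj, fin_ppow E' hE' (ell i) _ 3 (A3_pow _)]
    exact fun a => DFunLike.congr_fun h1 a
  have hEU : ∀ a, E (U.toFun a) = E a := by
    intro a
    have hE'o : IsOpen ((E.comp s.toMonoidHom).ker : Set P4) := by
      have : ((E.comp s.toMonoidHom).ker : Set P4) = s ⁻¹' (E.ker : Set P4) := rfl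
      rw [this]
      exact hEo.preimage s1
    have h1 := hEΦ (E.comp s.toMonoidHom) hE'o (Φ⁻¹ (s⁻¹ a))
    rw [MulAut.apply_inv_self] at h1
    rw [hUapp, hEΦ E hEo]
    have h2 : (E.comp s.toMonoidHom) (Φ⁻¹ (s⁻¹ a)) = E (s (Φ⁻¹ (s⁻¹ a))) := rfl
    have h3 : (E.comp s.toMonoidHom) (s⁻¹ a) = E (s (s⁻¹ a)) := rfl
    rw [h2, h3, MulAut.apply_inv_self] at h1
    exact h1.symm
  have hEW : ∀ a, E (W.toFun a) = E a := by
    intro a
    have h1 := hUW (g'⁻¹ * a * g')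
    have h2 : g' * (g'⁻¹ * a * g') * g'⁻¹ = a := by group
    rw [h2] at h1
    rw [← h1, hEU]
    have h3 := E_conj E g'⁻¹ a
    rw [inv_inv] at h3
    exact h3
  -- conclusion
  obtain ⟨κ, k0, k1, k3, kd⟩ := exists_kap
  have hκA : ∀ a, κ (iA a) = a := by
    have : κ.comp iA = ContinuousMonoidHom.id F2 := by
      apply hom_ext_XY
      · show κ (iA X) = X
        rw [iA_X, k0]
      · show κ (iA Y) = Y
        rw [iA_Y, k1]
    exact fun a => DFunLike.congr_fun this a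
  refine no_conj lamUnit res_lamUnit α u v hX hY hXY ?_
  intro H _ _ ρ hρ
  have hρκ : IsOpen ((ρ.comp κ.toMonoidHom).ker : Set P4) := by
    have : ((ρ.comp κ.toMonoidHom).ker : Set P4) = κ ⁻¹' (ρ.ker : Set F2) := rfl
    rw [this]
    exact hρ.preimage κ.continuous_toFun
  let N : OpenNormalSubgroup P4 :=
    { toSubgroup := ((ρ.comp κ.toMonoidHom).prod E).ker
      isOpen' := isOpen_ker_prod _ _ hρκ hEo
      isNormal' := inferInstance }
  obtain ⟨W0, hW0, hN⟩ := hWbar N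
  have hN2 : ∀ a, ρ (κ (W.toFun a)) = ρ (κ (W0.toFun a)) ∧ E (W.toFun a) = E (W0.toFun a) := by
    intro a
    have h1 : W.toFun a * (W0.toFun a)⁻¹ ∈ ((ρ.comp κ.toMonoidHom).prod E).ker := hN a
    rw [MonoidHom.mem_ker, MonoidHom.prod_apply, Prod.mk_eq_one] at h1
    obtain ⟨h2, h3⟩ := h1
    rw [map_mul, map_inv, mul_inv_eq_one] at h2 h3
    exact ⟨h2, h3⟩
  have hW0E : ∀ a, E (W0.toFun a) = E a := fun a => by rw [← (hN2 a).2, hEW]
  refine ⟨κ.comp ((W0.toC).comp iA), κ (W.toFun g'),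
    good_disc κ k0 k1 k3 kd E hE hEo W0 hW0 hW0E, fun a => ?_⟩
  have h1 : ρ (α a) = ρ (κ (W.toFun (g' * iA (β a) * g'⁻¹))) := by
    rw [← hUW, hUA, hκA]
  have h2 : ρ (κ (W.toFun (g' * iA (β a) * g'⁻¹))) =
      ρ (κ (W.toFun g')) * ρ (κ (W.toFun (iA (β a)))) * (ρ (κ (W.toFun g')))⁻¹ := by
    show ρ (κ (W.toC (g' * iA (β a) * g'⁻¹))) =
      ρ (κ (W.toC g')) * ρ (κ (W.toC (iA (β a)))) * (ρ (κ (W.toC g')))⁻¹
    rw [map_mul, map_mul, map_inv, map_mul, map_mul, map_inv, map_mul, map_mul, map_inv]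
  rw [h1, h2, (hN2 (iA (β a))).1]
  rfl

end Pool.Agent.Helper75.FourMain
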