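import Mathlib
import Pool.Agent.Helper75.Defs
import Pool.Agent.Helper75.Basic
import Pool.Agent.Helper75.LacDefs

/-! The version of the groups `𝕋_{g,n}` and `𝔗̂⁺_{g,n}` with numbered punctures. -/

namespace Pool.Agent.Helper75.PureDefs

open Pool.Agent.Helper75.Defs Pool.Agent.Helper75.Basic
open Pool.Agent.Helper75.LacDefs (relator SurfGroup PiHat loop IsUnitZ exists_unit isUnitZ_unit)

/-- `f` sends every loop `l_i` to a conjugate of `l_i ^ l`. -/
def PLacWith {g n : ℕ} (l : Zhat) (f : PiHat g n → PiHat g n) : Prop :=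
  ∀ i : Fin n, ∃ a : PiHat g n, f (loop i) = a * ppow (loop i) l * a⁻¹

/-- `f` sends every loop `l_i` to a conjugate of `l_i`. -/
def PLacOne {g n : ℕ} (f : PiHat g n → PiHat g n) : Prop :=
  ∀ i : Fin n, ∃ a : PiHat g n, f (loop i) = a * loop i * a⁻¹

/-- The version of `Aut_lac` with numbered punctures: the continuous automorphisms sending every
`l_i` to a conjugate of `l_i ^ λ`, for some unit `λ` of the profinite integers. -/
structure PAutLac (g n : ℕ) where
  toFun : PiHat g n → PiHat g n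
  invFun : PiHat g n → PiHat g n
  left_inv : ∀ a, invFun (toFun a) = a
  right_inv : ∀ a, toFun (invFun a) = a
  map_mul : ∀ a b, toFun (a * b) = toFun a * toFun b
  continuous_toFun : Continuous toFun
  continuous_invFun : Continuous invFun
  lac : ∃ l : Zhat, IsUnitZ l ∧ PLacWith l toFun

variable {g n : ℕ}

/-! ### closure properties -/

lemma PAutLac.ext' {φ ψ : PAutLac g n} (h : ∀ a, φ.toFun a = ψ.toFun a) : φ = ψ := by
  have h1 : φ.toFun = ψ.toFun := funext h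
  have h2 : φ.invFun = ψ.invFun := by
    funext a
    calc φ.invFun a = φ.invFun (ψ.toFun (ψ.invFun a)) := by rw [ψ.right_inv]
      _ = φ.invFun (φ.toFun (ψ.invFun a)) := by rw [h]
      _ = ψ.invFun a := φ.left_inv _
  cases φ
  cases ψ
  simp only at h1 h2
  subst h1
  subst h2
  rfl

/-- an element of `PAutLac` as a continuous homomorphism -/
def PAutLac.toC (φ : PAutLac g n) : PiHat g n →ₜ* PiHat g n :=
  ⟨MonoidHom.mk' φ.toFun φ.map_mul, φ.continuous_toFun⟩

lemma PAutLac.toC_apply (φ : PAutLac g n) (a : PiHat g n) : φ.toC a = φ.toFun a := rfl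

/-- the inverse of an element of `PAutLac` as a continuous homomorphism -/
def PAutLac.toCinv (φ : PAutLac g n) : PiHat g n →ₜ* PiHat g n :=
  ⟨MonoidHom.mk' φ.invFun (by
    intro a b
    calc φ.invFun (a * b) = φ.invFun (φ.toFun (φ.invFun a) * φ.toFun (φ.invFun b)) := by
          rw [φ.right_inv, φ.right_inv]
      _ = φ.invFun (φ.toFun (φ.invFun a * φ.invFun b)) := by rw [φ.map_mul]
      _ = φ.invFun a * φ.invFun b := φ.left_inv _), φ.continuous_invFun⟩

lemma PLacWith.comp {l l' : Zhat} (φ : PiHat g n →ₜ* PiHat g n) {f : PiHat g n → PiHat g n}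
    (hφ : PLacWith l φ) (hf : PLacWith l' f) : PLacWith (l * l') (fun a => φ (f a)) := by
  intro i
  obtain ⟨a, ha⟩ := hφ i
  obtain ⟨b, hb⟩ := hf i
  refine ⟨φ b * a, ?_⟩
  simp only
  rw [hb, _root_.map_mul, _root_.map_mul, map_inv, map_ppow, ha, ppow_conj,
    ← Pool.Agent.Helper75.Basic.ppow_mul]
  group

lemma PLacWith.inverse {l : Zhatˣ} (φ : PiHat g n →ₜ* PiHat g n) {f : PiHat g n → PiHat g n}
    (h : ∀ a, φ (f a) = a) (hf : PLacWith (l : Zhat) f) :
    PLacWith ((l⁻¹ : Zhatˣ) : Zhat) φ := by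
  intro i
  obtain ⟨a, h0⟩ := hf i
  refine ⟨(φ a)⁻¹, ?_⟩
  have h2 := congrArg (fun t => φ t) h0
  simp only [h, _root_.map_mul, map_inv, map_ppow] at h2
  have h4 : ppow (φ (loop i)) (l : Zhat) = (φ a)⁻¹ * loop i * (φ a) := by
    calc ppow (φ (loop i)) (l : Zhat) =
        (φ a)⁻¹ * (φ a * ppow (φ (loop i)) (l : Zhat) * (φ a)⁻¹) * φ a := by group
      _ = _ := by rw [← h2]
  have h5 : ppow (ppow (φ (loop i)) (l : Zhat)) ((l⁻¹ : Zhatˣ) : Zhat) =
      ppow ((φ a)⁻¹ * loop i * ((φ a)⁻¹)⁻¹) ((l⁻¹ : Zhatˣ) : Zhat) := by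
    rw [h4, inv_inv]
  rw [← Pool.Agent.Helper75.Basic.ppow_mul, Units.mul_inv, Pool.Agent.Helper75.Basic.ppow_one,
    ppow_conj] at h5
  exact h5

lemma PLacOne.with {f : PiHat g n → PiHat g n} (hf : PLacOne f) : PLacWith 1 f := by
  intro i
  obtain ⟨a, ha⟩ := hf i
  exact ⟨a, by rw [Pool.Agent.Helper75.Basic.ppow_one, ha]⟩

lemma PLacWith.one {f : PiHat g n → PiHat g n} (hf : PLacWith 1 f) : PLacOne f := by
  intro i
  obtain ⟨a, ha⟩ := hf i
  exact ⟨a, by rw [ha, Pool.Agent.Helper75.Basic.ppow_one]⟩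

lemma pLacOne_conj (a : PiHat g n) : PLacOne (fun b => a * b * a⁻¹) :=
  fun _ => ⟨a, rfl⟩

/-- composition -/
def PAutLac.comp (φ ψ : PAutLac g n) : PAutLac g n where
  toFun := fun a => φ.toFun (ψ.toFun a)
  invFun := fun a => ψ.invFun (φ.invFun a)
  left_inv := fun a => by rw [φ.left_inv, ψ.left_inv]
  right_inv := fun a => by rw [ψ.right_inv, φ.right_inv]
  map_mul := fun a b => by rw [ψ.map_mul, φ.map_mul]
  continuous_toFun := φ.continuous_toFun.comp ψ.continuous_toFun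
  continuous_invFun := ψ.continuous_invFun.comp φ.continuous_invFun
  lac := by
    obtain ⟨l, hl, hl'⟩ := φ.lac
    obtain ⟨m, hm, hm'⟩ := ψ.lac
    obtain ⟨u, rfl⟩ := exists_unit l hl
    obtain ⟨v, rfl⟩ := exists_unit m hm
    refine ⟨((u * v : Zhatˣ) : Zhat), isUnitZ_unit _, ?_⟩
    rw [Units.val_mul]
    exact PLacWith.comp φ.toC hl' hm'

/-- conjugation by `a` -/
def PAutLac.conj (a : PiHat g n) : PAutLac g n where
  toFun := fun b => a * b * a⁻¹
  invFun := fun b => a⁻¹ * b * a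
  left_inv := fun b => by group
  right_inv := fun b => by group
  map_mul := fun b c => by group
  continuous_toFun := by fun_prop
  continuous_invFun := by fun_prop
  lac := ⟨1, isUnitZ_unit 1, (pLacOne_conj a).with⟩

/-- inverse -/
def PAutLac.inverse (φ : PAutLac g n) : PAutLac g n where
  toFun := φ.invFun
  invFun := φ.toFun
  left_inv := φ.right_inv
  right_inv := φ.left_inv
  map_mul := φ.toCinv.map_mul'
  continuous_toFun := φ.continuous_invFun
  continuous_invFun := φ.continuous_toFun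
  lac := by
    obtain ⟨l, hl, hl'⟩ := φ.lac
    obtain ⟨u, rfl⟩ := exists_unit l hl
    exact ⟨((u⁻¹ : Zhatˣ) : Zhat), isUnitZ_unit _, PLacWith.inverse φ.toCinv φ.left_inv hl'⟩

/-- the identity -/
def PAutLac.id (g n : ℕ) : PAutLac g n where
  toFun := fun a => a
  invFun := fun a => a
  left_inv := fun _ => rfl
  right_inv := fun _ => rfl
  map_mul := fun _ _ => rfl
  continuous_toFun := continuous_id
  continuous_invFun := continuous_id
  lac := ⟨1, isUnitZ_unit 1, fun i => ⟨1, by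
    rw [Pool.Agent.Helper75.Basic.ppow_one, one_mul, inv_one, mul_one]⟩⟩

instance instPMulAutLac (g n : ℕ) : Mul (PAutLac g n) := ⟨PAutLac.comp⟩
instance instPOneAutLac (g n : ℕ) : One (PAutLac g n) := ⟨PAutLac.id g n⟩
instance instPInvAutLac (g n : ℕ) : Inv (PAutLac g n) := ⟨PAutLac.inverse⟩

/-- the group structure on `Aut_lac`, with composition as product -/
instance instPGroupAutLac (g n : ℕ) : Group (PAutLac g n) :=
  Group.ofLeftAxioms (fun _ _ _ => rfl) (fun _ => rfl) (fun φ => PAutLac.ext' φ.left_inv)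

/-- The inner automorphisms. -/
def PInnLac (g n : ℕ) : Subgroup (PAutLac g n) where
  carrier := {φ | ∃ a, ∀ b, φ.toFun b = a * b * a⁻¹}
  mul_mem' := by
    rintro φ ψ ⟨a, ha⟩ ⟨b, hb⟩
    refine ⟨a * b, fun c => ?_⟩
    show φ.toFun (ψ.toFun c) = _
    rw [hb, ha]
    group
  one_mem' := ⟨1, fun c => by
    show c = _
    group⟩
  inv_mem' := by
    rintro φ ⟨a, ha⟩
    refine ⟨a⁻¹, fun c => ?_⟩
    show φ.invFun c = _
    have h1 : φ.toFun (a⁻¹ * c * a⁻¹⁻¹) = c := by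
      rw [ha]; group
    calc φ.invFun c = φ.invFun (φ.toFun (a⁻¹ * c * a⁻¹⁻¹)) := by rw [h1]
      _ = a⁻¹ * c * a⁻¹⁻¹ := φ.left_inv _

instance instPNormalInnLac (g n : ℕ) : (PInnLac g n).Normal := by
  constructor
  rintro φ ⟨a, ha⟩ ψ
  refine ⟨ψ.toFun a, fun b => ?_⟩
  show ψ.toFun (φ.toFun (ψ.invFun b)) = _
  rw [ha, ψ.map_mul, ψ.map_mul, ψ.right_inv]
  have h1 : ψ.toFun a⁻¹ = (ψ.toFun a)⁻¹ := map_inv ψ.toC a
  rw [h1]

/-- The outer group `𝕋_{g,n} = Aut_lac / Inn`. -/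
def PTT (g n : ℕ) : Type := PAutLac g n ⧸ PInnLac g n

instance instPGroupTT (g n : ℕ) : Group (PTT g n) :=
  (inferInstance : Group (PAutLac g n ⧸ PInnLac g n))

/-- The class of an automorphism in `𝕋_{g,n}`. -/
def pcls {g n : ℕ} (φ : PAutLac g n) : PTT g n := QuotientGroup.mk φ

/-- The discrete automorphisms: those that map `π_{g,n}` onto itself. -/
def PIsDisc {g n : ℕ} (φ : PAutLac g n) : Prop :=
  φ.toFun '' Set.range (eta (SurfGroup g n)) = Set.range (eta (SurfGroup g n))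

/-- The closure of the discrete automorphisms in `Aut_lac` for the profinite topology: `φ` such
that for every open normal subgroup `N` some discrete `ψ` agrees with `φ` modulo `N`. -/
def PInClosure {g n : ℕ} (φ : PAutLac g n) : Prop :=
  ∀ N : OpenNormalSubgroup (PiHat g n), ∃ ψ : PAutLac g n, PIsDisc ψ ∧
    ∀ a, φ.toFun a * (ψ.toFun a)⁻¹ ∈ N.toSubgroup

lemma PIsDisc.mul {φ ψ : PAutLac g n} (h1 : PIsDisc φ) (h2 : PIsDisc ψ) : PIsDisc (φ * ψ) := by
  show (fun a => φ.toFun (ψ.toFun a)) '' _ = _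
  have : (fun a => φ.toFun (ψ.toFun a)) = φ.toFun ∘ ψ.toFun := rfl
  unfold PIsDisc at h1 h2
  rw [this, Set.image_comp, h2, h1]

lemma PIsDisc.one : PIsDisc (1 : PAutLac g n) := by
  show (fun a => a) '' _ = _
  simp

lemma PIsDisc.inv {φ : PAutLac g n} (h1 : PIsDisc φ) : PIsDisc φ⁻¹ := by
  show φ.invFun '' _ = _
  unfold PIsDisc at h1
  conv_lhs => rw [← h1]
  rw [Set.image_image]
  simp only [φ.left_inv, Set.image_id']

lemma PInClosure.mul {φ φ' : PAutLac g n} (h1 : PInClosure φ) (h2 : PInClosure φ') :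
    PInClosure (φ * φ') := by
  intro N
  obtain ⟨ψ, hψ, hψN⟩ := h1 N
  let N' : OpenNormalSubgroup (PiHat g n) :=
    { toSubgroup := N.toSubgroup.comap φ.toC.toMonoidHom
      isOpen' := N.isOpen'.preimage φ.continuous_toFun
      isNormal' := Subgroup.Normal.comap N.isNormal' _ }
  obtain ⟨ψ', hψ', hψN'⟩ := h2 N'
  refine ⟨ψ * ψ', hψ.mul hψ', fun a => ?_⟩
  show φ.toC (φ'.toFun a) * (ψ.toFun (ψ'.toFun a))⁻¹ ∈ N.toSubgroup
  have h3 : φ.toC (φ'.toFun a * (ψ'.toFun a)⁻¹) ∈ N.toSubgroup := hψN' a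
  have h4 : φ.toC (ψ'.toFun a) * (ψ.toFun (ψ'.toFun a))⁻¹ ∈ N.toSubgroup := hψN _
  have h5 := mul_mem h3 h4
  rw [_root_.map_mul, map_inv] at h5
  have h6 : φ.toC (φ'.toFun a) * (φ.toC (ψ'.toFun a))⁻¹ * (φ.toC (ψ'.toFun a) *
    (ψ.toFun (ψ'.toFun a))⁻¹) = φ.toC (φ'.toFun a) * (ψ.toFun (ψ'.toFun a))⁻¹ := by group
  rwa [h6] at h5

lemma PIsDisc.inClosure {φ : PAutLac g n} (h : PIsDisc φ) : PInClosure φ := by
  intro N
  refine ⟨φ, h, fun a => ?_⟩
  rw [mul_inv_cancel]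
  exact one_mem _

lemma PInClosure.inv {φ : PAutLac g n} (h1 : PInClosure φ) : PInClosure φ⁻¹ := by
  intro N
  let N' : OpenNormalSubgroup (PiHat g n) :=
    { toSubgroup := N.toSubgroup.comap φ.toCinv.toMonoidHom
      isOpen' := N.isOpen'.preimage φ.continuous_invFun
      isNormal' := Subgroup.Normal.comap N.isNormal' _ }
  obtain ⟨ψ, hψ, hψN⟩ := h1 N'
  refine ⟨ψ⁻¹, hψ.inv, fun a => ?_⟩
  show φ.invFun a * (ψ.invFun a)⁻¹ ∈ N.toSubgroup
  have h2 : φ.toCinv (φ.toFun (ψ.invFun a) * (ψ.toFun (ψ.invFun a))⁻¹) ∈ N.toSubgroup := hψN _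
  rw [_root_.map_mul, map_inv, ψ.right_inv] at h2
  have h7 : φ.toCinv (φ.toFun (ψ.invFun a)) = ψ.invFun a := φ.left_inv _
  rw [h7] at h2
  have h3 := inv_mem h2
  have h4 : (ψ.invFun a * (φ.toCinv a)⁻¹)⁻¹ = φ.toCinv a * (ψ.invFun a)⁻¹ := by group
  rwa [h4] at h3

/-- The subgroup `𝔗̂⁺_{g,n}` of `𝕋_{g,n}` (for `n ≥ 1`): the classes of the elements of the
closure of the discrete automorphisms whose cyclotomic character is `1`. -/
def PTPlus (g n : ℕ) : Subgroup (PTT g n) where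
  carrier := {t | ∃ φ : PAutLac g n, PInClosure φ ∧ PLacOne φ.toFun ∧ pcls φ = t}
  mul_mem' := by
    rintro _ _ ⟨φ, h1, h2, rfl⟩ ⟨ψ, h3, h4, rfl⟩
    refine ⟨φ * ψ, h1.mul h3, ?_, rfl⟩
    have h5 := PLacWith.comp φ.toC h2.with h4.with
    rw [mul_one] at h5
    exact h5.one
  one_mem' := by
    refine ⟨1, PIsDisc.one.inClosure, ?_, rfl⟩
    have := pLacOne_conj (1 : PiHat g n)
    simp only [one_mul, inv_one, mul_one] at this
    exact this
  inv_mem' := by
    rintro _ ⟨φ, h1, h2, rfl⟩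
    refine ⟨φ⁻¹, h1.inv, ?_, rfl⟩
    have h3 := PLacWith.inverse (l := 1) φ.toCinv φ.left_inv
      (by rw [Units.val_one]; exact h2.with)
    rw [inv_one, Units.val_one] at h3
    exact h3.one

end Pool.Agent.Helper75.PureDefs
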