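import Mathlib

/-! The wreath product with a group of order two, as a topological group. -/

set_option linter.dupNamespace false
set_option linter.unusedSectionVars false

namespace Pool.Agent.Helper75.W2

/-- The wreath product of `G` with the group of order two. -/
@[ext] structure W2 (G : Type) where
  a : G
  b : G
  s : Bool

namespace W2

variable {G : Type} [Group G]

instance : Mul (W2 G) := ⟨fun p q => ⟨p.a * cond p.s q.b q.a, p.b * cond p.s q.a q.b, xor p.s q.s⟩⟩
instance : One (W2 G) := ⟨⟨1, 1, false⟩⟩
instance : Inv (W2 G) := ⟨fun p => ⟨cond p.s p.b⁻¹ p.a⁻¹, cond p.s p.a⁻¹ p.b⁻¹, p.s⟩⟩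

lemma mul_a (p q : W2 G) : (p * q).a = p.a * cond p.s q.b q.a := rfl
lemma mul_b (p q : W2 G) : (p * q).b = p.b * cond p.s q.a q.b := rfl
lemma mul_s (p q : W2 G) : (p * q).s = xor p.s q.s := rfl
lemma one_a : (1 : W2 G).a = 1 := rfl
lemma one_b : (1 : W2 G).b = 1 := rfl
lemma one_s : (1 : W2 G).s = false := rfl
lemma inv_a (p : W2 G) : (p⁻¹).a = cond p.s p.b⁻¹ p.a⁻¹ := rfl
lemma inv_b (p : W2 G) : (p⁻¹).b = cond p.s p.a⁻¹ p.b⁻¹ := rfl
lemma inv_s (p : W2 G) : (p⁻¹).s = p.s := rfl

instance : Group (W2 G) :=
  Group.ofLeftAxioms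
    (by
      rintro ⟨pa, pb, ps⟩ ⟨qa, qb, qs⟩ ⟨ra, rb, rs⟩
      cases ps <;> cases qs <;> cases rs <;>
        simp [W2.ext_iff, mul_a, mul_b, mul_s, mul_assoc])
    (by
      rintro ⟨pa, pb, ps⟩
      cases ps <;> simp [W2.ext_iff, mul_a, mul_b, mul_s, one_a, one_b, one_s])
    (by
      rintro ⟨pa, pb, ps⟩
      cases ps <;>
        simp [W2.ext_iff, mul_a, mul_b, mul_s, one_a, one_b, one_s, inv_a, inv_b, inv_s])

instance [Finite G] : Finite (W2 G) := by
  have h : Function.Injective (fun p : W2 G => (p.a, p.b, p.s)) := by
    intro p q hpq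
    simp only [Prod.mk.injEq] at hpq
    exact W2.ext hpq.1 hpq.2.1 hpq.2.2
  exact Finite.of_injective _ h

/-- functoriality -/
def map {H : Type} [Group H] (f : G →* H) : W2 G →* W2 H where
  toFun p := ⟨f p.a, f p.b, p.s⟩
  map_one' := by simp [W2.ext_iff, one_a, one_b, one_s]
  map_mul' := by
    rintro ⟨pa, pb, ps⟩ ⟨qa, qb, qs⟩
    cases ps <;> simp [W2.ext_iff, mul_a, mul_b, mul_s]

lemma map_apply {H : Type} [Group H] (f : G →* H) (p : W2 G) : map f p = ⟨f p.a, f p.b, p.s⟩ :=
  rfl

section topology

variable [TopologicalSpace G]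

instance : TopologicalSpace (W2 G) :=
  TopologicalSpace.induced (fun p => (p.a, p.b, p.s)) inferInstance

/-- the coordinates -/
def coords (G : Type) [TopologicalSpace G] : W2 G ≃ₜ G × G × Bool where
  toFun p := (p.a, p.b, p.s)
  invFun q := ⟨q.1, q.2.1, q.2.2⟩
  left_inv _ := rfl
  right_inv _ := rfl
  continuous_toFun := continuous_induced_dom
  continuous_invFun := by
    rw [continuous_induced_rng]
    exact continuous_id

lemma continuous_a : Continuous (fun p : W2 G => p.a) :=
  continuous_fst.comp (coords G).continuous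

lemma continuous_b : Continuous (fun p : W2 G => p.b) :=
  (continuous_fst.comp continuous_snd).comp (coords G).continuous

lemma continuous_s : Continuous (fun p : W2 G => p.s) :=
  (continuous_snd.comp continuous_snd).comp (coords G).continuous

lemma continuous_mk {Z : Type} [TopologicalSpace Z] {f g : Z → G} {h : Z → Bool}
    (hf : Continuous f) (hg : Continuous g) (hh : Continuous h) :
    Continuous (fun z => (⟨f z, g z, h z⟩ : W2 G)) := by
  rw [continuous_induced_rng]
  exact hf.prodMk (hg.prodMk hh)

lemma continuous_cond : Continuous (fun p : Bool × G × G => cond p.1 p.2.1 p.2.2) := by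
  rw [continuous_prod_of_discrete_left]
  intro a
  cases a
  · exact continuous_snd
  · exact continuous_fst

instance [CompactSpace G] : CompactSpace (W2 G) := (coords G).symm.compactSpace

instance [TotallyDisconnectedSpace G] : TotallyDisconnectedSpace (W2 G) :=
  (coords G).symm.totallyDisconnectedSpace

instance [IsTopologicalGroup G] : IsTopologicalGroup (W2 G) where
  continuous_mul := by
    refine continuous_mk ?_ ?_ ?_
    · exact (continuous_a.comp continuous_fst).mul
        (continuous_cond.comp ((continuous_s.comp continuous_fst).prodMk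
          ((continuous_b.comp continuous_snd).prodMk (continuous_a.comp continuous_snd))))
    · exact (continuous_b.comp continuous_fst).mul
        (continuous_cond.comp ((continuous_s.comp continuous_fst).prodMk
          ((continuous_a.comp continuous_snd).prodMk (continuous_b.comp continuous_snd))))
    · have h : Continuous (fun q : Bool × Bool => xor q.1 q.2) := continuous_of_discreteTopology
      exact h.comp ((continuous_s.comp continuous_fst).prodMk (continuous_s.comp continuous_snd))
  continuous_inv := by
    refine continuous_mk ?_ ?_ continuous_s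
    · exact continuous_cond.comp (continuous_s.prodMk
        ((continuous_b.inv).prodMk (continuous_a.inv)))
    · exact continuous_cond.comp (continuous_s.prodMk
        ((continuous_a.inv).prodMk (continuous_b.inv)))

/-- functoriality, continuous version -/
def mapC {H : Type} [Group H] [TopologicalSpace H] (f : G →ₜ* H) : W2 G →ₜ* W2 H :=
  ⟨map f.toMonoidHom, continuous_mk (f.continuous_toFun.comp continuous_a)
    (f.continuous_toFun.comp continuous_b) continuous_s⟩

lemma mapC_apply {H : Type} [Group H] [TopologicalSpace H] (f : G →ₜ* H) (p : W2 G) :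
    mapC f p = ⟨f p.a, f p.b, p.s⟩ := rfl

end topology

end W2

end Pool.Agent.Helper75.W2
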