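import Mathlib
import Pool.Agent.Helper75.Defs
import Pool.Agent.Helper75.F2Defs
import Pool.Agent.Helper75.Basic
import Pool.Agent.Helper75.F2Lemmas
import Pool.Agent.Helper75.LacDefs
import Pool.Agent.Helper75.PureDefs
import Pool.Agent.Helper75.Core
import Pool.Agent.Helper75.CoreFinal
import Pool.Agent.Helper75.Four
import Pool.Agent.Helper75.FourMain
import Pool.Agent.Helper75.Exist2
import Pool.Agent.Helper75.Unit3
import Pool.Agent.Helper75.W2

/-! The version with numbered punctures: `𝔗̂⁺_{0,4}` is not normal in `𝕋_{0,4}`. -/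

namespace Pool.Agent.Helper75.PureMain

open Pool.Agent.Helper75.Defs Pool.Agent.Helper75.F2Defs Pool.Agent.Helper75.Basic
  Pool.Agent.Helper75.F2Lemmas Pool.Agent.Helper75.PureDefs Pool.Agent.Helper75.Core
  Pool.Agent.Helper75.CoreFinal Pool.Agent.Helper75.Four Pool.Agent.Helper75.Exist2
  Pool.Agent.Helper75.Unit3 Pool.Agent.Helper75.W2
open Pool.Agent.Helper75.LacDefs (relator SurfGroup PiHat loop IsUnitZ exists_unit isUnitZ_unit)
open Pool.Agent.Helper75.FourMain (exists_exp int_eq_zero_of_forall int_eq_of_forall beta_props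
  tau_bijective)
open W2

lemma P4_ext123 {Q : Type} [Group Q] [TopologicalSpace Q] [T2Space Q] {f g : P4 →ₜ* Q}
    (h1 : f (ell 1) = g (ell 1)) (h2 : f (ell 2) = g (ell 2)) (h3 : f (ell 3) = g (ell 3)) :
    f = g := by
  have h : ell 0 = (ell 1 * ell 2 * ell 3)⁻¹ := by
    have h := ell_prod
    rw [mul_assoc, mul_assoc, ← mul_assoc (ell 1)] at h
    exact eq_inv_of_mul_eq_one_left h
  apply P4_ext
  intro i
  fin_cases i
  · show f (ell 0) = g (ell 0)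
    rw [h, map_inv, map_inv, map_mul, map_mul, map_mul, map_mul, h1, h2, h3]
  · exact h1
  · exact h2
  · exact h3

/-- inclusion of the first factor -/
def j1 : F2 →ₜ* W2 F2 where
  toFun w := ⟨w, 1, false⟩
  map_one' := rfl
  map_mul' a b := by simp [W2.ext_iff, mul_a, mul_b, mul_s]
  continuous_toFun := continuous_mk continuous_id continuous_const continuous_const

lemma j1_apply (w : F2) : j1 w = ⟨w, 1, false⟩ := rfl

/-- conjugation as a continuous endomorphism -/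
def conjC {G : Type} [Group G] [TopologicalSpace G] [IsTopologicalGroup G] (g : G) : G →ₜ* G :=
  ⟨(MulAut.conj g).toMonoidHom, by
    show Continuous fun a => g * a * g⁻¹
    fun_prop⟩

lemma conjC_apply {G : Type} [Group G] [TopologicalSpace G] [IsTopologicalGroup G] (g a : G) :
    conjC g a = g * a * g⁻¹ := rfl

lemma exists_Theta : ∃ Θ : P4 →ₜ* W2 F2, Θ (ell 1) = ⟨1, 1, true⟩ ∧ Θ (ell 2) = ⟨X, 1, false⟩ ∧
    Θ (ell 3) = ⟨Y, 1, false⟩ ∧ ∀ g : S4, ∃ w : W2 (FreeGroup (Fin 2)),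
      Θ (eta S4 g) = ⟨eta _ w.a, eta _ w.b, w.s⟩ := by
  obtain ⟨f, hf⟩ := exists_disc (Q := W2 (FreeGroup (Fin 2)))
    ![⟨(FreeGroup.of 0 * FreeGroup.of 1)⁻¹, 1, true⟩, ⟨1, 1, true⟩, ⟨FreeGroup.of 0, 1, false⟩,
      ⟨FreeGroup.of 1, 1, false⟩] (by
      show (⟨(FreeGroup.of 0 * FreeGroup.of 1)⁻¹, 1, true⟩ : W2 (FreeGroup (Fin 2))) *
        ⟨1, 1, true⟩ * ⟨FreeGroup.of 0, 1, false⟩ * ⟨FreeGroup.of 1, 1, false⟩ = 1
      simp [W2.ext_iff, mul_a, mul_b, mul_s, one_a, one_b, one_s])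
  obtain ⟨Θ, hΘ⟩ := exists_lift (Q := W2 F2) ((W2.map (eta _)).comp f)
  refine ⟨Θ, ?_, ?_, ?_, fun g => ⟨f g, hΘ g⟩⟩
  · rw [ell_eq, hΘ]
    show W2.map (eta _) (f (dl 1)) = _
    rw [hf]
    show (⟨eta _ 1, eta _ 1, true⟩ : W2 F2) = _
    rw [map_one]
  · rw [ell_eq, hΘ]
    show W2.map (eta _) (f (dl 2)) = _
    rw [hf]
    show (⟨eta _ (FreeGroup.of 0), eta _ 1, false⟩ : W2 F2) = _
    rw [map_one]
    rfl
  · rw [ell_eq, hΘ]
    show W2.map (eta _) (f (dl 3)) = _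
    rw [hf]
    show (⟨eta _ (FreeGroup.of 1), eta _ 1, false⟩ : W2 F2) = _
    rw [map_one]
    rfl

lemma dl_prod' : dl 0 * (dl 1 * dl 2) * dl 3 = 1 := by
  rw [← mul_assoc]; exact dl_prod

/-- the Dehn twist around the punctures 2 and 3, discrete version -/
lemma exists_twist_disc : ∃ f f' : S4 →* S4,
    (f (dl 0) = dl 0 ∧ f (dl 1) = (dl 1 * dl 2) * dl 1 * (dl 1 * dl 2)⁻¹ ∧
      f (dl 2) = (dl 1 * dl 2) * dl 2 * (dl 1 * dl 2)⁻¹ ∧ f (dl 3) = dl 3) ∧
    (∀ a, f (f' a) = a) ∧ (∀ a, f' (f a) = a) := by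
  obtain ⟨f, hf⟩ := exists_disc ![dl 0, (dl 1 * dl 2) * dl 1 * (dl 1 * dl 2)⁻¹,
    (dl 1 * dl 2) * dl 2 * (dl 1 * dl 2)⁻¹, dl 3] (by
    show dl 0 * ((dl 1 * dl 2) * dl 1 * (dl 1 * dl 2)⁻¹) *
      ((dl 1 * dl 2) * dl 2 * (dl 1 * dl 2)⁻¹) * dl 3 = 1
    have : dl 0 * ((dl 1 * dl 2) * dl 1 * (dl 1 * dl 2)⁻¹) *
      ((dl 1 * dl 2) * dl 2 * (dl 1 * dl 2)⁻¹) * dl 3 = dl 0 * (dl 1 * dl 2) * dl 3 := by group
    rw [this, dl_prod'])
  obtain ⟨f', hf'⟩ := exists_disc ![dl 0, (dl 1 * dl 2)⁻¹ * dl 1 * (dl 1 * dl 2),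
    (dl 1 * dl 2)⁻¹ * dl 2 * (dl 1 * dl 2), dl 3] (by
    show dl 0 * ((dl 1 * dl 2)⁻¹ * dl 1 * (dl 1 * dl 2)) *
      ((dl 1 * dl 2)⁻¹ * dl 2 * (dl 1 * dl 2)) * dl 3 = 1
    have : dl 0 * ((dl 1 * dl 2)⁻¹ * dl 1 * (dl 1 * dl 2)) *
      ((dl 1 * dl 2)⁻¹ * dl 2 * (dl 1 * dl 2)) * dl 3 = dl 0 * (dl 1 * dl 2) * dl 3 := by group
    rw [this, dl_prod'])
  have f0 : f (dl 0) = dl 0 := hf 0
  have f1 : f (dl 1) = (dl 1 * dl 2) * dl 1 * (dl 1 * dl 2)⁻¹ := hf 1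
  have f2 : f (dl 2) = (dl 1 * dl 2) * dl 2 * (dl 1 * dl 2)⁻¹ := hf 2
  have f3 : f (dl 3) = dl 3 := hf 3
  have g0 : f' (dl 0) = dl 0 := hf' 0
  have g1 : f' (dl 1) = (dl 1 * dl 2)⁻¹ * dl 1 * (dl 1 * dl 2) := hf' 1
  have g2 : f' (dl 2) = (dl 1 * dl 2)⁻¹ * dl 2 * (dl 1 * dl 2) := hf' 2
  have g3 : f' (dl 3) = dl 3 := hf' 3
  have fd : f (dl 1 * dl 2) = dl 1 * dl 2 := by rw [map_mul, f1, f2]; group
  have gd : f' (dl 1 * dl 2) = dl 1 * dl 2 := by rw [map_mul, g1, g2]; group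
  refine ⟨f, f', ⟨f0, f1, f2, f3⟩, ?_, ?_⟩
  · have : f.comp f' = MonoidHom.id S4 := by
      apply disc_ext
      intro i
      fin_cases i
      · show f (f' (dl 0)) = dl 0
        rw [g0, f0]
      · show f (f' (dl 1)) = dl 1
        rw [g1, map_mul, map_mul, map_inv, fd, f1]; group
      · show f (f' (dl 2)) = dl 2
        rw [g2, map_mul, map_mul, map_inv, fd, f2]; group
      · show f (f' (dl 3)) = dl 3
        rw [g3, f3]
    exact fun a => DFunLike.congr_fun this a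
  · have : f'.comp f = MonoidHom.id S4 := by
      apply disc_ext
      intro i
      fin_cases i
      · show f' (f (dl 0)) = dl 0
        rw [f0, g0]
      · show f' (f (dl 1)) = dl 1
        rw [f1, map_mul, map_mul, map_inv, gd, g1]; group
      · show f' (f (dl 2)) = dl 2
        rw [f2, map_mul, map_mul, map_inv, gd, g2]; group
      · show f' (f (dl 3)) = dl 3
        rw [f3, g3]
    exact fun a => DFunLike.congr_fun this a

/-- mutually inverse continuous endomorphisms of the right shape, as an element of `PAutLac` -/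
def mkP (φ ψ : P4 →ₜ* P4) (h1 : ∀ a, φ (ψ a) = a) (h2 : ∀ a, ψ (φ a) = a)
    (h : ∃ l : Zhat, IsUnitZ l ∧ PLacWith l φ) : PAutLac 0 4 where
  toFun := φ
  invFun := ψ
  left_inv := h2
  right_inv := h1
  map_mul := map_mul φ
  continuous_toFun := φ.continuous_toFun
  continuous_invFun := ψ.continuous_toFun
  lac := h

/-- the Dehn twist -/
lemma exists_twist : ∃ T : PAutLac 0 4, PIsDisc T ∧ PLacOne T.toFun ∧
    T.toFun (ell 0) = ell 0 ∧ T.toFun (ell 1) = (ell 1 * ell 2) * ell 1 * (ell 1 * ell 2)⁻¹ ∧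
    T.toFun (ell 2) = (ell 1 * ell 2) * ell 2 * (ell 1 * ell 2)⁻¹ ∧ T.toFun (ell 3) = ell 3 := by
  obtain ⟨f, f', ⟨f0, f1, f2, f3⟩, hff, hff'⟩ := exists_twist_disc
  obtain ⟨φ, hφ⟩ := exists_lift (Q := P4) ((eta S4).comp f)
  obtain ⟨ψ, hψ⟩ := exists_lift (Q := P4) ((eta S4).comp f')
  have h1 : ∀ a, φ (ψ a) = a := by
    have : φ.comp ψ = ContinuousMonoidHom.id P4 := by
      apply hom_ext
      intro g
      show φ (ψ (eta S4 g)) = eta S4 g
      rw [hψ]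
      show φ (eta S4 (f' g)) = eta S4 g
      rw [hφ]
      show eta S4 (f (f' g)) = eta S4 g
      rw [hff]
    exact fun a => DFunLike.congr_fun this a
  have h2 : ∀ a, ψ (φ a) = a := by
    have : ψ.comp φ = ContinuousMonoidHom.id P4 := by
      apply hom_ext
      intro g
      show ψ (φ (eta S4 g)) = eta S4 g
      rw [hφ]
      show ψ (eta S4 (f g)) = eta S4 g
      rw [hψ]
      show eta S4 (f' (f g)) = eta S4 g
      rw [hff']
    exact fun a => DFunLike.congr_fun this a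
  have e0 : φ (ell 0) = ell 0 := by
    rw [ell_eq, hφ]
    show eta S4 (f (dl 0)) = _
    rw [f0]
  have e1 : φ (ell 1) = (ell 1 * ell 2) * ell 1 * (ell 1 * ell 2)⁻¹ := by
    rw [ell_eq, hφ]
    show eta S4 (f (dl 1)) = _
    rw [f1, map_mul, map_mul, map_inv, map_mul]
    rfl
  have e2 : φ (ell 2) = (ell 1 * ell 2) * ell 2 * (ell 1 * ell 2)⁻¹ := by
    rw [ell_eq 2, hφ]
    show eta S4 (f (dl 2)) = _
    rw [f2, map_mul, map_mul, map_inv, map_mul]
    rfl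
  have e3 : φ (ell 3) = ell 3 := by
    rw [ell_eq, hφ]
    show eta S4 (f (dl 3)) = _
    rw [f3]
  have hone : PLacOne (φ : P4 → P4) := by
    intro i
    fin_cases i
    · exact ⟨1, by
        show φ (ell 0) = 1 * ell 0 * 1⁻¹
        rw [e0]; group⟩
    · exact ⟨_, e1⟩
    · exact ⟨_, e2⟩
    · exact ⟨1, by
        show φ (ell 3) = 1 * ell 3 * 1⁻¹
        rw [e3]; group⟩
  refine ⟨mkP φ ψ h1 h2 ⟨1, isUnitZ_unit 1, hone.with⟩, ?_, hone, e0, e1, e2, e3⟩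
  show φ '' Set.range (eta S4) = Set.range (eta S4)
  ext b
  constructor
  · rintro ⟨_, ⟨g, rfl⟩, rfl⟩
    exact ⟨f g, (hφ g).symm⟩
  · rintro ⟨g, rfl⟩
    refine ⟨eta S4 (f' g), ⟨f' g, rfl⟩, ?_⟩
    rw [hφ]
    show eta S4 (f (f' g)) = _
    rw [hff]

/-! ### the test -/

/-- the abelian test group -/
abbrev A2 : Type := Multiplicative (ZMod 3 × ZMod 3)

lemma A2_pow (x : A2) : x ^ ((3 : ℕ+) : ℕ) = 1 := by
  revert x
  decide

lemma exists_e : ∃ e : F2 →* A2, e X = Multiplicative.ofAdd (1, 0) ∧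
    e Y = Multiplicative.ofAdd (0, 1) ∧ IsOpen (e.ker : Set F2) :=
  exists_finite_XY _ _

lemma e_conj (e : F2 →* A2) (a b : F2) : e (a * b * a⁻¹) = e b := by
  rw [map_mul, map_mul, map_inv, mul_comm (e a), mul_assoc, mul_inv_cancel, mul_one]

lemma decX : ∀ m : Fin 3, (Multiplicative.ofAdd ((1, 0) : ZMod 3 × ZMod 3)) ^ (m : ℕ) =
    Multiplicative.ofAdd (1, 0) → m = 1 := by decide

lemma decX1 : (1 : A2) ≠ Multiplicative.ofAdd (1, 0) := by decide
lemma decY1 : (1 : A2) ≠ Multiplicative.ofAdd (0, 1) := by decide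

/-- profinite powers of an involution -/
lemma ppow_invol {G : Type} [Group G] [TopologicalSpace G] [IsTopologicalGroup G]
    [CompactSpace G] [TotallyDisconnectedSpace G] (g : G) (hg : g * g = 1) (μ : Zhat)
    (hμ : IsUnitZ μ) : ppow g μ = g := by
  symm
  rw [eq_ppow_iff]
  intro N
  have h1 : (QuotientGroup.mk g : G ⧸ N.toSubgroup) ^ 2 = 1 := by
    rw [sq, ← QuotientGroup.mk_mul, hg, QuotientGroup.mk_one]
  have hc := hμ (pcard N)
  rcases Nat.even_or_odd (res μ (pcard N)) with he | ho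
  · have hodd : Nat.Coprime 2 (pcard N : ℕ) := Nat.Coprime.coprime_dvd_left he.two_dvd hc
    have h2 : (QuotientGroup.mk g : G ⧸ N.toSubgroup) ^ (pcard N : ℕ) = 1 := pow_card_eq_one'
    have h3 : (QuotientGroup.mk g : G ⧸ N.toSubgroup) = 1 := by
      have h4 := orderOf_dvd_of_pow_eq_one h1
      have h5 := orderOf_dvd_of_pow_eq_one h2
      have h6 := Nat.dvd_gcd h4 h5
      rw [hodd, Nat.dvd_one] at h6
      exact orderOf_eq_one_iff.1 h6
    rw [h3, one_pow]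
  · obtain ⟨k, hk⟩ := ho
    rw [hk, pow_add, pow_mul, h1, one_pow, one_mul, pow_one]

/-- the endomorphism of `F2` attached to `V` -/
noncomputable def th (Θ : P4 →ₜ* W2 F2) (V : PAutLac 0 4) : F2 →ₜ* F2 :=
  ev (Θ (V.toFun (ell 2))).a (Θ (V.toFun (ell 3))).a

section

variable {G : Type} [Group G]

lemma conj_false (p q x : G) : (⟨p, q, false⟩ : W2 G) * ⟨x, 1, false⟩ * (⟨p, q, false⟩ : W2 G)⁻¹ =
    ⟨p * x * p⁻¹, 1, false⟩ := by
  simp [W2.ext_iff, mul_a, mul_b, mul_s, inv_a, inv_b, inv_s]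

lemma conj_true (p q x : G) : (⟨p, q, true⟩ : W2 G) * ⟨x, 1, false⟩ * (⟨p, q, true⟩ : W2 G)⁻¹ =
    ⟨1, q * x * q⁻¹, false⟩ := by
  simp [W2.ext_iff, mul_a, mul_b, mul_s, inv_a, inv_b, inv_s]

lemma conj_sigma (p : W2 G) : p * ⟨1, 1, true⟩ * p⁻¹ = ⟨p.a * p.b⁻¹, p.b * p.a⁻¹, true⟩ := by
  obtain ⟨p, q, s⟩ := p
  cases s <;> simp [W2.ext_iff, mul_a, mul_b, mul_s, inv_a, inv_b, inv_s]

end

/-- shape of conjugates of elements of the first factor, under the test -/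
lemma shape (e : F2 →* A2) (c : A2) (hc : (1 : A2) ≠ c) (P : W2 F2) (x y : F2) (hy : e y = c)
    (h : W2.map e (P * ⟨x, 1, false⟩ * P⁻¹) = W2.map e ⟨y, 1, false⟩) :
    P * ⟨x, 1, false⟩ * P⁻¹ = ⟨P.a * x * P.a⁻¹, 1, false⟩ := by
  obtain ⟨p, q, s⟩ := P
  cases s
  · rw [conj_false]
  · exfalso
    rw [conj_true] at h
    have h1 := congrArg W2.a h
    change e 1 = e y at h1
    rw [map_one, hy] at h1
    exact hc h1

lemma map_map {G H K : Type} [Group G] [Group H] [Group K] (f : G →* H) (g : H →* K)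
    (p : W2 G) : W2.map g (W2.map f p) = W2.map (g.comp f) p := rfl

/-- consequences of the test -/
lemma good (Θ : P4 →ₜ* W2 F2) (hΘ1 : Θ (ell 1) = ⟨1, 1, true⟩) (hΘ2 : Θ (ell 2) = ⟨X, 1, false⟩)
    (hΘ3 : Θ (ell 3) = ⟨Y, 1, false⟩) (hΘd : ∀ g : S4, ∃ w : W2 (FreeGroup (Fin 2)),
      Θ (eta S4 g) = ⟨eta _ w.a, eta _ w.b, w.s⟩)
    (e : F2 →* A2) (heX : e X = Multiplicative.ofAdd (1, 0))
    (heY : e Y = Multiplicative.ofAdd (0, 1)) (heo : IsOpen (e.ker : Set F2))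
    (V : PAutLac 0 4) (hV : PIsDisc V)
    (t2 : W2.map e (Θ (V.toFun (ell 2))) = W2.map e (Θ (ell 2)))
    (t3 : W2.map e (Θ (V.toFun (ell 3))) = W2.map e (Θ (ell 3))) :
    (∃ w1 w2 : FreeGroup (Fin 2), th Θ V X = eta _ w1 ∧ th Θ V Y = eta _ w2 ∧
      ay w1 = 0 ∧ ax w2 = 0 ∧ ax w1 = ay w2 ∧ ((ax w1 : ℤ) : ZMod 3) = 1) ∧
    (∃ j : F2, ∀ a, Θ (V.toFun a) = ⟨1, j, false⟩ * mapC (th Θ V) (Θ a) * (⟨1, j, false⟩ : W2 F2)⁻¹) ∧
    (∀ a, e (th Θ V a) = e a) := by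
  obtain ⟨μ, hμ, hlac⟩ := V.lac
  obtain ⟨a1, h1⟩ := hlac 1
  obtain ⟨a2, h2⟩ := hlac 2
  obtain ⟨a3, h3⟩ := hlac 3
  change V.toFun (ell 1) = a1 * ppow (ell 1) μ * a1⁻¹ at h1
  change V.toFun (ell 2) = a2 * ppow (ell 2) μ * a2⁻¹ at h2
  change V.toFun (ell 3) = a3 * ppow (ell 3) μ * a3⁻¹ at h3
  have k1 : Θ (V.toFun (ell 1)) = Θ a1 * (⟨1, 1, true⟩ : W2 F2) * (Θ a1)⁻¹ := by
    rw [h1, map_mul, map_mul, map_inv, map_ppow, hΘ1, ppow_invol _ rfl μ hμ]
  have k2 : Θ (V.toFun (ell 2)) = Θ a2 * ⟨ppow X μ, 1, false⟩ * (Θ a2)⁻¹ := by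
    rw [h2, map_mul, map_mul, map_inv, map_ppow, hΘ2]
    rw [← j1_apply, ← j1_apply, map_ppow]
  have k3 : Θ (V.toFun (ell 3)) = Θ a3 * ⟨ppow Y μ, 1, false⟩ * (Θ a3)⁻¹ := by
    rw [h3, map_mul, map_mul, map_inv, map_ppow, hΘ3]
    rw [← j1_apply, ← j1_apply, map_ppow]
  have s2 : Θ (V.toFun (ell 2)) = ⟨(Θ a2).a * ppow X μ * (Θ a2).a⁻¹, 1, false⟩ := by
    rw [k2]
    rw [k2, hΘ2] at t2
    exact shape e _ decX1 _ _ _ heX t2
  have s3 : Θ (V.toFun (ell 3)) = ⟨(Θ a3).a * ppow Y μ * (Θ a3).a⁻¹, 1, false⟩ := by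
    rw [k3]
    rw [k3, hΘ3] at t3
    exact shape e _ decY1 _ _ _ heY t3
  have th2 : th Θ V X = (Θ a2).a * ppow X μ * (Θ a2).a⁻¹ := by
    rw [th, ev_X, s2]
  have th3 : th Θ V Y = (Θ a3).a * ppow Y μ * (Θ a3).a⁻¹ := by
    rw [th, ev_Y, s3]
  -- the exponent is one modulo 3
  have hμ3 : res μ 3 = 1 := by
    have h4 := congrArg W2.a t2
    rw [s2, hΘ2] at h4
    change e ((Θ a2).a * ppow X μ * (Θ a2).a⁻¹) = e X at h4
    rw [e_conj, fin_ppow e heo X μ 3 (A2_pow _), heX] at h4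
    have h5 : res μ 3 < 3 := res_lt _ _
    have h6 := decX ⟨res μ 3, h5⟩ h4
    exact congrArg Fin.val h6
  have heθ : ∀ a, e (th Θ V a) = e a := by
    have : e.comp (th Θ V).toMonoidHom = e := by
      apply hom_ext_XY_finite (Pool.Agent.Helper75.Fox.comp_open e heo _) heo
      · show e (th Θ V X) = e X
        rw [th2, e_conj, fin_ppow e heo X μ 3 (A2_pow _), hμ3, pow_one]
      · show e (th Θ V Y) = e Y
        rw [th3, e_conj, fin_ppow e heo Y μ 3 (A2_pow _), hμ3, pow_one]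
    exact fun a => DFunLike.congr_fun this a
  have hd : ∀ i, ∃ w : FreeGroup (Fin 2), (Θ (V.toFun (ell i))).a = eta _ w := by
    intro i
    have h1 : V.toFun '' Set.range (eta S4) = Set.range (eta S4) := hV
    have h2 : V.toFun (ell i) ∈ Set.range (eta S4) := by
      rw [← h1]
      exact ⟨ell i, ⟨dl i, rfl⟩, rfl⟩
    obtain ⟨g, hg⟩ := h2
    obtain ⟨w, hw⟩ := hΘd g
    refine ⟨w.a, ?_⟩
    rw [← hg, hw]
  refine ⟨?_, ?_, heθ⟩
  · obtain ⟨w1, hw1⟩ := hd 2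
    obtain ⟨w2, hw2⟩ := hd 3
    have hw1' : th Θ V X = eta _ w1 := by rw [th, ev_X, hw1]
    have hw2' : th Θ V Y = eta _ w2 := by rw [th, ev_Y, hw2]
    have key : ∀ (n : ℕ) [NeZero n] (m : ℕ) (_ : ∀ n' : ℕ+, (n' : ℕ) = n → res μ n' = m),
        ((ax w1 : ℤ) : ZMod n) = m ∧ ((ay w1 : ℤ) : ZMod n) = 0 ∧
        ((ax w2 : ℤ) : ZMod n) = 0 ∧ ((ay w2 : ℤ) : ZMod n) = m := by
      intro n hn m hm
      obtain ⟨ex, ey, hex, hey, hex', hey'⟩ := exists_exp n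
      have hnpos : 0 < n := Nat.pos_of_ne_zero hn.ne
      let n' : ℕ+ := ⟨n, hnpos⟩
      have hpow : ∀ x : Multiplicative (ZMod n), x ^ (n' : ℕ) = 1 := by
        intro x
        show Multiplicative.ofAdd ((n : ℕ) • x.toAdd) = 1
        rw [nsmul_eq_mul, ZMod.natCast_self, zero_mul]
        rfl
      have hX1 : ex X = Multiplicative.ofAdd (1 : ZMod n) := by
        rw [← eta_zero, hex']
        simp [ax]
      have hY1 : ex Y = 1 := by
        rw [← eta_one, hex']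
        simp [ax]
      have hX2 : ey X = 1 := by
        rw [← eta_zero, hey']
        simp [ay]
      have hY2 : ey Y = Multiplicative.ofAdd (1 : ZMod n) := by
        rw [← eta_one, hey']
        simp [ay]
      have hcomm : ∀ (e : F2 →* Multiplicative (ZMod n)) (a b : F2), e (a * b * a⁻¹) = e b := by
        intro e a b
        rw [map_mul, map_mul, map_inv, mul_comm (e a), mul_assoc, mul_inv_cancel, mul_one]
      have s1 : ex (eta _ w1) = ex X ^ m := by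
        rw [← hw1', th2, hcomm, fin_ppow ex hex _ _ n' (hpow _), hm n' rfl]
      have s2 : ey (eta _ w1) = ey X ^ m := by
        rw [← hw1', th2, hcomm, fin_ppow ey hey _ _ n' (hpow _), hm n' rfl]
      have s3 : ex (eta _ w2) = ex Y ^ m := by
        rw [← hw2', th3, hcomm, fin_ppow ex hex _ _ n' (hpow _), hm n' rfl]
      have s4 : ey (eta _ w2) = ey Y ^ m := by
        rw [← hw2', th3, hcomm, fin_ppow ey hey _ _ n' (hpow _), hm n' rfl]
      rw [hex', hX1] at s1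
      rw [hey', hX2, one_pow] at s2
      rw [hex', hY1, one_pow] at s3
      rw [hey', hY2] at s4
      refine ⟨?_, s2, s3, ?_⟩
      · have := congrArg Multiplicative.toAdd s1
        simpa using this
      · have := congrArg Multiplicative.toAdd s4
        simpa using this
    have key' : ∀ (n : ℕ) [NeZero n], ∃ m : ℕ,
        ((ax w1 : ℤ) : ZMod n) = m ∧ ((ay w1 : ℤ) : ZMod n) = 0 ∧
        ((ax w2 : ℤ) : ZMod n) = 0 ∧ ((ay w2 : ℤ) : ZMod n) = m := by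
      intro n hn
      refine ⟨res μ ⟨n, Nat.pos_of_ne_zero hn.ne⟩, key n _ ?_⟩
      intro n' hn'
      subst hn'
      rfl
    refine ⟨w1, w2, hw1', hw2', ?_, ?_, ?_, ?_⟩
    · apply int_eq_zero_of_forall
      intro n _
      obtain ⟨m, h1, h2, h3, h4⟩ := key' n
      exact h2
    · apply int_eq_zero_of_forall
      intro n _
      obtain ⟨m, h1, h2, h3, h4⟩ := key' n
      exact h3
    · apply int_eq_of_forall
      intro n _
      obtain ⟨m, h1, h2, h3, h4⟩ := key' n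
      rw [h1, h4]
    · have h5 := key 3 1 (by
        intro n' hn'
        have : n' = 3 := PNat.coe_injective hn'
        rw [this]
        exact hμ3)
      rw [h5.1]
      simp
  · refine ⟨(Θ a1).b * (Θ a1).a⁻¹, ?_⟩
    set j := (Θ a1).b * (Θ a1).a⁻¹ with hj
    have : Θ.comp V.toC = (conjC (⟨1, j, false⟩ : W2 F2)).comp ((mapC (th Θ V)).comp Θ) := by
      apply P4_ext123
      · show Θ (V.toFun (ell 1)) = ⟨1, j, false⟩ * mapC (th Θ V) (Θ (ell 1)) *
          (⟨1, j, false⟩ : W2 F2)⁻¹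
        rw [k1, conj_sigma, hΘ1, mapC_apply]
        simp only [map_one]
        rw [conj_sigma]
        simp [hj]
      · show Θ (V.toFun (ell 2)) = ⟨1, j, false⟩ * mapC (th Θ V) (Θ (ell 2)) *
          (⟨1, j, false⟩ : W2 F2)⁻¹
        rw [hΘ2, mapC_apply]
        simp only [map_one]
        rw [conj_false, th2, s2]
        simp
      · show Θ (V.toFun (ell 3)) = ⟨1, j, false⟩ * mapC (th Θ V) (Θ (ell 3)) *
          (⟨1, j, false⟩ : W2 F2)⁻¹
        rw [hΘ3, mapC_apply]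
        simp only [map_one]
        rw [conj_false, th3, s3]
        simp
    exact fun a => DFunLike.congr_fun this a

/-- the discrete automorphism of `F2` attached to a discrete `V` -/
lemma good_disc (Θ : P4 →ₜ* W2 F2) (hΘ1 : Θ (ell 1) = ⟨1, 1, true⟩)
    (hΘ2 : Θ (ell 2) = ⟨X, 1, false⟩) (hΘ3 : Θ (ell 3) = ⟨Y, 1, false⟩)
    (hΘd : ∀ g : S4, ∃ w : W2 (FreeGroup (Fin 2)), Θ (eta S4 g) = ⟨eta _ w.a, eta _ w.b, w.s⟩)
    (e : F2 →* A2) (heX : e X = Multiplicative.ofAdd (1, 0))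
    (heY : e Y = Multiplicative.ofAdd (0, 1)) (heo : IsOpen (e.ker : Set F2))
    (V : PAutLac 0 4) (hV : PIsDisc V)
    (t2 : W2.map e (Θ (V.toFun (ell 2))) = W2.map e (Θ (ell 2)))
    (t3 : W2.map e (Θ (V.toFun (ell 3))) = W2.map e (Θ (ell 3))) :
    DiscAut (th Θ V) ∧
    (∃ j : F2, ∀ a, Θ (V.toFun a) =
      ⟨1, j, false⟩ * mapC (th Θ V) (Θ a) * (⟨1, j, false⟩ : W2 F2)⁻¹) := by
  obtain ⟨⟨w1, w2, hw1, hw2, a1, a2, a3, a4⟩, ⟨j, hj⟩, heθ⟩ :=
    good Θ hΘ1 hΘ2 hΘ3 hΘd e heX heY heo V hV t2 t3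
  refine ⟨?_, j, hj⟩
  -- the test for the inverse
  have hmap : ∀ p : W2 F2, W2.map e (mapC (th Θ V) p) = W2.map e p := by
    intro p
    show (⟨e (th Θ V p.a), e (th Θ V p.b), p.s⟩ : W2 A2) = ⟨e p.a, e p.b, p.s⟩
    rw [heθ, heθ]
  have tinv : ∀ (b : P4) (x : F2), Θ b = ⟨x, 1, false⟩ →
      W2.map e (Θ ((V⁻¹).toFun b)) = W2.map e (Θ b) := by
    intro b x hb
    have h1 := hj ((V⁻¹).toFun b)
    have h2 : V.toFun ((V⁻¹).toFun b) = b := V.right_inv b
    rw [h2] at h1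
    have h3 := congrArg (W2.map e) h1
    rw [map_mul, map_mul, map_inv, hmap] at h3
    set Q := W2.map e (Θ ((V⁻¹).toFun b)) with hQ
    set J := W2.map e (⟨1, j, false⟩ : W2 F2) with hJ
    have h4 : Q = J⁻¹ * W2.map e (Θ b) * J⁻¹⁻¹ := by
      rw [h3]; group
    rw [h4, hb]
    show (⟨e 1, e j, false⟩ : W2 A2)⁻¹ * ⟨e x, e 1, false⟩ * ((⟨e 1, e j, false⟩ : W2 A2)⁻¹)⁻¹ =
      ⟨e x, e 1, false⟩
    simp [W2.ext_iff, mul_a, mul_b, mul_s, inv_a, inv_b, inv_s]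
  have t2' := tinv _ _ hΘ2
  have t3' := tinv _ _ hΘ3
  obtain ⟨⟨v1, v2, hv1, hv2, b1, b2, b3, b4⟩, ⟨j', hj'⟩, heθ'⟩ :=
    good Θ hΘ1 hΘ2 hΘ3 hΘd e heX heY heo V⁻¹ hV.inv t2' t3'
  have hΘB : ∀ w, Θ (iB w) = ⟨w, 1, false⟩ := by
    have : Θ.comp iB = j1 := by
      apply hom_ext_XY
      · show Θ (iB X) = _
        rw [iB_X, hΘ2, j1_apply]
      · show Θ (iB Y) = _
        rw [iB_Y, hΘ3, j1_apply]
    exact fun a => DFunLike.congr_fun this a
  have hinv : ∀ a, th Θ V (th Θ V⁻¹ a) = a := by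
    intro a
    have h1 := hj ((V⁻¹).toFun (iB a))
    have h2 : V.toFun ((V⁻¹).toFun (iB a)) = iB a := V.right_inv _
    have h5 : Θ ((V⁻¹).toFun (iB a)) = ⟨th Θ V⁻¹ a, 1, false⟩ := by
      rw [hj', hΘB, mapC_apply]
      simp only [map_one]
      rw [conj_false]
      simp
    rw [h2, h5, hΘB, mapC_apply] at h1
    simp only [map_one] at h1
    rw [conj_false] at h1
    have h3 := congrArg W2.a h1
    simp only [inv_one, one_mul, mul_one] at h3
    exact h3.symm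
  -- the product of the exponents is one
  have hmm : ax w1 * ax v1 = 1 := by
    apply int_eq_of_forall
    intro n _
    obtain ⟨ex, ey, hex, hey, hex', hey'⟩ := exists_exp n
    have hX1 : ex X = Multiplicative.ofAdd (1 : ZMod n) := by
      rw [← eta_zero, hex']
      simp [ax]
    have hY1 : ex Y = 1 := by
      rw [← eta_one, hex']
      simp [ax]
    have h1 : ex.comp (th Θ V).toMonoidHom = (zpowGroupHom (ax w1)).comp ex := by
      apply hom_ext_XY_finite (Pool.Agent.Helper75.Fox.comp_open ex hex _)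
      · apply Subgroup.isOpen_mono (H₁ := ex.ker) _ hex
        intro g hg
        rw [MonoidHom.mem_ker] at hg ⊢
        show (ex g) ^ (ax w1) = 1
        rw [hg, one_zpow]
      · show ex (th Θ V X) = ex X ^ (ax w1)
        rw [hw1, hex', hX1, ← ofAdd_zsmul]
        simp
      · show ex (th Θ V Y) = ex Y ^ (ax w1)
        rw [hw2, hex', hY1, a2]
        simp
    have h2 : ex (th Θ V (th Θ V⁻¹ X)) = ex (th Θ V⁻¹ X) ^ (ax w1) :=
      DFunLike.congr_fun h1 _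
    rw [hinv, hv1, hex', hX1, ← ofAdd_zsmul] at h2
    have h4 := congrArg Multiplicative.toAdd h2
    simp at h4
    push_cast
    rw [← h4]
  have hw : ax w1 = 1 := by
    rcases Int.isUnit_iff.1 (IsUnit.of_mul_eq_one _ hmm) with h | h
    · exact h
    · exfalso
      rw [h] at a4
      revert a4
      decide
  have hv : ax v1 = 1 := by
    rw [hw, one_mul] at hmm
    exact hmm
  exact ⟨⟨w1, w2, v1, v2, th Θ V⁻¹, hw1, hw2, hv1, hv2, hinv, hw, a1, a2,
    by rw [← a3, hw], hv, b1, b2, by rw [← b3, hv]⟩⟩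

/-- openness of the kernel of the induced map between wreath products -/
lemma isOpen_ker_map {H : Type} [Group H] (ρ : F2 →* H) (hρ : IsOpen (ρ.ker : Set F2))
    (Θ : P4 →ₜ* W2 F2) : IsOpen (((W2.map ρ).comp Θ.toMonoidHom).ker : Set P4) := by
  have : (((W2.map ρ).comp Θ.toMonoidHom).ker : Set P4) =
      Θ ⁻¹' (((fun p : W2 F2 => p.a) ⁻¹' (ρ.ker : Set F2)) ∩
        ((fun p : W2 F2 => p.b) ⁻¹' (ρ.ker : Set F2)) ∩ ((fun p : W2 F2 => p.s) ⁻¹' {false})) := by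
    ext a
    show W2.map ρ (Θ a) = 1 ↔ (ρ (Θ a).a = 1 ∧ ρ (Θ a).b = 1) ∧ (Θ a).s = false
    rw [map_apply, W2.ext_iff]
    show (ρ (Θ a).a = 1 ∧ ρ (Θ a).b = 1 ∧ (Θ a).s = false) ↔ _
    tauto
  rw [this]
  exact (((hρ.preimage continuous_a).inter (hρ.preimage continuous_b)).inter
    ((isOpen_discrete _).preimage continuous_s)).preimage Θ.continuous_toFun

lemma quot_conj (α β β' : F2 →ₜ* F2) (hβ' : ∀ a, β' (β a) = a) (l : Zhatˣ) (z u c : F2)
    (h1 : α z = u * ppow z l * u⁻¹) (h2 : β z = c * ppow z l * c⁻¹) :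
    ∃ d, α (β' z) = d * z * d⁻¹ := by
  have h3 : z = β' c * ppow (β' z) (l : Zhat) * (β' c)⁻¹ := by
    have := congrArg (fun t => β' t) h2
    simp only [hβ', map_mul, map_inv, map_ppow] at this
    exact this
  have h4 : ppow (β' z) (l : Zhat) = (β' c)⁻¹ * z * ((β' c)⁻¹)⁻¹ := by
    calc ppow (β' z) (l : Zhat) =
        (β' c)⁻¹ * (β' c * ppow (β' z) (l : Zhat) * (β' c)⁻¹) * ((β' c)⁻¹)⁻¹ := by group
      _ = _ := by rw [← h3]
  have h5 : β' z = (β' c)⁻¹ * ppow z ((l⁻¹ : Zhatˣ) : Zhat) * ((β' c)⁻¹)⁻¹ := by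
    have h6 := congrArg (fun t => ppow t ((l⁻¹ : Zhatˣ) : Zhat)) h4
    simp only [ppow_conj] at h6
    rw [← Pool.Agent.Helper75.Basic.ppow_mul, Units.mul_inv,
      Pool.Agent.Helper75.Basic.ppow_one] at h6
    exact h6
  refine ⟨(α (β' c))⁻¹ * u, ?_⟩
  have h7 : ppow (α z) ((l⁻¹ : Zhatˣ) : Zhat) = u * z * u⁻¹ := by
    rw [h1, ppow_conj, ← Pool.Agent.Helper75.Basic.ppow_mul, Units.mul_inv,
      Pool.Agent.Helper75.Basic.ppow_one]
  rw [h5, inv_inv, map_mul, map_mul, map_inv, map_ppow, h7]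
  group

theorem not_normal : ¬ (PTPlus 0 4).Normal := by
  intro hnormal
  obtain ⟨α, u, v, hX, hY, hXY, hbij⟩ := exists_auto lamUnit
  obtain ⟨hβ, ⟨cX, hcX⟩, ⟨cY, hcY⟩⟩ := beta_props α u v lamUnit hX hY hXY
  have bβ : Function.Bijective (tau.comp (α.comp tau)) :=
    tau_bijective.comp (hbij.comp tau_bijective)
  set β : F2 →ₜ* F2 := tau.comp (α.comp tau) with hβdef
  obtain ⟨α', a1, a2⟩ := exists_inverse α hbij
  obtain ⟨β', b1, b2⟩ := exists_inverse β bβ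
  -- `γ = α β⁻¹`
  let γ : F2 →ₜ* F2 := α.comp β'
  let γ' : F2 →ₜ* F2 := β.comp α'
  have hγγ' : ∀ a, γ (γ' a) = a := by
    intro a
    show α (β' (β (α' a))) = a
    rw [b2, a1]
  have hγ'γ : ∀ a, γ' (γ a) = a := by
    intro a
    show β (α' (α (β' a))) = a
    rw [a2, b1]
  have hγβ : ∀ a, γ (β a) = α a := by
    intro a
    show α (β' (β a)) = α a
    rw [b2]
  have hγXY : γ (X * Y) = X * Y := by
    show α (β' (X * Y)) = X * Y
    rw [inverse_XY β β' lamUnit hβ b2, map_ppow, hXY, ← Pool.Agent.Helper75.Basic.ppow_mul,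
      Units.mul_inv, Pool.Agent.Helper75.Basic.ppow_one]
  have hγ'XY : γ' (X * Y) = X * Y := by
    have h := hγ'γ (X * Y)
    rw [hγXY] at h
    exact h
  obtain ⟨dX, hdX⟩ : ∃ d, γ X = d * X * d⁻¹ := quot_conj α β β' b2 lamUnit X u cX hX hcX
  obtain ⟨dY, hdY⟩ : ∃ d, γ Y = d * Y * d⁻¹ := quot_conj α β β' b2 lamUnit Y v cY hY hcY
  -- the glued automorphism
  have hid : (ContinuousMonoidHom.id F2) (X * Y) = ppow (X * Y) 1 := by
    rw [Pool.Agent.Helper75.Basic.ppow_one]; rfl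
  obtain ⟨φ, φA, φB⟩ := exists_glue (ContinuousMonoidHom.id F2) γ 1 hid
    (by rw [hγXY, Pool.Agent.Helper75.Basic.ppow_one])
  obtain ⟨ψ, ψA, ψB⟩ := exists_glue (ContinuousMonoidHom.id F2) γ' 1 hid
    (by rw [hγ'XY, Pool.Agent.Helper75.Basic.ppow_one])
  have hφψ : ∀ a, φ (ψ a) = a := by
    have : φ.comp ψ = ContinuousMonoidHom.id P4 := by
      apply P4_ext_AB
      · intro w
        show φ (ψ (iA w)) = iA w
        rw [ψA, φA]; rfl
      · intro w
        show φ (ψ (iB w)) = iB w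
        rw [ψB, φB, hγγ']
    exact fun a => DFunLike.congr_fun this a
  have hψφ : ∀ a, ψ (φ a) = a := by
    have : ψ.comp φ = ContinuousMonoidHom.id P4 := by
      apply P4_ext_AB
      · intro w
        show ψ (φ (iA w)) = iA w
        rw [φA, ψA]; rfl
      · intro w
        show ψ (φ (iB w)) = iB w
        rw [φB, ψB, hγ'γ]
    exact fun a => DFunLike.congr_fun this a
  have hφone : PLacOne (φ : P4 → P4) := by
    intro i
    fin_cases i
    · refine ⟨1, ?_⟩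
      show φ (ell 0) = 1 * ell 0 * 1⁻¹
      rw [← iA_X, φA]
      show iA X = _
      group
    · refine ⟨1, ?_⟩
      show φ (ell 1) = 1 * ell 1 * 1⁻¹
      rw [← iA_Y, φA]
      show iA Y = _
      group
    · refine ⟨iB dX, ?_⟩
      show φ (ell 2) = iB dX * ell 2 * (iB dX)⁻¹
      rw [← iB_X, φB, hdX, map_mul, map_mul, map_inv]
    · refine ⟨iB dY, ?_⟩
      show φ (ell 3) = iB dY * ell 3 * (iB dY)⁻¹
      rw [← iB_Y, φB, hdY, map_mul, map_mul, map_inv]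
  let Ψ : PAutLac 0 4 := mkP φ ψ hφψ hψφ ⟨1, isUnitZ_unit 1, hφone.with⟩
  obtain ⟨T, hTdisc, hTone, T0, T1, T2, T3⟩ := exists_twist
  obtain ⟨Θ, hΘ1, hΘ2, hΘ3, hΘd⟩ := exists_Theta
  have hΘB : ∀ w, Θ (iB w) = ⟨w, 1, false⟩ := by
    have : Θ.comp iB = j1 := by
      apply hom_ext_XY
      · show Θ (iB X) = _
        rw [iB_X, hΘ2, j1_apply]
      · show Θ (iB Y) = _
        rw [iB_Y, hΘ3, j1_apply]
    exact fun a => DFunLike.congr_fun this a
  -- `Θ T Ψ = Θ T`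
  have hΘTΨ : ∀ a, Θ (T.toFun (φ a)) = Θ (T.toFun a) := by
    let h : F2 →ₜ* W2 F2 := Θ.comp (T.toC.comp iB)
    have hX1 : h X = ⟨1, X, false⟩ := by
      show Θ (T.toFun (iB X)) = _
      rw [iB_X, T2, map_mul, map_mul, map_inv, map_mul, hΘ1, hΘ2]
      simp [W2.ext_iff, mul_a, mul_b, mul_s, inv_a, inv_b, inv_s]
    have hY1 : h Y = ⟨Y, 1, false⟩ := by
      show Θ (T.toFun (iB Y)) = _
      rw [iB_Y, T3, hΘ3]
    have hcX : ∀ w, h w * h X * (h w)⁻¹ = h X := by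
      have h1 : (conjC (h X)).comp h = h := by
        apply hom_ext_XY
        · show h X * h X * (h X)⁻¹ = h X
          group
        · show h X * h Y * (h X)⁻¹ = h Y
          rw [hX1, hY1]
          simp [W2.ext_iff, mul_a, mul_b, mul_s, inv_a, inv_b, inv_s]
      intro w
      have h2 : h X * h w * (h X)⁻¹ = h w := DFunLike.congr_fun h1 w
      calc h w * h X * (h w)⁻¹ = (h X * h w * (h X)⁻¹) * h X * (h w)⁻¹ := by rw [h2]
        _ = h X := by group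
    have hcY : ∀ w, h w * h Y * (h w)⁻¹ = h Y := by
      have h1 : (conjC (h Y)).comp h = h := by
        apply hom_ext_XY
        · show h Y * h X * (h Y)⁻¹ = h X
          rw [hX1, hY1]
          simp [W2.ext_iff, mul_a, mul_b, mul_s, inv_a, inv_b, inv_s]
        · show h Y * h Y * (h Y)⁻¹ = h Y
          group
      intro w
      have h2 : h Y * h w * (h Y)⁻¹ = h w := DFunLike.congr_fun h1 w
      calc h w * h Y * (h w)⁻¹ = (h Y * h w * (h Y)⁻¹) * h Y * (h w)⁻¹ := by rw [h2]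
        _ = h Y := by group
    have : (Θ.comp T.toC).comp φ = Θ.comp T.toC := by
      apply P4_ext123
      · show Θ (T.toFun (φ (ell 1))) = Θ (T.toFun (ell 1))
        rw [← iA_Y, φA]
        rfl
      · show Θ (T.toFun (φ (ell 2))) = Θ (T.toFun (ell 2))
        rw [← iB_X, φB]
        show h (γ X) = h X
        rw [hdX, map_mul, map_mul, map_inv, hcX]
      · show Θ (T.toFun (φ (ell 3))) = Θ (T.toFun (ell 3))
        rw [← iB_Y, φB]
        show h (γ Y) = h Y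
        rw [hdY, map_mul, map_mul, map_inv, hcY]
    exact fun a => DFunLike.congr_fun this a
  -- `Θ Ψ = γ Θ`
  have hΘΨ : ∀ a, Θ (φ a) = mapC γ (Θ a) := by
    have : Θ.comp φ = (mapC γ).comp Θ := by
      apply P4_ext123
      · show Θ (φ (ell 1)) = mapC γ (Θ (ell 1))
        rw [hΘ1, mapC_apply]
        simp only [map_one]
        rw [← iA_Y, φA]
        show Θ (iA Y) = _
        rw [iA_Y, hΘ1]
      · show Θ (φ (ell 2)) = mapC γ (Θ (ell 2))
        rw [hΘ2, mapC_apply]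
        simp only [map_one]
        rw [← iB_X, φB, hΘB]
      · show Θ (φ (ell 3)) = mapC γ (Θ (ell 3))
        rw [hΘ3, mapC_apply]
        simp only [map_one]
        rw [← iB_Y, φB, hΘB]
    exact fun a => DFunLike.congr_fun this a
  set R : PAutLac 0 4 := Ψ * T * Ψ⁻¹ * T⁻¹ with hR
  have hΘR : ∀ a, Θ (R.toFun a) = mapC γ (Θ a) := by
    intro a
    have h1 : R.toFun a = φ (T.toFun (ψ (T.invFun a))) := rfl
    rw [h1, hΘΨ]
    have h2 := hΘTΨ (ψ (T.invFun a))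
    rw [hφψ, T.right_inv] at h2
    rw [← h2]
  -- use of normality
  have hTT : pcls T ∈ PTPlus 0 4 := ⟨T, hTdisc.inClosure, hTone, rfl⟩
  have hRT : pcls R ∈ PTPlus 0 4 := by
    show pcls Ψ * pcls T * (pcls Ψ)⁻¹ * (pcls T)⁻¹ ∈ PTPlus 0 4
    exact mul_mem (hnormal.conj_mem _ hTT _) (inv_mem hTT)
  obtain ⟨W, hWbar, -, hWeq⟩ := hRT
  have hWeq2 : W⁻¹ * R ∈ PInnLac 0 4 := QuotientGroup.eq.1 hWeq
  obtain ⟨g', hg'⟩ := hWeq2
  have hRW : ∀ a, R.toFun a = W.toFun (g' * a * g'⁻¹) := by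
    intro a
    have h2 : W.invFun (R.toFun a) = g' * a * g'⁻¹ := hg' a
    rw [← h2]
    exact (W.right_inv (R.toFun a)).symm
  clear hg' hWeq
  -- we may assume that `g'` lies in the kernel of the last coordinate
  obtain ⟨W, g', hWbar, hRW, hgs⟩ : ∃ (W : PAutLac 0 4) (g' : P4), PInClosure W ∧
      (∀ a, R.toFun a = W.toFun (g' * a * g'⁻¹)) ∧ (Θ g').s = false := by
    cases hs : (Θ g').s with
    | false => exact ⟨W, g', hWbar, hRW, hs⟩
    | true =>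
      have hcd : PIsDisc (PAutLac.conj (ell 1)) := by
        show (fun b => ell 1 * b * (ell 1)⁻¹) '' Set.range (eta S4) = Set.range (eta S4)
        ext b
        constructor
        · rintro ⟨_, ⟨g, rfl⟩, rfl⟩
          refine ⟨dl 1 * g * (dl 1)⁻¹, ?_⟩
          rw [map_mul, map_mul, map_inv]
          rfl
        · rintro ⟨g, rfl⟩
          refine ⟨eta S4 ((dl 1)⁻¹ * g * dl 1), ⟨_, rfl⟩, ?_⟩
          show ell 1 * eta S4 ((dl 1)⁻¹ * g * dl 1) * (ell 1)⁻¹ = eta S4 g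
          rw [map_mul, map_mul, map_inv, ell_eq]
          group
      refine ⟨W * (PAutLac.conj (ell 1))⁻¹, ell 1 * g', hWbar.mul hcd.inv.inClosure,
        fun a => ?_, ?_⟩
      · rw [hRW]
        show _ = W.toFun ((ell 1)⁻¹ * (ell 1 * g' * a * (ell 1 * g')⁻¹) * ell 1)
        congr 1
        group
      · rw [map_mul, hΘ1, mul_s, hs]
        rfl
  have hWs : ∀ a, (Θ (W.toFun a)).s = (Θ a).s := by
    intro a
    have h1 := hRW (g'⁻¹ * a * g')
    have h2 : g' * (g'⁻¹ * a * g') * g'⁻¹ = a := by group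
    rw [h2] at h1
    rw [← h1, hΘR, mapC_apply]
    show (Θ (g'⁻¹ * a * g')).s = _
    rw [map_mul, map_mul, map_inv, mul_s, mul_s, inv_s, hgs]
    simp
  obtain ⟨e, heX, heY, heo⟩ := exists_e
  refine no_conj lamUnit res_lamUnit α u v hX hY hXY ?_
  intro H _ _ ρ hρ
  have hρe : IsOpen ((ρ.prod e).ker : Set F2) := isOpen_ker_prod ρ e hρ heo
  let N : OpenNormalSubgroup P4 :=
    { toSubgroup := ((W2.map (ρ.prod e)).comp Θ.toMonoidHom).ker
      isOpen' := isOpen_ker_map _ hρe Θ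
      isNormal' := inferInstance }
  obtain ⟨W0, hW0, hN⟩ := hWbar N
  have hN2 : ∀ a, W2.map (ρ.prod e) (Θ (W.toFun a)) = W2.map (ρ.prod e) (Θ (W0.toFun a)) := by
    intro a
    have h1 : W.toFun a * (W0.toFun a)⁻¹ ∈ ((W2.map (ρ.prod e)).comp Θ.toMonoidHom).ker := hN a
    rw [MonoidHom.mem_ker] at h1
    have h2 : W2.map (ρ.prod e) (Θ (W.toFun a * (W0.toFun a)⁻¹)) = 1 := h1
    rw [map_mul, map_mul, map_inv, map_inv, mul_inv_eq_one] at h2
    exact h2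
  -- the value of `Θ W` on the second free factor
  set p := (Θ (W.toFun g')).a with hp
  have hWB : ∀ w, Θ (W.toFun (iB w)) = ⟨p⁻¹ * γ w * p, 1, false⟩ := by
    intro w
    have h1 := hRW (iB w)
    have h2 : W.toFun (g' * iB w * g'⁻¹) =
        W.toFun g' * W.toFun (iB w) * (W.toFun g')⁻¹ := by
      show W.toC (g' * iB w * g'⁻¹) = W.toC g' * W.toC (iB w) * (W.toC g')⁻¹
      rw [map_mul, map_mul, map_inv]
    have h3 : Θ (R.toFun (iB w)) = Θ (W.toFun (g' * iB w * g'⁻¹)) := by rw [h1]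
    rw [h2, hΘR, hΘB, mapC_apply, map_mul, map_mul, map_inv] at h3
    simp only [map_one] at h3
    have h4 : Θ (W.toFun (iB w)) =
        (Θ (W.toFun g'))⁻¹ * ⟨γ w, 1, false⟩ * ((Θ (W.toFun g'))⁻¹)⁻¹ := by
      rw [h3]; group
    rw [h4]
    have h5 : (Θ (W.toFun g')).s = false := by rw [hWs, hgs]
    have h6 : (Θ (W.toFun g'))⁻¹ = ⟨p⁻¹, (Θ (W.toFun g')).b⁻¹, false⟩ := by
      apply W2.ext
      · rw [inv_a, h5]; rfl
      · rw [inv_b, h5]; rfl
      · rw [inv_s, h5]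
    rw [h6, conj_false]
    simp
  have heγ : ∀ w, e (γ w) = e w := by
    have : e.comp γ.toMonoidHom = e := by
      apply hom_ext_XY_finite (Pool.Agent.Helper75.Fox.comp_open e heo _) heo
      · show e (γ X) = e X
        rw [hdX, e_conj]
      · show e (γ Y) = e Y
        rw [hdY, e_conj]
    exact fun a => DFunLike.congr_fun this a
  have hWe : ∀ w, W2.map e (Θ (W0.toFun (iB w))) = W2.map e (Θ (iB w)) := by
    intro w
    have h1 := hN2 (iB w)
    have h2 := congrArg (W2.map (MonoidHom.snd H A2)) h1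
    rw [map_map, map_map, MonoidHom.snd_comp_prod, hWB] at h2
    rw [← h2, hΘB]
    show (⟨e (p⁻¹ * γ w * p), e 1, false⟩ : W2 A2) = ⟨e w, e 1, false⟩
    have h3 : e (p⁻¹ * γ w * p) = e w := by
      have h4 := e_conj e p⁻¹ (γ w)
      rw [inv_inv] at h4
      rw [h4, heγ]
    rw [h3]
  have t2 : W2.map e (Θ (W0.toFun (ell 2))) = W2.map e (Θ (ell 2)) := by
    rw [← iB_X]; exact hWe X
  have t3 : W2.map e (Θ (W0.toFun (ell 3))) = W2.map e (Θ (ell 3)) := by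
    rw [← iB_Y]; exact hWe Y
  obtain ⟨hDA, j, hj⟩ := good_disc Θ hΘ1 hΘ2 hΘ3 hΘd e heX heY heo W0 hW0 t2 t3
  refine ⟨th Θ W0, p, hDA, fun a => ?_⟩
  have h1 := hN2 (iB (β a))
  have h2 := congrArg (fun t => (W2.map (MonoidHom.fst H A2) t).a) h1
  change (W2.map (MonoidHom.fst H A2) (W2.map (ρ.prod e) (Θ (W.toFun (iB (β a)))))).a =
    (W2.map (MonoidHom.fst H A2) (W2.map (ρ.prod e) (Θ (W0.toFun (iB (β a)))))).a at h2
  rw [map_map, map_map, MonoidHom.fst_comp_prod, hWB, hj, hΘB, mapC_apply] at h2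
  simp only [map_one] at h2
  rw [conj_false] at h2
  change ρ (p⁻¹ * γ (β a) * p) = ρ (1 * th Θ W0 (β a) * 1⁻¹) at h2
  rw [hγβ, one_mul, inv_one, mul_one, map_mul, map_mul, map_inv] at h2
  show ρ (α a) = ρ p * ρ (th Θ W0 (β a)) * (ρ p)⁻¹
  rw [← h2]
  group

end Pool.Agent.Helper75.PureMain
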